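import Mathlib

/-!
# Words of blocks in which each block occurs an even number of times
-/

set_option autoImplicit false

open Finset

namespace Pool.Agent.TH457.HT

/-- the `c`-th of the `N` blocks of `L` bits of the word `x` -/
def blk {N L : ℕ} (x : Fin (N * L) → Bool) (c : Fin N) (o : Fin L) : Bool :=
  x (finProdFinEquiv (c, o))

/-- each block value occurs an even number of times among the `N` blocks of `x` -/
def AllEven {N L : ℕ} (x : Fin (N * L) → Bool) : Prop :=
  ∀ u : Fin L → Bool, Even ((univ : Finset (Fin N)).filter (fun c => blk x c = u)).card

end Pool.Agent.TH457.HT
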