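import Pool.Agent.TH457.HT.DetDefs
import Pool.Agent.TH457.HT.EvenDefs

/-!
# Even multiplicities: a deterministic program
-/

set_option autoImplicit false

open Finset

namespace Pool.Agent.TH457.HT

/-- sums of products along the blocks -/
def sumProd (φ : ℕ → ZMod 2) (L t : ℕ) : ZMod 2 × ZMod 2 :=
  (∑ c ∈ range (t / L), ∏ i ∈ range L, φ (L * c + i), ∏ i ∈ range (t % L), φ (L * (t / L) + i))

theorem sumProd_zero (φ : ℕ → ZMod 2) (L : ℕ) : sumProd φ L 0 = (0, 1) := by
  unfold sumProd
  rw [Nat.zero_div, Nat.zero_mod, range_zero, sum_empty, prod_empty]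

theorem sumProd_succ (φ : ℕ → ZMod 2) (L t : ℕ) (hL : 0 < L) :
    sumProd φ L (t + 1) = if (t + 1) % L = 0
      then ((sumProd φ L t).1 + (sumProd φ L t).2 * φ t, 1)
      else ((sumProd φ L t).1, (sumProd φ L t).2 * φ t) := by
  have hdm := Nat.div_add_mod t L
  have hlt := Nat.mod_lt t hL
  have hcur : (sumProd φ L t).2 * φ t = ∏ i ∈ range (t % L + 1), φ (L * (t / L) + i) := by
    rw [Finset.prod_range_succ, hdm]
    rfl
  rw [hcur]
  by_cases hr : t % L + 1 = L
  · have e0 : t + 1 = L * (t / L + 1) := by rw [mul_add, mul_one]; omega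
    have e1 : (t + 1) % L = 0 := by rw [e0]; exact Nat.mul_mod_right _ _
    have e2 : (t + 1) / L = t / L + 1 := by rw [e0]; exact Nat.mul_div_cancel_left _ hL
    rw [if_pos e1, hr]
    unfold sumProd
    rw [e1, e2, Finset.sum_range_succ, range_zero, prod_empty]
  · have e0 : t + 1 = L * (t / L) + (t % L + 1) := by omega
    have e1 : (t + 1) % L = t % L + 1 := by
      rw [e0, Nat.mul_add_mod]; exact Nat.mod_eq_of_lt (by omega)
    have e3 : (t % L + 1) / L = 0 := Nat.div_eq_of_lt (by omega)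
    have e2 : (t + 1) / L = t / L := by
      rw [e0, Nat.mul_add_div hL, e3, add_zero]
    rw [if_neg (by omega)]
    unfold sumProd
    rw [e1, e2]

/-- the position of the head at time `τ` -/
def pos (n τ : ℕ) : ℕ := if τ % (2 * n) < n then τ % (2 * n) else 2 * n - 1 - τ % (2 * n)

theorem pos_lt {n : ℕ} (hn : 0 < n) (τ : ℕ) : pos n τ < n := by
  unfold pos
  have := Nat.mod_lt τ (by omega : 0 < 2 * n)
  split_ifs <;> omega

theorem step_mod (m τ : ℕ) (hm : 0 < m) :
    (τ % m + 1 < m ∧ (τ + 1) % m = τ % m + 1 ∧ (τ + 1) / m = τ / m) ∨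
    (τ % m + 1 = m ∧ (τ + 1) % m = 0 ∧ (τ + 1) / m = τ / m + 1) := by
  have hdm := Nat.div_add_mod τ m
  have hlt := Nat.mod_lt τ hm
  by_cases hr : τ % m + 1 = m
  · right
    have e0 : τ + 1 = m * (τ / m + 1) := by rw [mul_add, mul_one]; omega
    refine ⟨hr, ?_, ?_⟩
    · rw [e0]; exact Nat.mul_mod_right _ _
    · rw [e0]; exact Nat.mul_div_cancel_left _ hm
  · left
    have e0 : τ + 1 = m * (τ / m) + (τ % m + 1) := by omega
    refine ⟨by omega, ?_, ?_⟩
    · rw [e0, Nat.mul_add_mod]; exact Nat.mod_eq_of_lt (by omega)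
    · have e3 : (τ % m + 1) / m = 0 := Nat.div_eq_of_lt (by omega)
      rw [e0, Nat.mul_add_div hm, e3, add_zero]

theorem pos_slow {n : ℕ} (hn : 0 < n) (τ : ℕ) :
    pos n (τ + 1) ≤ pos n τ + 1 ∧ pos n τ ≤ pos n (τ + 1) + 1 := by
  unfold pos
  have h := step_mod (2 * n) τ (by omega)
  rcases h with ⟨h1, h2, -⟩ | ⟨h1, h2, -⟩
  · rw [h2]; split_ifs <;> omega
  · rw [h2]; split_ifs <;> omega

/-- the test of a letter against a bit of `s` -/
def tst (L s p : ℕ) (b : Bool) : ZMod 2 := if b = Nat.testBit s (p % L) then 1 else 0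

/-- The deterministic program: for each number below `2 ^ L`, one pass and the way back. -/
def detEv (N L : ℕ) (hn : 0 < N * L) : DetProg Bool (N * L) 1 where
  Q := Fin (2 ^ L * (2 * (N * L))) × (ZMod 2 × ZMod 2)
  start := ((⟨0, by positivity⟩, (0, 1)), fun _ => ⟨0, hn⟩)
  move q p l :=
    ((if h : (q.1 : ℕ) + 1 < 2 ^ L * (2 * (N * L)) then ⟨q.1 + 1, h⟩ else q.1,
      if (q.1 : ℕ) % (2 * (N * L)) < N * L then
        (if ((p 0 : ℕ) + 1) % L = 0
          then (q.2.1 + q.2.2 * tst L ((q.1 : ℕ) / (2 * (N * L))) (p 0) (l 0), 1)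
          else (q.2.1, q.2.2 * tst L ((q.1 : ℕ) / (2 * (N * L))) (p 0) (l 0)))
      else (0, 1)),
     fun i => if pos (N * L) (q.1 + 1) ≤ (p i : ℕ) + 1 ∧ (p i : ℕ) ≤ pos (N * L) (q.1 + 1) + 1
       then ⟨pos (N * L) (q.1 + 1), pos_lt hn _⟩ else p i)
  out q _ := if (q.1 : ℕ) % (2 * (N * L)) = N * L then
      (if q.2.1 = 0 then (if (q.1 : ℕ) / (2 * (N * L)) + 1 = 2 ^ L then some true else none)
        else some false)
    else none
  slow := by
    intro q p l i
    by_cases h : pos (N * L) (q.1 + 1) ≤ (p i : ℕ) + 1 ∧ (p i : ℕ) ≤ pos (N * L) (q.1 + 1) + 1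
    · simp only [if_pos h]; exact h
    · simp only [if_neg h]; omega

/-- the word as a function on numbers -/
def xw {n : ℕ} (x : Fin n → Bool) (p : ℕ) : Bool := if h : p < n then x ⟨p, h⟩ else false

/-- the two bits at time `τ` -/
def bits2 {n : ℕ} (L : ℕ) (x : Fin n → Bool) (τ : ℕ) : ZMod 2 × ZMod 2 :=
  if τ % (2 * n) ≤ n then
    sumProd (fun p => tst L (τ / (2 * n)) p (xw x p)) L (τ % (2 * n))
  else (0, 1)

theorem detRun (N L : ℕ) (hn : 0 < N * L) (hL : 0 < L) (x : Fin (N * L) → Bool) (τ : ℕ)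
    (hτ : τ < 2 ^ L * (2 * (N * L))) :
    (((((detEv N L hn).step x)^[τ] (detEv N L hn).start).1.1 : Fin (2 ^ L * (2 * (N * L)))) : ℕ)
      = τ ∧
    (((detEv N L hn).step x)^[τ] (detEv N L hn).start).1.2 = bits2 L x τ ∧
    ∀ i, (((((detEv N L hn).step x)^[τ] (detEv N L hn).start).2 i : Fin (N * L)) : ℕ)
      = pos (N * L) τ := by
  induction τ with
  | zero =>
    refine ⟨rfl, ?_, ?_⟩
    · unfold bits2
      rw [Nat.zero_mod, if_pos (Nat.zero_le _), sumProd_zero]
      rfl
    · intro i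
      unfold pos
      rw [Nat.zero_mod, if_pos hn]
      rfl
  | succ τ ih =>
    obtain ⟨h1, h2, h3⟩ := ih (by omega)
    rw [Function.iterate_succ_apply']
    set c := ((detEv N L hn).step x)^[τ] (detEv N L hn).start with hc
    have hstep : (detEv N L hn).step x c =
      ((if h : (c.1.1 : ℕ) + 1 < 2 ^ L * (2 * (N * L)) then ⟨c.1.1 + 1, h⟩ else c.1.1,
      if (c.1.1 : ℕ) % (2 * (N * L)) < N * L then
        (if ((c.2 0 : ℕ) + 1) % L = 0
          then (c.1.2.1 + c.1.2.2 * tst L ((c.1.1 : ℕ) / (2 * (N * L))) (c.2 0) (x (c.2 0)), 1)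
          else (c.1.2.1, c.1.2.2 * tst L ((c.1.1 : ℕ) / (2 * (N * L))) (c.2 0) (x (c.2 0))))
      else (0, 1)),
     fun i => if pos (N * L) (c.1.1 + 1) ≤ (c.2 i : ℕ) + 1
        ∧ (c.2 i : ℕ) ≤ pos (N * L) (c.1.1 + 1) + 1
       then ⟨pos (N * L) (c.1.1 + 1), pos_lt hn _⟩ else c.2 i) := rfl
    rw [hstep]
    refine ⟨?_, ?_, ?_⟩
    · have : (c.1.1 : ℕ) + 1 < 2 ^ L * (2 * (N * L)) := by omega
      simp only [dif_pos this]
      omega
    · simp only
      rw [h1, h2]
      have h30 := h3 0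
      have hs := step_mod (2 * (N * L)) τ (by omega)
      by_cases hr : τ % (2 * (N * L)) < N * L
      · have hp : ((c.2 0 : Fin (N * L)) : ℕ) = τ % (2 * (N * L)) := by
          rw [h30]; unfold pos; rw [if_pos hr]
        have hx : xw x (τ % (2 * (N * L))) = x (c.2 0) := by
          unfold xw
          rw [dif_pos hr]
          congr 1
          exact Fin.ext hp.symm
        rw [if_pos hr, hp]
        unfold bits2
        have h4 : (τ + 1) % (2 * (N * L)) = τ % (2 * (N * L)) + 1 ∧
            (τ + 1) / (2 * (N * L)) = τ / (2 * (N * L)) := by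
          rcases hs with ⟨a1, a2, a3⟩ | ⟨a1, a2, a3⟩
          · exact ⟨a2, a3⟩
          · omega
        rw [h4.1, h4.2, if_pos hr.le,
          if_pos (show τ % (2 * (N * L)) + 1 ≤ N * L by omega), sumProd_succ _ _ _ hL, hx]
      · rw [if_neg hr]
        unfold bits2
        rcases hs with ⟨a1, a2, a3⟩ | ⟨a1, a2, a3⟩
        · rw [a2, if_neg (by omega)]
        · rw [a2, if_pos (Nat.zero_le _), sumProd_zero]
    · intro i
      have h3i := h3 i
      have hps := pos_slow hn τ
      simp only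
      rw [h1, h3i, if_pos hps]

theorem prod_tst {N L : ℕ} (x : Fin (N * L) → Bool) (s : ℕ) (c : Fin N) :
    ∏ i ∈ range L, tst L s (L * c + i) (xw x (L * c + i))
      = if blk x c = (fun o : Fin L => Nat.testBit s o) then 1 else 0 := by
  rw [← Fin.prod_univ_eq_prod_range (fun i => tst L s (L * c + i) (xw x (L * c + i)))]
  have hf : ∀ i : Fin L, tst L s (L * (c : ℕ) + i) (xw x (L * (c : ℕ) + i))
      = if blk x c i = Nat.testBit s i then 1 else 0 := by
    intro i
    have hlt : L * (c : ℕ) + i < N * L := by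
      calc L * (c : ℕ) + i < L * (c : ℕ) + L := by have := i.2; omega
        _ = ((c : ℕ) + 1) * L := by ring
        _ ≤ N * L := Nat.mul_le_mul_right _ c.2
    have hx : xw x (L * (c : ℕ) + i) = blk x c i := by
      unfold xw blk
      rw [dif_pos hlt]
      congr 1
      apply Fin.ext
      change L * (c : ℕ) + i = (i : ℕ) + L * c
      omega
    unfold tst
    rw [hx, Nat.mul_add_mod, Nat.mod_eq_of_lt i.2]
  rw [Finset.prod_congr rfl (fun i _ => hf i)]
  by_cases h : blk x c = (fun o : Fin L => Nat.testBit s o)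
  · rw [if_pos h]
    apply Finset.prod_eq_one
    intro i _
    rw [if_pos (congrFun h i)]
  · rw [if_neg h]
    obtain ⟨i, hi⟩ := Function.ne_iff.mp h
    exact Finset.prod_eq_zero (mem_univ i) (if_neg hi)

theorem sum_at_n {N L : ℕ} (hL : 0 < L) (x : Fin (N * L) → Bool) (s : ℕ) :
    (sumProd (fun p => tst L s p (xw x p)) L (N * L)).1
      = ((((univ : Finset (Fin N)).filter
        (fun c : Fin N => blk x c = (fun o : Fin L => Nat.testBit s o))).card : ℕ) : ZMod 2) := by
  unfold sumProd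
  simp only
  rw [Nat.mul_div_cancel _ hL, ← Fin.sum_univ_eq_sum_range (fun c => ∏ i ∈ range L,
    tst L s (L * c + i) (xw x (L * c + i))), Finset.card_filter]
  push_cast
  apply Finset.sum_congr rfl
  intro c _
  rw [prod_tst]

/-- the parity of the number of the blocks with the bits of `s` -/
def par {N L : ℕ} (x : Fin (N * L) → Bool) (s : ℕ) : ZMod 2 :=
  ((((univ : Finset (Fin N)).filter
    (fun c : Fin N => blk x c = (fun o : Fin L => Nat.testBit s o))).card : ℕ) : ZMod 2)

theorem allEven_par {N L : ℕ} (x : Fin (N * L) → Bool) :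
    AllEven x ↔ ∀ s < 2 ^ L, par x s = 0 := by
  constructor
  · intro h s _
    unfold par
    rw [CharP.cast_eq_zero_iff (ZMod 2) 2]
    exact even_iff_two_dvd.mp (h _)
  · intro h u
    have h1 := h (Nat.ofBits u) (Nat.ofBits_lt_two_pow u)
    unfold par at h1
    rw [CharP.cast_eq_zero_iff (ZMod 2) 2] at h1
    have e : (fun o : Fin L => Nat.testBit (Nat.ofBits u) o) = u := by
      funext o
      rw [Nat.testBit_ofBits_lt u o o.2]
    rw [e] at h1
    exact even_iff_two_dvd.mpr h1

theorem det_out (N L : ℕ) (hn : 0 < N * L) (hL : 0 < L) (x : Fin (N * L) → Bool) (τ : ℕ)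
    (hτ : τ < 2 ^ L * (2 * (N * L))) :
    (detEv N L hn).out (((detEv N L hn).step x)^[τ] (detEv N L hn).start).1
      (((detEv N L hn).step x)^[τ] (detEv N L hn).start).2
      = if τ % (2 * (N * L)) = N * L then
        (if par x (τ / (2 * (N * L))) = 0 then
          (if τ / (2 * (N * L)) + 1 = 2 ^ L then some true else none) else some false)
        else none := by
  obtain ⟨h1, h2, -⟩ := detRun N L hn hL x τ hτ
  set c := ((detEv N L hn).step x)^[τ] (detEv N L hn).start with hc
  change (if (c.1.1 : ℕ) % (2 * (N * L)) = N * L then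
      (if c.1.2.1 = 0 then (if (c.1.1 : ℕ) / (2 * (N * L)) + 1 = 2 ^ L then some true else none)
        else some false)
    else none) = _
  rw [h1, h2]
  by_cases hr : τ % (2 * (N * L)) = N * L
  · rw [if_pos hr, if_pos hr]
    have h3 : (bits2 L x τ).1 = par x (τ / (2 * (N * L))) := by
      unfold bits2
      rw [hr, if_pos le_rfl, sum_at_n hL]
      rfl
    rw [h3]
  · rw [if_neg hr, if_neg hr]

theorem even_det (N L : ℕ) (hN : 1 ≤ N) (hL : 1 ≤ L) :
    ∃ P : DetProg Bool (N * L) 1, Fintype.card P.Q ≤ 8 * 2 ^ L * (N * L) ∧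
      ∀ x, (AllEven x → P.Answers (2 * 2 ^ L * (N * L)) x true) ∧
        (¬ AllEven x → P.Answers (2 * 2 ^ L * (N * L)) x false) := by
  have hn : 0 < N * L := Nat.mul_pos hN hL
  refine ⟨detEv N L hn, ?_, ?_⟩
  · change Fintype.card (Fin (2 ^ L * (2 * (N * L))) × (ZMod 2 × ZMod 2)) ≤ _
    rw [Fintype.card_prod, Fintype.card_prod, Fintype.card_fin, ZMod.card]
    apply le_of_eq
    ring
  · intro x
    obtain ⟨n, hnn⟩ : ∃ n, n = N * L := ⟨_, rfl⟩
    have hpow : 0 < 2 ^ L := by positivity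
    have hkey : ∀ s < 2 ^ L, (∀ s' < s, par x s' = 0) →
        (2 * (N * L) * s + N * L < 2 ^ L * (2 * (N * L))) ∧
        (2 * (N * L) * s + N * L) % (2 * (N * L)) = N * L ∧
        (2 * (N * L) * s + N * L) / (2 * (N * L)) = s ∧
        ∀ τ < 2 * (N * L) * s + N * L,
          (detEv N L hn).out (((detEv N L hn).step x)^[τ] (detEv N L hn).start).1
            (((detEv N L hn).step x)^[τ] (detEv N L hn).start).2 = none := by
      intro s hs hs'
      have hb : 2 * (N * L) * s + N * L < 2 ^ L * (2 * (N * L)) := by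
        calc 2 * (N * L) * s + N * L < 2 * (N * L) * s + 2 * (N * L) := by omega
          _ = (s + 1) * (2 * (N * L)) := by ring
          _ ≤ 2 ^ L * (2 * (N * L)) := Nat.mul_le_mul_right _ hs
      refine ⟨hb, ?_, ?_, ?_⟩
      · rw [Nat.mul_add_mod]; exact Nat.mod_eq_of_lt (by omega)
      · have e3 : (N * L) / (2 * (N * L)) = 0 := Nat.div_eq_of_lt (by omega)
        rw [Nat.mul_add_div (by omega), e3, add_zero]
      · intro τ hτ
        rw [det_out N L hn hL x τ (hτ.trans hb)]
        by_cases hr : τ % (2 * (N * L)) = N * L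
        · have hdm := Nat.div_add_mod τ (2 * (N * L))
          rw [hr] at hdm
          have hlt : τ / (2 * (N * L)) < s := by
            have h1 : 2 * (N * L) * (τ / (2 * (N * L))) < 2 * (N * L) * s := by omega
            exact Nat.lt_of_mul_lt_mul_left h1
          rw [if_pos hr, if_pos (hs' _ hlt), if_neg (by omega)]
        · rw [if_neg hr]
    constructor
    · intro hx
      rw [allEven_par] at hx
      obtain ⟨h1, h2, h3, h4⟩ := hkey (2 ^ L - 1) (by omega) (fun s' hs' => hx s' (by omega))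
      refine ⟨_, ?_, ?_, h4⟩
      · have e : 2 * 2 ^ L * (N * L) = 2 ^ L * (2 * (N * L)) := by ring
        omega
      · rw [det_out N L hn hL x _ h1, h2, h3, if_pos rfl, if_pos (hx _ (by omega)),
          if_pos (by omega)]
    · intro hx
      rw [allEven_par] at hx
      push Not at hx
      classical
      have hex : ∃ s, s < 2 ^ L ∧ par x s ≠ 0 := hx
      obtain ⟨hs1, hs2⟩ := Nat.find_spec hex
      obtain ⟨h1, h2, h3, h4⟩ := hkey (Nat.find hex) hs1 (by
        intro s' hs'
        by_contra hne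
        exact Nat.find_min hex hs' ⟨by omega, hne⟩)
      refine ⟨_, ?_, ?_, h4⟩
      · have e : 2 * 2 ^ L * (N * L) = 2 ^ L * (2 * (N * L)) := by ring
        omega
      · rw [det_out N L hn hL x _ h1, h2, h3, if_pos rfl, if_neg hs2]

end Pool.Agent.TH457.HT
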