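import Pool.Agent.TH457.HT.DetDefs
import Pool.Agent.TH457.HT.EvenDefs

/-!
# Even multiplicities: one pass with a random point of a field of characteristic two
-/

set_option autoImplicit false

open Finset

namespace Pool.Agent.TH457.HT

/-- the factor of a letter -/
def fac {F : Type} [Field F] (α : F) (L p : ℕ) (b : Bool) : F := if b then α ^ (2 ^ (p % L)) else 1

/-- The program for `α`. -/
def evProg {F : Type} [Field F] [Fintype F] [DecidableEq F] (N L : ℕ) (hn : 0 < N * L) (α : F) :
    DetProg Bool (N * L) 1 where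
  Q := F × F × Bool
  start := ((0, 1, false), fun _ => ⟨0, hn⟩)
  move q p l :=
    ((if ((p 0 : ℕ) + 1) % L = 0 then q.1 + q.2.1 * fac α L (p 0) (l 0) else q.1,
      if ((p 0 : ℕ) + 1) % L = 0 then 1 else q.2.1 * fac α L (p 0) (l 0),
      decide ((p 0 : ℕ) + 1 = N * L)),
     fun i => if h : (p i : ℕ) + 1 < N * L then ⟨p i + 1, h⟩ else p i)
  out q _ := if q.2.2 then some (decide (q.1 = 0)) else none
  slow := by
    intro q p l i
    by_cases h : (p i : ℕ) + 1 < N * L
    · simp only [dif_pos h]; omega
    · simp only [dif_neg h]; omega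

/-- the word as a function on numbers -/
def xx {n : ℕ} (x : Fin n → Bool) (p : ℕ) : Bool := if h : p < n then x ⟨p, h⟩ else false

/-- the factors along the word -/
def gg {F : Type} [Field F] {n : ℕ} (α : F) (L : ℕ) (x : Fin n → Bool) (p : ℕ) : F :=
  fac α L p (xx x p)

/-- the state after `t` steps -/
def evSt {F : Type} [Field F] {n : ℕ} (α : F) (L : ℕ) (x : Fin n → Bool) (t : ℕ) :
    F × F × Bool :=
  (∑ c ∈ range (t / L), ∏ i ∈ range L, gg α L x (L * c + i),
    ∏ i ∈ range (t % L), gg α L x (L * (t / L) + i), decide (t = n))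

theorem evRun {F : Type} [Field F] [Fintype F] [DecidableEq F] (N L : ℕ) (hn : 0 < N * L)
    (hL : 0 < L) (α : F) (x : Fin (N * L) → Bool) (t : ℕ) (ht : t ≤ N * L) :
    (((evProg N L hn α).step x)^[t] (evProg N L hn α).start).1 = evSt α L x t ∧
    ∀ i, (((((evProg N L hn α).step x)^[t] (evProg N L hn α).start).2 i : Fin (N * L)) : ℕ)
      = min t (N * L - 1) := by
  induction t with
  | zero =>
    constructor
    · unfold evSt
      simp only [Function.iterate_zero, id_eq, Nat.zero_div, range_zero, sum_empty, Nat.zero_mod,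
        prod_empty]
      have : decide (0 = N * L) = false := decide_eq_false (by omega)
      rw [this]
      rfl
    · intro i
      simp only [Function.iterate_zero, id_eq]
      change (0 : ℕ) = _
      omega
  | succ t ih =>
    obtain ⟨h1, h2⟩ := ih (by omega)
    rw [Function.iterate_succ_apply']
    have h20 := h2 0
    have htn : min t (N * L - 1) = t := by omega
    rw [htn] at h20
    set c := ((evProg N L hn α).step x)^[t] (evProg N L hn α).start with hc
    have hstep : (evProg N L hn α).step x c =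
        ((if ((c.2 0 : ℕ) + 1) % L = 0 then c.1.1 + c.1.2.1 * fac α L (c.2 0) (x (c.2 0)) else c.1.1,
          if ((c.2 0 : ℕ) + 1) % L = 0 then 1 else c.1.2.1 * fac α L (c.2 0) (x (c.2 0)),
          decide ((c.2 0 : ℕ) + 1 = N * L)),
         fun i => if h : (c.2 i : ℕ) + 1 < N * L then ⟨c.2 i + 1, h⟩ else c.2 i) := rfl
    have hx : fac α L (c.2 0 : Fin (N * L)) (x (c.2 0)) = gg α L x t := by
      unfold gg xx
      rw [dif_pos (by omega : t < N * L)]
      have : (⟨t, by omega⟩ : Fin (N * L)) = c.2 0 := Fin.ext h20.symm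
      rw [this, h20]
    have hdm := Nat.div_add_mod t L
    have hlt := Nat.mod_lt t hL
    have hcur : c.1.2.1 * gg α L x t
        = ∏ i ∈ range (t % L + 1), gg α L x (L * (t / L) + i) := by
      rw [Finset.prod_range_succ, h1, hdm]
      rfl
    constructor
    · rw [hstep, hx, h20, hcur, h1]
      by_cases hr : t % L + 1 = L
      · have e0 : t + 1 = L * (t / L + 1) := by rw [mul_add, mul_one]; omega
        have e1 : (t + 1) % L = 0 := by rw [e0]; exact Nat.mul_mod_right _ _
        have e2 : (t + 1) / L = t / L + 1 := by rw [e0]; exact Nat.mul_div_cancel_left _ hL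
        rw [if_pos e1, if_pos e1, hr]
        unfold evSt
        rw [e1, e2, Finset.sum_range_succ, range_zero, prod_empty]
      · have e0 : t + 1 = L * (t / L) + (t % L + 1) := by omega
        have e1 : (t + 1) % L = t % L + 1 := by
          rw [e0, Nat.mul_add_mod]; exact Nat.mod_eq_of_lt (by omega)
        have e2 : (t + 1) / L = t / L := by
          have e3 : (t % L + 1) / L = 0 := Nat.div_eq_of_lt (by omega)
          rw [e0, Nat.mul_add_div hL, e3, add_zero]
        rw [if_neg (by omega), if_neg (by omega)]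
        unfold evSt
        rw [e1, e2]
    · intro i
      rw [hstep]
      have h2i := h2 i
      rw [htn] at h2i
      by_cases h : (c.2 i : ℕ) + 1 < N * L
      · simp only [dif_pos h]; omega
      · simp only [dif_neg h]; omega

/-- the value of a block -/
def bval {L : ℕ} (u : Fin L → Bool) : ℕ := ∑ i : Fin L, if u i then 2 ^ (i : ℕ) else 0

theorem bval_eq {L : ℕ} (u : Fin L → Bool) :
    bval u = (finFunctionFinEquiv (fun i : Fin L => if u i then (1 : Fin 2) else 0) : ℕ) := by
  rw [finFunctionFinEquiv_apply]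
  unfold bval
  apply Finset.sum_congr rfl
  intro i _
  by_cases h : u i = true
  · rw [if_pos h, if_pos h]; simp
  · rw [if_neg h, if_neg h]; simp

theorem bval_lt {L : ℕ} (u : Fin L → Bool) : bval u < 2 ^ L := by
  rw [bval_eq]; exact Fin.is_lt _

theorem bval_inj {L : ℕ} : Function.Injective (bval : (Fin L → Bool) → ℕ) := by
  intro u u' h
  rw [bval_eq, bval_eq] at h
  have h1 := finFunctionFinEquiv.injective (Fin.ext h)
  funext i
  have h2 := congrFun h1 i
  by_cases hu : u i = true <;> by_cases hu' : u' i = true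
  · rw [hu, hu']
  · rw [if_pos hu, if_neg hu'] at h2; exact absurd h2 (by decide)
  · rw [if_neg hu, if_pos hu'] at h2; exact absurd h2 (by decide)
  · rw [Bool.not_eq_true] at hu hu'; rw [hu, hu']

/-- the sum at the end -/
theorem ev_final {F : Type} [Field F] (N L : ℕ) (hL : 0 < L) (α : F) (x : Fin (N * L) → Bool) :
    (evSt α L x (N * L)).1 = ∑ c : Fin N, α ^ bval (blk x c) := by
  unfold evSt
  simp only
  rw [Nat.mul_div_cancel _ hL, ← Fin.sum_univ_eq_sum_range (fun c => ∏ i ∈ range L,
    gg α L x (L * c + i))]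
  apply Finset.sum_congr rfl
  intro c _
  rw [← Fin.prod_univ_eq_prod_range (fun i => gg α L x (L * c + i))]
  unfold bval
  rw [← Finset.prod_pow_eq_pow_sum]
  apply Finset.prod_congr rfl
  intro i _
  have hlt : L * (c : ℕ) + i < N * L := by
    calc L * (c : ℕ) + i < L * (c : ℕ) + L := by have := i.2; omega
      _ = ((c : ℕ) + 1) * L := by ring
      _ ≤ N * L := Nat.mul_le_mul_right _ c.2
  have hx : xx x (L * (c : ℕ) + i) = blk x c i := by
    unfold xx blk
    rw [dif_pos hlt]
    congr 1
    apply Fin.ext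
    change L * (c : ℕ) + i = (i : ℕ) + L * c
    omega
  unfold gg fac
  rw [hx, Nat.mul_add_mod, Nat.mod_eq_of_lt i.2]
  by_cases h : blk x c i = true
  · rw [if_pos h, if_pos h]
  · rw [if_neg h, if_neg h, pow_zero]

theorem ev_answers {F : Type} [Field F] [Fintype F] [DecidableEq F] (N L : ℕ) (hn : 0 < N * L)
    (hL : 0 < L) (α : F) (x : Fin (N * L) → Bool) :
    (evProg N L hn α).Answers (N * L) x (decide (∑ c : Fin N, α ^ bval (blk x c) = 0)) := by
  refine ⟨N * L, le_rfl, ?_, ?_⟩
  · have h := (evRun N L hn hL α x (N * L) le_rfl).1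
    rw [h]
    change (if (evSt α L x (N * L)).2.2 then some (decide ((evSt α L x (N * L)).1 = 0)) else none)
      = _
    have h2 : (evSt α L x (N * L)).2.2 = true := by
      unfold evSt
      simp
    rw [h2, if_pos rfl, ev_final N L hL]
  · intro s hs
    have h := (evRun N L hn hL α x s hs.le).1
    rw [h]
    change (if (evSt α L x s).2.2 then some (decide ((evSt α L x s).1 = 0)) else none) = _
    have h2 : (evSt α L x s).2.2 = false := by
      unfold evSt
      exact decide_eq_false (by omega)
    rw [h2]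
    rfl

theorem Answers_unique {Λ : Type} {n k : ℕ} (P : DetProg Λ n k) (T T' : ℕ) (x : Fin n → Λ)
    (b b' : Bool) (h : P.Answers T x b) (h' : P.Answers T' x b') : b = b' := by
  obtain ⟨t, -, h1, h2⟩ := h
  obtain ⟨t', -, h1', h2'⟩ := h'
  rcases Nat.lt_trichotomy t t' with hlt | heq | hlt
  · rw [h2' t hlt] at h1; cases h1
  · subst heq; rw [h1'] at h1; exact (Option.some.inj h1).symm
  · rw [h2 t' hlt] at h1'; cases h1'

theorem even_sum_zero {F : Type} [Field F] [CharP F 2] {N L : ℕ} (α : F)
    (x : Fin (N * L) → Bool) (hx : AllEven x) : ∑ c : Fin N, α ^ bval (blk x c) = 0 := by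
  classical
  rw [Finset.sum_comp (fun u => α ^ bval u) (fun c => blk x c)]
  apply Finset.sum_eq_zero
  intro u _
  have h := hx u
  have h1 : ((((univ : Finset (Fin N)).filter (fun c => blk x c = u)).card : ℕ) : F) = 0 := by
    rw [CharP.cast_eq_zero_iff F 2]
    exact even_iff_two_dvd.mp h
  rw [nsmul_eq_mul]
  have h2 : (((univ : Finset (Fin N)).filter (fun a => blk x a = u)).card : F) * α ^ bval u = 0 := by
    rw [h1, zero_mul]
  convert h2 using 2

open Polynomial in
theorem few_roots {F : Type} [Field F] [Fintype F] [DecidableEq F] [CharP F 2] {N L : ℕ}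
    (x : Fin (N * L) → Bool) (hx : ¬ AllEven x) :
    ((univ : Finset F).filter (fun α => ∑ c : Fin N, α ^ bval (blk x c) = 0)).card < 2 ^ L := by
  classical
  unfold AllEven at hx
  push Not at hx
  obtain ⟨u, hu⟩ := hx
  obtain ⟨p, hp⟩ : ∃ p : F[X], p = ∑ c : Fin N, (X : F[X]) ^ bval (blk x c) := ⟨_, rfl⟩
  have hcoef : p.coeff (bval u) = ((((univ : Finset (Fin N)).filter
      (fun c => blk x c = u)).card : ℕ) : F) := by
    rw [hp, Polynomial.finsetSum_coeff, Finset.card_filter]
    push_cast
    apply Finset.sum_congr rfl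
    intro c _
    rw [Polynomial.coeff_X_pow]
    by_cases h : blk x c = u
    · rw [if_pos (by rw [h]), if_pos h]
    · rw [if_neg (fun h' => h (bval_inj h'.symm)), if_neg h]
  have hp0 : p ≠ 0 := by
    intro h0
    rw [h0, Polynomial.coeff_zero] at hcoef
    have h1 := (CharP.cast_eq_zero_iff F 2 _).mp hcoef.symm
    exact hu (even_iff_two_dvd.mpr h1)
  have hdeg : p.natDegree < 2 ^ L := by
    have h1 : p.natDegree ≤ 2 ^ L - 1 := by
      rw [hp]
      apply Polynomial.natDegree_sum_le_of_forall_le
      intro c _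
      rw [Polynomial.natDegree_X_pow]
      have := bval_lt (blk x c)
      omega
    have : 0 < 2 ^ L := by positivity
    omega
  refine lt_of_le_of_lt ?_ hdeg
  refine le_trans ?_ (Polynomial.card_roots' p)
  refine le_trans ?_ (Multiset.toFinset_card_le p.roots)
  apply card_le_card
  intro α hα
  have h1 := (mem_filter.mp hα).2
  rw [Multiset.mem_toFinset, Polynomial.mem_roots hp0, Polynomial.IsRoot.def, hp,
    Polynomial.eval_finsetSum]
  simpa using h1

/-- **The upper bound.** -/
theorem even_ub (N L t : ℕ) (hN : 1 ≤ N) (hL : 1 ≤ L) (ht : 1 ≤ t) :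
    ∃ P : Fin (2 ^ t) → DetProg Bool (N * L) 1,
      (∀ ω, Fintype.card (P ω).Q ≤ 2 * 4 ^ t) ∧
      (∀ ω x, (P ω).Answers (N * L) x true ∨ (P ω).Answers (N * L) x false) ∧
      (∀ ω x, AllEven x → (P ω).Answers (N * L) x true) ∧
      ∀ x, ¬ AllEven x → Nat.card {ω // ¬ (P ω).Answers (N * L) x false} < 2 ^ L := by
  classical
  have hn : 0 < N * L := Nat.mul_pos hN hL
  have : Fact (Nat.Prime 2) := ⟨Nat.prime_two⟩
  obtain ⟨F, hF⟩ : ∃ F, F = GaloisField 2 t := ⟨_, rfl⟩
  have : Finite (GaloisField 2 t) := by
    apply Nat.finite_of_card_ne_zero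
    rw [GaloisField.card 2 t (by omega)]
    positivity
  have : Fintype (GaloisField 2 t) := Fintype.ofFinite _
  have hcard : Fintype.card (GaloisField 2 t) = 2 ^ t := by
    rw [← Nat.card_eq_fintype_card, GaloisField.card 2 t (by omega)]
  have e : Fin (2 ^ t) ≃ GaloisField 2 t := (Fintype.equivFinOfCardEq hcard).symm
  refine ⟨fun ω => evProg N L hn (e ω), ?_, ?_, ?_, ?_⟩
  · intro ω
    change Fintype.card (GaloisField 2 t × GaloisField 2 t × Bool) ≤ _
    rw [Fintype.card_prod, Fintype.card_prod, hcard, Fintype.card_bool]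
    have : (4 : ℕ) ^ t = 2 ^ t * 2 ^ t := by rw [← mul_pow]; norm_num
    rw [this]
    apply le_of_eq
    ring
  · intro ω x
    have h := ev_answers N L hn hL (e ω) x
    cases hd : decide (∑ c : Fin N, (e ω) ^ bval (blk x c) = 0)
    · right; rw [hd] at h; exact h
    · left; rw [hd] at h; exact h
  · intro ω x hx
    have h := ev_answers N L hn hL (e ω) x
    rw [decide_eq_true (even_sum_zero (e ω) x hx)] at h
    exact h
  · intro x hx
    have h := few_roots (F := GaloisField 2 t) x hx
    refine lt_of_le_of_lt ?_ h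
    rw [Nat.card_eq_fintype_card, Fintype.card_subtype]
    apply card_le_card_of_injOn e
    · intro ω hω
      have hω := (mem_filter.mp (mem_coe.mp hω)).2
      apply mem_coe.mpr
      refine mem_filter.mpr ⟨mem_univ _, ?_⟩
      by_contra hne
      have h1 := ev_answers N L hn hL (e ω) x
      rw [decide_eq_false hne] at h1
      exact hω h1
    · exact e.injective.injOn

end Pool.Agent.TH457.HT
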