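import Mathlib

/-!
# Programs with several two-way heads
-/

set_option autoImplicit false

open Finset

namespace Pool.Agent.TH457.HT

/-- A nonuniform nondeterministic program with `k` two-way heads for words of length `n` over the
alphabet `Λ`: a finite set `Q` of states (a state contains everything which the program remembers,
for example the contents of work tapes or stacks), arbitrary sets of initial and of accepting
configurations, and an arbitrary set of moves, which depend on the state, on the positions of
the heads and on the letters under the heads.  In one step each head moves by at most one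
position. -/
structure HeadProg (Λ : Type) (n k : ℕ) where
  /-- the states -/
  Q : Type
  [fin : Fintype Q]
  /-- the initial configurations -/
  init : Q → (Fin k → Fin n) → Prop
  /-- the accepting configurations -/
  acc : Q → (Fin k → Fin n) → Prop
  /-- the moves: old state, old positions, letters under the heads, new state, new positions -/
  next : Q → (Fin k → Fin n) → (Fin k → Λ) → Q → (Fin k → Fin n) → Prop
  /-- the heads are slow -/
  slow : ∀ q p l q' p', next q p l q' p' →
    ∀ i, (p' i : ℕ) ≤ (p i : ℕ) + 1 ∧ (p i : ℕ) ≤ (p' i : ℕ) + 1

attribute [instance] HeadProg.fin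

variable {Λ : Type} {n k : ℕ}

/-- The configurations: a state and the positions of the heads. -/
abbrev HeadProg.Cfg (P : HeadProg Λ n k) : Type := P.Q × (Fin k → Fin n)

/-- One step on the word `x`. -/
def HeadProg.Step (P : HeadProg Λ n k) (x : Fin n → Λ) (c c' : P.Cfg) : Prop :=
  P.next c.1 c.2 (fun i => x (c.2 i)) c'.1 c'.2

/-- Some computation of at most `T` steps on `x` goes from an initial to an accepting
configuration. -/
def HeadProg.AcceptsIn (P : HeadProg Λ n k) (T : ℕ) (x : Fin n → Λ) : Prop :=
  ∃ t ≤ T, ∃ c : ℕ → P.Cfg, P.init (c 0).1 (c 0).2 ∧ P.acc (c t).1 (c t).2 ∧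
    ∀ i < t, P.Step x (c i) (c (i + 1))

/-- Some computation on `x`, of any length, goes from an initial to an accepting configuration. -/
def HeadProg.Accepts (P : HeadProg Λ n k) (x : Fin n → Λ) : Prop := ∃ T, P.AcceptsIn T x

end Pool.Agent.TH457.HT
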