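import Mathlib

/-!
# Deterministic and randomized programs with several two-way heads
-/

set_option autoImplicit false

open Finset

namespace Pool.Agent.TH457.HT

/-- A nonuniform deterministic program with `k` two-way heads for words of length `n` over the
alphabet `Λ`: a finite set `Q` of states (a state contains everything which the program remembers,
for example the contents of work tapes), a first configuration, a move which depends on the state,
on the positions of the heads and on the letters under the heads, and the answers in the final
configurations.  In one step each head moves by at most one position. -/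
structure DetProg (Λ : Type) (n k : ℕ) where
  /-- the states -/
  Q : Type
  [fin : Fintype Q]
  /-- the first state and the first positions of the heads -/
  start : Q × (Fin k → Fin n)
  /-- the move: from the state, the positions and the letters under the heads to the new state
  and the new positions -/
  move : Q → (Fin k → Fin n) → (Fin k → Λ) → Q × (Fin k → Fin n)
  /-- the answer, if the configuration is final -/
  out : Q → (Fin k → Fin n) → Option Bool
  /-- the heads are slow -/
  slow : ∀ q p l i, ((move q p l).2 i : ℕ) ≤ (p i : ℕ) + 1 ∧ (p i : ℕ) ≤ ((move q p l).2 i : ℕ) + 1

attribute [instance] DetProg.fin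

variable {Λ : Type} {n k : ℕ}

/-- The configurations: a state and the positions of the heads. -/
abbrev DetProg.Cfg (P : DetProg Λ n k) : Type := P.Q × (Fin k → Fin n)

/-- One step on the word `x`. -/
def DetProg.step (P : DetProg Λ n k) (x : Fin n → Λ) (c : P.Cfg) : P.Cfg :=
  P.move c.1 c.2 (fun i => x (c.2 i))

/-- On the word `x` the first final configuration is reached after at most `T` steps, and the
answer there is `b`. -/
def DetProg.Answers (P : DetProg Λ n k) (T : ℕ) (x : Fin n → Λ) (b : Bool) : Prop :=
  ∃ t ≤ T, P.out ((P.step x)^[t] P.start).1 ((P.step x)^[t] P.start).2 = some b ∧
    ∀ s < t, P.out ((P.step x)^[s] P.start).1 ((P.step x)^[s] P.start).2 = none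

open Classical in
/-- The probability of the answer `b` within `T` steps, if the program `P ω` is chosen with
probability `p ω`. -/
noncomputable def prob {Ω : Type} [Fintype Ω] (p : Ω → ℝ) (P : Ω → DetProg Λ n k) (T : ℕ)
    (x : Fin n → Λ) (b : Bool) : ℝ :=
  ∑ ω, if (P ω).Answers T x b then p ω else 0

end Pool.Agent.TH457.HT
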