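import Pool.Agent.TH457.HT.DetDefs

/-!
# Canonical transcripts of deterministic computations with slow heads
-/

set_option autoImplicit false

open Finset

namespace Pool.Agent.TH457.HT

variable {Λ : Type} {n k : ℕ}

/-- not final and no head in the zone `z` -/
def Free (P : DetProg Λ n k) (lam z : ℕ) (c : P.Cfg) : Prop :=
  P.out c.1 c.2 = none ∧ ∀ h, (c.2 h : ℕ) / lam ≠ z

/-- the forbidden zone -/
def zn (a b : ℕ) (m : Bool) : ℕ := if m then a else b

/-- Canonical transcripts: the configurations at the changes of the mode. -/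
def Can (P : DetProg Λ n k) (lam a b : ℕ) (x : Fin n → Λ) : Bool → P.Cfg → List P.Cfg → Prop
  | m, c, [] => ∃ t, (∀ s < t, Free P lam (zn a b m) ((P.step x)^[s] c)) ∧
      P.out ((P.step x)^[t] c).1 ((P.step x)^[t] c).2 = some true
  | m, c, c' :: τ => (∃ t, (∀ s < t, Free P lam (zn a b m) ((P.step x)^[s] c)) ∧
      (P.step x)^[t] c = c') ∧ P.out c'.1 c'.2 = none ∧ (∃ h, (c'.2 h : ℕ) / lam = zn a b m) ∧
      Can P lam a b x (!m) c' τ

theorem iter_agree (P : DetProg Λ n k) (lam z : ℕ) (x x' : Fin n → Λ)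
    (hx : ∀ p : Fin n, (p : ℕ) / lam ≠ z → x' p = x p) (c : P.Cfg) :
    ∀ t, (∀ s < t, Free P lam z ((P.step x)^[s] c)) → (P.step x')^[t] c = (P.step x)^[t] c := by
  intro t
  induction t with
  | zero => intro _; rfl
  | succ t ih =>
    intro h
    rw [Function.iterate_succ_apply', Function.iterate_succ_apply',
      ih (fun s hs => h s (by omega))]
    have h1 := (h t (by omega)).2
    unfold DetProg.step
    congr 1
    funext i
    exact hx _ (h1 i)

theorem free_agree (P : DetProg Λ n k) (lam z : ℕ) (x x' : Fin n → Λ)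
    (hx : ∀ p : Fin n, (p : ℕ) / lam ≠ z → x' p = x p) (c : P.Cfg) (t : ℕ)
    (h : ∀ s < t, Free P lam z ((P.step x)^[s] c)) :
    (∀ s < t, Free P lam z ((P.step x')^[s] c)) ∧ (P.step x')^[t] c = (P.step x)^[t] c := by
  refine ⟨fun s hs => ?_, iter_agree P lam z x x' hx c t h⟩
  rw [iter_agree P lam z x x' hx c s (fun s' hs' => h s' (by omega))]
  exact h s hs

theorem Can_mix (P : DetProg Λ n k) (lam a b : ℕ) (x y z : Fin n → Λ)
    (hx : ∀ p : Fin n, (p : ℕ) / lam ≠ b → z p = x p)
    (hy : ∀ p : Fin n, (p : ℕ) / lam ≠ a → z p = y p) :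
    ∀ (τ : List P.Cfg) (m : Bool) (c : P.Cfg), Can P lam a b x m c τ → Can P lam a b y m c τ →
      Can P lam a b z m c τ := by
  intro τ
  induction τ with
  | nil =>
    intro m c h1 h2
    cases m with
    | false =>
      obtain ⟨t, h3, h4⟩ := h1
      obtain ⟨h5, h6⟩ := free_agree P lam (zn a b false) x z hx c t h3
      exact ⟨t, h5, by rw [h6]; exact h4⟩
    | true =>
      obtain ⟨t, h3, h4⟩ := h2
      obtain ⟨h5, h6⟩ := free_agree P lam (zn a b true) y z hy c t h3
      exact ⟨t, h5, by rw [h6]; exact h4⟩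
  | cons c' τ ih =>
    intro m c h1 h2
    refine ⟨?_, h1.2.1, h1.2.2.1, ih _ _ h1.2.2.2 h2.2.2.2⟩
    cases m with
    | false =>
      obtain ⟨t, h3, h4⟩ := h1.1
      obtain ⟨h5, h6⟩ := free_agree P lam (zn a b false) x z hx c t h3
      exact ⟨t, h5, by rw [h6]; exact h4⟩
    | true =>
      obtain ⟨t, h3, h4⟩ := h2.1
      obtain ⟨h5, h6⟩ := free_agree P lam (zn a b true) y z hy c t h3
      exact ⟨t, h5, by rw [h6]; exact h4⟩

theorem Can_unique (P : DetProg Λ n k) (lam a b : ℕ) (x : Fin n → Λ) :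
    ∀ (τ τ' : List P.Cfg) (m : Bool) (c : P.Cfg), Can P lam a b x m c τ →
      Can P lam a b x m c τ' → τ = τ' := by
  intro τ
  induction τ with
  | nil =>
    intro τ' m c h1 h2
    cases τ' with
    | nil => rfl
    | cons c' τ' =>
      exfalso
      obtain ⟨t1, h3, h4⟩ := h1
      obtain ⟨⟨t2, h5, h6⟩, h7, ⟨h, h8⟩, -⟩ := h2
      rcases Nat.lt_trichotomy t1 t2 with hlt | heq | hgt
      · have := (h5 t1 hlt).1
        rw [this] at h4; cases h4
      · rw [heq, h6, h7] at h4; cases h4
      · have := (h3 t2 hgt).2 h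
        rw [h6] at this; exact this h8
  | cons c1 τ ih =>
    intro τ' m c h1 h2
    cases τ' with
    | nil =>
      exfalso
      obtain ⟨t1, h3, h4⟩ := h2
      obtain ⟨⟨t2, h5, h6⟩, h7, ⟨h, h8⟩, -⟩ := h1
      rcases Nat.lt_trichotomy t1 t2 with hlt | heq | hgt
      · have := (h5 t1 hlt).1
        rw [this] at h4; cases h4
      · rw [heq, h6, h7] at h4; cases h4
      · have := (h3 t2 hgt).2 h
        rw [h6] at this; exact this h8
    | cons c2 τ' =>
      obtain ⟨⟨t1, h3, h4⟩, h5, ⟨h, h6⟩, h7⟩ := h1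
      obtain ⟨⟨t2, h8, h9⟩, h10, ⟨h', h11⟩, h12⟩ := h2
      have ht : t1 = t2 := by
        rcases Nat.lt_trichotomy t1 t2 with hlt | heq | hgt
        · have := (h8 t1 hlt).2 h
          rw [h4] at this; exact absurd h6 this
        · exact heq
        · have := (h3 t2 hgt).2 h'
          rw [h9] at this; exact absurd h11 this
      have hc : c1 = c2 := by rw [← h4, ← h9, ht]
      subst hc
      rw [ih τ' (!m) c1 h7 h12]

theorem Can_answers (P : DetProg Λ n k) (lam a b : ℕ) (x : Fin n → Λ) :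
    ∀ (τ : List P.Cfg) (m : Bool) (c : P.Cfg), Can P lam a b x m c τ →
      ∃ t, P.out ((P.step x)^[t] c).1 ((P.step x)^[t] c).2 = some true ∧
        ∀ s < t, P.out ((P.step x)^[s] c).1 ((P.step x)^[s] c).2 = none := by
  intro τ
  induction τ with
  | nil =>
    intro m c h
    obtain ⟨t, h1, h2⟩ := h
    exact ⟨t, h2, fun s hs => (h1 s hs).1⟩
  | cons c' τ ih =>
    intro m c h
    obtain ⟨⟨t, h1, h2⟩, h3, -, h4⟩ := h
    obtain ⟨t', h5, h6⟩ := ih _ _ h4
    refine ⟨t' + t, ?_, fun s hs => ?_⟩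
    · rw [Function.iterate_add_apply, h2]; exact h5
    · rcases Nat.lt_or_ge s t with hst | hst
      · exact (h1 s hst).1
      · obtain ⟨r, rfl⟩ : ∃ r, s = r + t := ⟨s - t, by omega⟩
        rw [Function.iterate_add_apply, h2]
        exact h6 r (by omega)

theorem Can_step (P : DetProg Λ n k) (lam a b : ℕ) (x : Fin n → Λ) (τ : List P.Cfg) (m : Bool)
    (c : P.Cfg) (hfree : Free P lam (zn a b m) c) (h : Can P lam a b x m (P.step x c) τ) :
    Can P lam a b x m c τ := by
  have haux : ∀ t, (∀ s < t, Free P lam (zn a b m) ((P.step x)^[s] (P.step x c))) →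
      ∀ s < t + 1, Free P lam (zn a b m) ((P.step x)^[s] c) := by
    intro t ht s hs
    rcases Nat.eq_zero_or_pos s with h0 | h0
    · subst h0; exact hfree
    · obtain ⟨r, rfl⟩ : ∃ r, s = r + 1 := ⟨s - 1, by omega⟩
      rw [Function.iterate_succ_apply]
      exact ht r (by omega)
  cases τ with
  | nil =>
    obtain ⟨t, h1, h2⟩ := h
    exact ⟨t + 1, haux t h1, by rw [Function.iterate_succ_apply]; exact h2⟩
  | cons c' τ =>
    obtain ⟨⟨t, h1, h2⟩, h3⟩ := h
    exact ⟨⟨t + 1, haux t h1, by rw [Function.iterate_succ_apply]; exact h2⟩, h3⟩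

theorem slow_det (P : DetProg Λ n k) (x : Fin n → Λ) (c : P.Cfg) (h : Fin k) :
    ∀ t, ((((P.step x)^[t] c).2 h : Fin n) : ℕ) ≤ (c.2 h : ℕ) + t ∧
      (c.2 h : ℕ) ≤ ((((P.step x)^[t] c).2 h : Fin n) : ℕ) + t := by
  intro t
  induction t with
  | zero => simp
  | succ t ih =>
    rw [Function.iterate_succ_apply']
    obtain ⟨c', hc'⟩ : ∃ c', c' = (P.step x)^[t] c := ⟨_, rfl⟩
    rw [← hc'] at ih ⊢
    have h2 := P.slow c'.1 c'.2 (fun i => x (c'.2 i)) h
    have e : P.step x c' = P.move c'.1 c'.2 (fun i => x (c'.2 i)) := rfl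
    rw [e]
    omega

/-- The zones touched by the windows of a computation, and the canonical transcripts. -/
theorem exists_can (P : DetProg Λ n k) (lam D T : ℕ) (hlam : 0 < lam) (x : Fin n → Λ)
    (hx : P.Answers T x true) :
    ∃ Tch : ℕ → Finset (Fin D), (∀ i, (Tch i).card ≤ 3 * k) ∧
      ∀ a b : Fin D, (∀ i < T / lam + 1, a ∈ Tch i → b ∉ Tch i) →
        ∃ (τ : List P.Cfg), Can P lam a b x false P.start τ ∧
          τ.length ≤ 2 * ((range (T / lam + 1)).filter (fun i => b ∈ Tch i)).card := by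
  classical
  obtain ⟨te, hte, hout, hnone⟩ := hx
  obtain ⟨c, hc⟩ : ∃ c : ℕ → P.Cfg, c = fun t => (P.step x)^[t] P.start := ⟨_, rfl⟩
  have hc0 : c 0 = P.start := by rw [hc]; rfl
  have hcs : ∀ t, c (t + 1) = P.step x (c t) := by
    intro t; rw [hc]; exact Function.iterate_succ_apply' _ _ _
  have hcadd : ∀ s t, c (s + t) = (P.step x)^[t] (c s) := by
    intro s t; rw [hc]; dsimp only; rw [add_comm, Function.iterate_add_apply]
  have hout' : P.out (c te).1 (c te).2 = some true := by rw [hc]; exact hout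
  have hnone' : ∀ s < te, P.out (c s).1 (c s).2 = none := by
    intro s hs; rw [hc]; exact hnone s hs
  refine ⟨fun i => univ.filter (fun z : Fin D => ∃ t, i * lam ≤ t ∧ t < i * lam + lam ∧ t < te ∧
    ∃ h, ((c t).2 h : ℕ) / lam = z), ?_, ?_⟩
  · intro i
    have hsub : (univ.filter (fun z : Fin D => ∃ t, i * lam ≤ t ∧ t < i * lam + lam ∧ t < te ∧
        ∃ h, ((c t).2 h : ℕ) / lam = z)).image (fun z : Fin D => (z : ℕ)) ⊆
        (univ : Finset (Fin k)).biUnion (fun h =>
          Finset.Icc (((c (i * lam)).2 h : ℕ) / lam - 1) (((c (i * lam)).2 h : ℕ) / lam + 1)) := by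
      intro z hz
      simp only [mem_image, mem_filter, mem_univ, true_and] at hz
      obtain ⟨z', ⟨t, h1, h2, h3, h, h4⟩, rfl⟩ := hz
      simp only [mem_biUnion, mem_univ, true_and, Finset.mem_Icc]
      refine ⟨h, ?_⟩
      obtain ⟨r, rfl⟩ : ∃ r, t = i * lam + r := ⟨t - i * lam, by omega⟩
      have h5 := slow_det P x (c (i * lam)) h r
      rw [← hcadd] at h5
      rw [← h4]
      have hr : r < lam := by omega
      obtain ⟨u, hu⟩ : ∃ u, u = ((c (i * lam + r)).2 h : ℕ) := ⟨_, rfl⟩
      obtain ⟨v, hv⟩ : ∃ v, v = ((c (i * lam)).2 h : ℕ) := ⟨_, rfl⟩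
      rw [← hu, ← hv] at h5 ⊢
      have e1 : u / lam ≤ (v + lam) / lam := Nat.div_le_div_right (by omega)
      have e2 : v / lam ≤ (u + lam) / lam := Nat.div_le_div_right (by omega)
      rw [Nat.add_div_right _ hlam] at e1 e2
      exact ⟨Nat.sub_le_iff_le_add.mpr e2, e1⟩
    have hcard : ((univ : Finset (Fin k)).biUnion (fun h =>
          Finset.Icc (((c (i * lam)).2 h : ℕ) / lam - 1) (((c (i * lam)).2 h : ℕ) / lam + 1))).card
          ≤ 3 * k := by
      refine card_biUnion_le.trans ?_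
      refine (Finset.sum_le_sum (g := fun _ => 3) ?_).trans ?_
      · intro h _
        rw [Nat.card_Icc]; omega
      · simp [mul_comm]
    have := (card_le_card hsub).trans hcard
    rwa [card_image_of_injective _ Fin.val_injective] at this
  · intro a b hab
    obtain ⟨N, hN⟩ : ∃ N, N = T / lam + 1 := ⟨_, rfl⟩
    rw [← hN] at hab ⊢
    set Tch : ℕ → Finset (Fin D) := fun i => univ.filter (fun z : Fin D => ∃ t, i * lam ≤ t ∧
      t < i * lam + lam ∧ t < te ∧ ∃ h, ((c t).2 h : ℕ) / lam = z) with hTch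
    obtain ⟨Nb, hNb⟩ : ∃ Nb : ℕ → ℕ,
      Nb = fun i => ((Finset.Ico i N).filter (fun i => b ∈ Tch i)).card := ⟨_, rfl⟩
    have hNbmono : ∀ i j, i ≤ j → Nb j ≤ Nb i := by
      intro i j hij
      rw [hNb]
      apply card_le_card
      apply filter_subset_filter
      exact Finset.Ico_subset_Ico_left hij
    have hIco : ∀ i < N, Finset.Ico i N = insert i (Finset.Ico (i + 1) N) := by
      intro i hi
      ext u; simp only [Finset.mem_Ico, Finset.mem_insert]; omega
    have hNbin : ∀ i < N, b ∈ Tch i → Nb i = Nb (i + 1) + 1 := by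
      intro i hi hb
      rw [hNb]
      dsimp only
      rw [hIco i hi, filter_insert, if_pos hb, card_insert_of_notMem]
      intro hh
      have := (mem_filter.mp hh).1
      simp at this
    have hNbout : ∀ i < N, b ∉ Tch i → Nb i = Nb (i + 1) := by
      intro i hi hb
      rw [hNb]
      dsimp only
      rw [hIco i hi, filter_insert, if_neg hb]
    have htouch : ∀ s < te, ∀ z : Fin D, (∃ h, ((c s).2 h : ℕ) / lam = z) → z ∈ Tch (s / lam) := by
      intro s hs z hz
      rw [hTch]
      simp only [mem_filter, mem_univ, true_and]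
      have h1 := Nat.div_add_mod s lam
      have h2 := Nat.mod_lt s hlam
      have h3 : s / lam * lam = lam * (s / lam) := mul_comm _ _
      exact ⟨s, by omega, by omega, hs, hz⟩
    have key : ∀ r s, s + r = te →
        (∃ τ, Can P lam a b x false (c s) τ ∧ τ.length ≤ 2 * Nb (s / lam)) ∧
        (∃ τ, Can P lam a b x true (c s) τ ∧ τ.length ≤ 2 * Nb (s / lam + 1) + 1) := by
      intro r
      induction r with
      | zero =>
        intro s hs
        rw [add_zero] at hs
        subst hs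
        exact ⟨⟨[], ⟨0, fun s hs => absurd hs (by omega), hout'⟩, by simp⟩,
          ⟨[], ⟨0, fun s hs => absurd hs (by omega), hout'⟩, by simp⟩⟩
      | succ r ih =>
        intro s hs
        have hste : s < te := by omega
        have hiN : s / lam < N := by
          rw [hN]
          exact Nat.lt_succ_of_le (Nat.div_le_div_right (by omega))
        obtain ⟨⟨τ1, h1, h2⟩, ⟨τ2, h3, h4⟩⟩ := ih (s + 1) (by omega)
        rw [hcs] at h1 h3
        have hdiv : s / lam ≤ (s + 1) / lam := Nat.div_le_div_right (by omega)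
        have hm1 := hNbmono _ _ hdiv
        have hm2 := hNbmono _ _ (Nat.succ_le_succ hdiv)
        have hm2' : Nb ((s + 1) / lam + 1) ≤ Nb (s / lam + 1) := hm2
        have hno := hnone' s hste
        by_cases hta : ∃ h, ((c s).2 h : ℕ) / lam = a
        · have ha := htouch s hste a hta
          have hb : b ∉ Tch (s / lam) := hab _ hiN ha
          have hfb : Free P lam (zn a b false) (c s) := by
            refine ⟨hno, fun h hh => hb (htouch s hste b ⟨h, hh⟩)⟩
          have hF := Can_step P lam a b x τ1 false (c s) hfb h1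
          refine ⟨⟨τ1, hF, by omega⟩, ⟨c s :: τ1, ⟨⟨0, fun s hs => absurd hs (by omega), rfl⟩, hno,
            hta, hF⟩, ?_⟩⟩
          rw [List.length_cons, ← hNbout _ hiN hb]
          omega
        · have hfa : Free P lam (zn a b true) (c s) := by
            refine ⟨hno, fun h hh => hta ⟨h, hh⟩⟩
          have hG := Can_step P lam a b x τ2 true (c s) hfa h3
          refine ⟨?_, ⟨τ2, hG, by omega⟩⟩
          by_cases htb : ∃ h, ((c s).2 h : ℕ) / lam = b
          · have hb := htouch s hste b htb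
            refine ⟨c s :: τ2, ⟨⟨0, fun s hs => absurd hs (by omega), rfl⟩, hno, htb, hG⟩, ?_⟩
            rw [List.length_cons, hNbin _ hiN hb]
            omega
          · have hfb : Free P lam (zn a b false) (c s) := by
              refine ⟨hno, fun h hh => htb ⟨h, hh⟩⟩
            exact ⟨τ1, Can_step P lam a b x τ1 false (c s) hfb h1, by omega⟩
    obtain ⟨⟨τ, h1, h2⟩, -⟩ := key te 0 (by omega)
    rw [hc0] at h1
    rw [Nat.zero_div, hNb] at h2
    exact ⟨τ, h1, by rw [Finset.range_eq_Ico]; exact h2⟩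

end Pool.Agent.TH457.HT
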