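import Mathlib

/-!
# Averaging and disjoint rectangles
-/

set_option autoImplicit false

open Finset

namespace Pool.Agent.TH457.HT

/-- an averaging argument -/
theorem avg4 {α β : Type*} (G : Finset α) (Z : Finset β) (R : α → β → Prop)
    [∀ x z, Decidable (R x z)] (hZ : Z.Nonempty)
    (h : ∀ x ∈ G, 4 * (Z.filter (fun z => R x z)).card ≤ Z.card) :
    ∃ z ∈ Z, 4 * (G.filter (fun x => R x z)).card ≤ G.card := by
  by_contra hcon
  push Not at hcon
  have h1 : ∑ z ∈ Z, G.card < ∑ z ∈ Z, 4 * (G.filter (fun x => R x z)).card :=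
    Finset.sum_lt_sum_of_nonempty hZ hcon
  have h2 : ∑ x ∈ G, 4 * (Z.filter (fun z => R x z)).card ≤ ∑ x ∈ G, Z.card :=
    Finset.sum_le_sum h
  have h3 : ∑ x ∈ G, (Z.filter (fun z => R x z)).card
      = ∑ z ∈ Z, (G.filter (fun x => R x z)).card :=
    Finset.sum_card_bipartiteAbove_eq_sum_card_bipartiteBelow (r := R)
  rw [← Finset.mul_sum, ← h3, sum_const, smul_eq_mul] at h1
  rw [← Finset.mul_sum, sum_const, smul_eq_mul, mul_comm G.card] at h2
  omega

/-- the number of the injective families of blocks -/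
theorem card_inj (D d U : ℕ) (hU : 2 * (D * d) ^ 2 ≤ U) :
    U ^ (d * D) ≤ 2 * ((univ : Finset (Fin D → Fin d → Fin U)).filter
      (fun v => Function.Injective (fun p : Fin D × Fin d => v p.1 p.2))).card := by
  classical
  have e : ((univ : Finset (Fin D → Fin d → Fin U)).filter
      (fun v => Function.Injective (fun p : Fin D × Fin d => v p.1 p.2))).card
      = U.descFactorial (D * d) := by
    rw [← Fintype.card_subtype]
    have e1 : Fintype.card {v : Fin D → Fin d → Fin U //
        Function.Injective (fun p : Fin D × Fin d => v p.1 p.2)}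
        = Fintype.card (Fin D × Fin d ↪ Fin U) := by
      refine Fintype.card_congr ⟨fun v => ⟨fun p => v.1 p.1 p.2, v.2⟩,
        fun f => ⟨fun z i => f (z, i), f.injective⟩, fun v => rfl, fun f => rfl⟩
    rw [e1, Fintype.card_embedding_eq, Fintype.card_fin, Fintype.card_prod, Fintype.card_fin,
      Fintype.card_fin]
  rw [e]
  obtain ⟨m, hm⟩ : ∃ m, m = D * d := ⟨_, rfl⟩
  rw [mul_comm d D, ← hm]
  rw [← hm] at hU
  rcases Nat.eq_zero_or_pos m with h0 | h0
  · subst h0; simp
  have hmU : m ≤ U := by nlinarith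
  have h1 : (U + 1 - m) ^ m ≤ U.descFactorial m := Nat.pow_sub_le_descFactorial U m
  refine le_trans ?_ (Nat.mul_le_mul_left 2 h1)
  have hU0 : 0 < U := by omega
  have key : (1 + (-((m : ℝ) / U))) ^ m ≥ 1 + (m : ℝ) * (-((m : ℝ) / U)) := by
    apply one_add_mul_le_pow
    have : (m : ℝ) / U ≤ 1 := by
      rw [div_le_one (by exact_mod_cast hU0)]; exact_mod_cast hmU
    linarith
  have hUr : (0 : ℝ) < U := by exact_mod_cast hU0
  have hhalf : (m : ℝ) * ((m : ℝ) / U) ≤ 1 / 2 := by
    rw [← mul_div_assoc, div_le_iff₀ hUr]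
    have : (2 : ℝ) * (m : ℝ) ^ 2 ≤ U := by exact_mod_cast hU
    nlinarith
  have h2 : (1 : ℝ) / 2 ≤ (1 + (-((m : ℝ) / U))) ^ m := by
    have : (1 : ℝ) + (m : ℝ) * (-((m : ℝ) / U)) = 1 - (m : ℝ) * ((m : ℝ) / U) := by ring
    linarith
  have h3 : ((U : ℝ)) ^ m ≤ 2 * ((U : ℝ) - m) ^ m := by
    have e3 : ((U : ℝ) - m) ^ m = (U : ℝ) ^ m * (1 + (-((m : ℝ) / U))) ^ m := by
      rw [← mul_pow]; congr 1; field_simp; ring
    rw [e3]
    have : (0 : ℝ) < (U : ℝ) ^ m := by positivity
    nlinarith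
  have h4 : ((U : ℝ) - m) ^ m ≤ ((U + 1 - m : ℕ) : ℝ) ^ m := by
    apply pow_le_pow_left₀
    · have : (m : ℝ) ≤ U := by exact_mod_cast hmU
      linarith
    · rw [Nat.cast_sub (by omega)]; push_cast; linarith
  have h5 : ((U : ℝ)) ^ m ≤ 2 * ((U + 1 - m : ℕ) : ℝ) ^ m := by linarith
  exact_mod_cast h5

theorem four_mul (v U : ℕ) (h : v ≤ U) : 4 * (v * (U - v)) ≤ U ^ 2 := by
  obtain ⟨w, rfl⟩ : ∃ w, U = v + w := ⟨U - v, by omega⟩
  rw [Nat.add_sub_cancel_left]
  have := two_mul_le_add_sq (v : ℤ) (w : ℤ)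
  zify
  nlinarith

/-- a set of families whose two zones `a`, `b` can be exchanged is small -/
theorem rect {D d U : ℕ} (F : Finset (Fin D → Fin d → Fin U)) (a b : Fin D) (hab : a ≠ b)
    (hrest : ∀ x ∈ F, ∀ y ∈ F, ∀ z, z ≠ a → z ≠ b → x z = y z)
    (hmix : ∀ x ∈ F, ∀ y ∈ F, Function.Injective
      (fun p : Fin D × Fin d => Function.update x b (y b) p.1 p.2)) :
    4 ^ d * F.card ≤ (U ^ 2) ^ d := by
  classical
  obtain ⟨V, hV⟩ : ∃ V : Finset (Fin U), V = (F.image (fun x => x a)).biUnion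
    (fun f => univ.image f) := ⟨_, rfl⟩
  have hA : F.image (fun x => x a) ⊆ Fintype.piFinset (fun _ : Fin d => V) := by
    intro f hf
    rw [Fintype.mem_piFinset]
    intro i
    rw [hV, mem_biUnion]
    exact ⟨f, hf, mem_image_of_mem _ (mem_univ i)⟩
  have hB : F.image (fun x => x b) ⊆ Fintype.piFinset (fun _ : Fin d => Vᶜ) := by
    intro g hg
    obtain ⟨y, hy, rfl⟩ := mem_image.mp hg
    rw [Fintype.mem_piFinset]
    intro j
    rw [mem_compl, hV, mem_biUnion]
    rintro ⟨f, hf, hfj⟩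
    obtain ⟨x, hx, rfl⟩ := mem_image.mp hf
    obtain ⟨i, -, hi⟩ := mem_image.mp hfj
    have h1 : ((fun p : Fin D × Fin d => Function.update x b (y b) p.1 p.2) (a, i))
        = ((fun p : Fin D × Fin d => Function.update x b (y b) p.1 p.2) (b, j)) := by
      simp only [Function.update_self, Function.update_of_ne hab]
      exact hi
    have h2 := hmix x hx y hy h1
    exact hab (congrArg Prod.fst h2)
  have hcard : F.card ≤ (F.image (fun x => x a)).card * (F.image (fun x => x b)).card := by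
    rw [← card_product]
    apply card_le_card_of_injOn (fun x => (x a, x b))
    · intro x hx
      simp only [coe_product, Set.mem_prod, mem_coe]
      exact ⟨mem_image_of_mem _ hx, mem_image_of_mem _ hx⟩
    · intro x hx y hy hxy
      simp only [Prod.mk.injEq] at hxy
      funext z
      by_cases ha : z = a
      · subst ha; exact hxy.1
      · by_cases hb : z = b
        · subst hb; exact hxy.2
        · exact hrest x hx y hy z ha hb
  have h1 := card_le_card hA
  have h2 := card_le_card hB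
  rw [Fintype.card_piFinset_const] at h1 h2
  rw [card_compl, Fintype.card_fin] at h2
  have hVU : V.card ≤ U := by
    have := card_le_univ V
    rwa [Fintype.card_fin] at this
  have h3 : F.card ≤ V.card ^ d * (U - V.card) ^ d :=
    hcard.trans (Nat.mul_le_mul h1 h2)
  rw [← mul_pow] at h3
  calc 4 ^ d * F.card ≤ 4 ^ d * (V.card * (U - V.card)) ^ d := Nat.mul_le_mul_left _ h3
    _ = (4 * (V.card * (U - V.card))) ^ d := by rw [mul_pow 4]
    _ ≤ (U ^ 2) ^ d := by
        apply Nat.pow_le_pow_left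
        exact four_mul V.card U hVU

/-- the same with rests and keys -/
theorem rect_keys {D d U : ℕ} {κ : Type} [Fintype κ] (G : Finset (Fin D → Fin d → Fin U))
    (key : (Fin D → Fin d → Fin U) → κ) (a b : Fin D) (hab : a ≠ b)
    (hmix : ∀ x ∈ G, ∀ y ∈ G, key x = key y → (∀ z, z ≠ a → z ≠ b → x z = y z) →
      Function.Injective (fun p : Fin D × Fin d => Function.update x b (y b) p.1 p.2)) :
    4 ^ d * G.card ≤ Fintype.card κ * U ^ (d * D) := by
  classical
  have hfib : ∀ t ∈ (univ : Finset (κ × ({z : Fin D // z ≠ a ∧ z ≠ b} → Fin d → Fin U))),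
      (G.filter (fun x => (key x, fun z : {z : Fin D // z ≠ a ∧ z ≠ b} => x z) = t)).card
        ≤ (U ^ 2) ^ d / 4 ^ d := by
    intro t _
    rw [Nat.le_div_iff_mul_le (by positivity), mul_comm]
    apply rect _ a b hab
    · intro x hx y hy z hza hzb
      have h1 := (mem_filter.mp hx).2
      have h2 := (mem_filter.mp hy).2
      have h3 := congrArg Prod.snd (h1.trans h2.symm)
      exact congrFun h3 ⟨z, hza, hzb⟩
    · intro x hx y hy
      have h1 := (mem_filter.mp hx).2
      have h2 := (mem_filter.mp hy).2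
      have h3 := h1.trans h2.symm
      apply hmix x (mem_filter.mp hx).1 y (mem_filter.mp hy).1 (congrArg Prod.fst h3)
      intro z hza hzb
      exact congrFun (congrArg Prod.snd h3) ⟨z, hza, hzb⟩
  have h1 := Finset.card_le_mul_card_image_of_maps_to (s := G)
    (t := (univ : Finset (κ × ({z : Fin D // z ≠ a ∧ z ≠ b} → Fin d → Fin U))))
    (f := fun x => (key x, fun z : {z : Fin D // z ≠ a ∧ z ≠ b} => x z))
    (fun x _ => mem_univ _) _ hfib
  have hsub : Fintype.card {z : Fin D // z ≠ a ∧ z ≠ b} = D - 2 := by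
    rw [Fintype.card_subtype]
    have e : (univ : Finset (Fin D)).filter (fun z => z ≠ a ∧ z ≠ b) = (univ.erase a).erase b := by
      ext z; simp [mem_erase, and_comm]
    rw [e, card_erase_of_mem (mem_erase.mpr ⟨hab.symm, mem_univ _⟩),
      card_erase_of_mem (mem_univ _), card_univ, Fintype.card_fin]
    omega
  rw [card_univ, Fintype.card_prod, Fintype.card_fun, hsub, Fintype.card_fun, Fintype.card_fin,
    Fintype.card_fin] at h1
  have hD : 2 ≤ D := by
    by_contra hlt
    apply hab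
    have h1 := a.2
    have h2 := b.2
    apply Fin.ext
    omega
  calc 4 ^ d * G.card ≤ 4 ^ d * ((U ^ 2) ^ d / 4 ^ d * (Fintype.card κ * (U ^ d) ^ (D - 2))) :=
        Nat.mul_le_mul_left _ h1
    _ = ((U ^ 2) ^ d / 4 ^ d * 4 ^ d) * (Fintype.card κ * (U ^ d) ^ (D - 2)) := by ring
    _ ≤ (U ^ 2) ^ d * (Fintype.card κ * (U ^ d) ^ (D - 2)) :=
        Nat.mul_le_mul_right _ (Nat.div_mul_le_self _ _)
    _ = Fintype.card κ * ((U ^ d) ^ 2 * (U ^ d) ^ (D - 2)) := by
        rw [← pow_mul U 2 d, mul_comm 2 d, pow_mul U d 2]; ring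
    _ = Fintype.card κ * U ^ (d * D) := by
        rw [← pow_add, show 2 + (D - 2) = D by omega, ← pow_mul]

end Pool.Agent.TH457.HT
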