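import Pool.Agent.TH457.HT.Path
import Pool.Agent.TH457.HT.Rect

/-!
# The engine: slow heads and distinct blocks
-/

set_option autoImplicit false

open Finset

namespace Pool.Agent.TH457.HT

theorem getElem?_ext {γ : Type} {R : ℕ} {l l' : List γ} (h1 : l.length ≤ R) (h2 : l'.length ≤ R)
    (h : (fun i : Fin R => l[(i : ℕ)]?) = (fun i : Fin R => l'[(i : ℕ)]?)) : l = l' := by
  apply List.ext_getElem?
  intro i
  rcases Nat.lt_or_ge i R with hi | hi
  · exact congrFun h ⟨i, hi⟩
  · rw [List.getElem?_eq_none (by omega), List.getElem?_eq_none (by omega)]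

/-- **The engine.**  `D` zones of length `lam`, each with `d` blocks with values below `U`; the
program accepts the words of all families of distinct values within `T` steps, and only such
words.  Then `d` is at most about `S` times the mean number `K` of windows which touch a zone. -/
theorem engine {Λ : Type} {n k : ℕ} (P : HeadProg Λ n k) (lam D d U T S K : ℕ) (hlam : 0 < lam)
    (wd : (Fin D → Fin d → Fin U) → (Fin n → Λ))
    (hloc : ∀ v v' (p : Fin n), (∀ h : (p : ℕ) / lam < D,
      v ⟨(p : ℕ) / lam, h⟩ = v' ⟨(p : ℕ) / lam, h⟩) → wd v p = wd v' p)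
    (hacc : ∀ v, Function.Injective (fun p : Fin D × Fin d => v p.1 p.2) → P.AcceptsIn T (wd v))
    (hsound : ∀ v, P.Accepts (wd v) → Function.Injective (fun p : Fin D × Fin d => v p.1 p.2))
    (hU0 : 0 < U) (hU : 2 * (D * d) ^ 2 ≤ U) (hD : 2 ≤ D)
    (hK1 : 12 * k * (T / lam + 1) < (K + 1) * D) (hK2 : 12 * k * K + 1 ≤ D)
    (hS : Fintype.card P.Cfg + 1 ≤ 2 ^ S) : d ≤ 1 + S * (K + 1) := by
  classical
  obtain ⟨N, hN⟩ : ∃ N, N = T / lam + 1 := ⟨_, rfl⟩
  have h0 := fun v hv => exists_touch P lam D T hlam (wd v) (hacc v hv)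
  rw [← hN] at hK1
  simp only [← hN] at h0
  choose! Tch hT1 hT2 using h0
  set G : Finset (Fin D → Fin d → Fin U) := univ.filter
    (fun v => Function.Injective (fun p : Fin D × Fin d => v p.1 p.2)) with hG
  have hGmem : ∀ x ∈ G, Function.Injective (fun p : Fin D × Fin d => x p.1 p.2) :=
    fun x hx => (mem_filter.mp hx).2
  -- the number of windows which touch `b`
  obtain ⟨Kb, hKb⟩ : ∃ Kb : (Fin D → Fin d → Fin U) → Fin D → ℕ,
      Kb = fun x b => ((range N).filter (fun i => b ∈ Tch x i)).card := ⟨_, rfl⟩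
  have hsumK : ∀ x ∈ G, ∑ b : Fin D, Kb x b ≤ N * (3 * k) := by
    intro x hx
    have h1 : ∑ i ∈ range N, ((univ : Finset (Fin D)).filter (fun b => b ∈ Tch x i)).card
        = ∑ b : Fin D, ((range N).filter (fun i => b ∈ Tch x i)).card :=
      Finset.sum_card_bipartiteAbove_eq_sum_card_bipartiteBelow (r := fun i b => b ∈ Tch x i)
    rw [hKb]
    simp only
    rw [← h1]
    refine (Finset.sum_le_sum (g := fun _ => 3 * k) ?_).trans (by simp)
    intro i _
    have e : (univ : Finset (Fin D)).filter (fun b => b ∈ Tch x i) = Tch x i := by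
      ext z; simp
    rw [e]
    exact hT1 x (hGmem x hx) i
  obtain ⟨b, -, hb⟩ := avg4 G (univ : Finset (Fin D)) (fun x b => K < Kb x b)
    ⟨⟨0, by omega⟩, mem_univ _⟩ (by
      intro x hx
      have h1 : (K + 1) * ((univ : Finset (Fin D)).filter (fun b => K < Kb x b)).card
          ≤ ∑ b : Fin D, Kb x b := by
        calc (K + 1) * ((univ : Finset (Fin D)).filter (fun b => K < Kb x b)).card
            = ∑ b ∈ (univ : Finset (Fin D)).filter (fun b => K < Kb x b), (K + 1) := by
              rw [sum_const, smul_eq_mul, mul_comm]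
          _ ≤ ∑ b ∈ (univ : Finset (Fin D)).filter (fun b => K < Kb x b), Kb x b :=
              Finset.sum_le_sum (fun b hb => (mem_filter.mp hb).2)
          _ ≤ ∑ b : Fin D, Kb x b :=
              Finset.sum_le_sum_of_subset (filter_subset _ _)
      have h2 := h1.trans (hsumK x hx)
      rw [card_univ, Fintype.card_fin]
      have h3 : (K + 1) * (4 * ((univ : Finset (Fin D)).filter (fun b => K < Kb x b)).card)
          < (K + 1) * D := by
        calc (K + 1) * (4 * ((univ : Finset (Fin D)).filter (fun b => K < Kb x b)).card)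
            = 4 * ((K + 1) * ((univ : Finset (Fin D)).filter (fun b => K < Kb x b)).card) := by
              ring
          _ ≤ 4 * (N * (3 * k)) := Nat.mul_le_mul_left _ h2
          _ = 12 * k * N := by ring
          _ < (K + 1) * D := hK1
      exact (Nat.lt_of_mul_lt_mul_left h3).le)
  set G1 := G.filter (fun x => ¬ K < Kb x b) with hG1
  have hc1 : (G.filter (fun x => K < Kb x b)).card + G1.card = G.card :=
    Finset.card_filter_add_card_filter_not (s := G) (fun x => K < Kb x b)
  obtain ⟨a, ha, ha2⟩ := avg4 G1 ((univ : Finset (Fin D)).erase b)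
    (fun x a => ∃ i < N, a ∈ Tch x i ∧ b ∈ Tch x i)
    (by
      rw [← card_pos, card_erase_of_mem (mem_univ _), card_univ, Fintype.card_fin]; omega)
    (by
      intro x hx
      have hxG : x ∈ G := (mem_filter.mp hx).1
      have hxK : Kb x b ≤ K := by
        have := (mem_filter.mp hx).2; omega
      rw [card_erase_of_mem (mem_univ _), card_univ, Fintype.card_fin]
      have hsub : ((univ : Finset (Fin D)).erase b).filter
          (fun a => ∃ i < N, a ∈ Tch x i ∧ b ∈ Tch x i) ⊆
          ((range N).filter (fun i => b ∈ Tch x i)).biUnion (Tch x) := by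
        intro a ha
        obtain ⟨-, i, hi, h1, h2⟩ := mem_filter.mp ha
        exact mem_biUnion.mpr ⟨i, mem_filter.mpr ⟨mem_range.mpr hi, h2⟩, h1⟩
      have h1 : (((univ : Finset (Fin D)).erase b).filter
          (fun a => ∃ i < N, a ∈ Tch x i ∧ b ∈ Tch x i)).card ≤ Kb x b * (3 * k) := by
        refine (card_le_card hsub).trans (card_biUnion_le.trans ?_)
        refine (Finset.sum_le_sum (g := fun _ => 3 * k)
          (fun i _ => hT1 x (hGmem x hxG) i)).trans ?_
        rw [sum_const, smul_eq_mul, hKb]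
      have h2 : Kb x b * (3 * k) ≤ K * (3 * k) := Nat.mul_le_mul_right _ hxK
      have h3 : 4 * (K * (3 * k)) = 12 * k * K := by ring
      omega)
  have hab : a ≠ b := (mem_erase.mp ha).1
  set G2 := G1.filter (fun x => ¬ ∃ i < N, a ∈ Tch x i ∧ b ∈ Tch x i) with hG2
  have hc2 : (G1.filter (fun x => ∃ i < N, a ∈ Tch x i ∧ b ∈ Tch x i)).card + G2.card = G1.card :=
    Finset.card_filter_add_card_filter_not (s := G1) _
  have hG2G : ∀ x ∈ G2, x ∈ G := fun x hx => (mem_filter.mp (mem_filter.mp hx).1).1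
  -- transcripts
  have htr : ∀ x ∈ G2, ∃ (c₀ : P.Cfg) (τ : List P.Cfg), P.init c₀.1 c₀.2 ∧
      Tr P lam a b (wd x) false c₀ τ ∧ τ.length ≤ 2 * K + 1 := by
    intro x hx
    have hx2 := (mem_filter.mp hx).2
    have hx1 := (mem_filter.mp (mem_filter.mp hx).1).2
    obtain ⟨c₀, τ, h1, h2, h3⟩ := hT2 x (hGmem x (hG2G x hx)) a b
      (fun i hi h1 h2 => hx2 ⟨i, hi, h1, h2⟩)
    refine ⟨c₀, τ, h1, h2, h3.trans ?_⟩
    have : Kb x b ≤ K := by omega
    rw [hKb] at this
    simp only at this
    omega
  have hne : ∀ x ∈ G2, Nonempty P.Cfg := fun x hx => ⟨(htr x hx).choose⟩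
  rcases Finset.eq_empty_or_nonempty G2 with hemp | ⟨x₀, hx₀⟩
  · exfalso
    have hz : G2.card = 0 := by rw [hemp]; rfl
    have hz1 : G1.card = 0 := by omega
    have hz0 : G.card = 0 := by omega
    have := card_inj D d U hU
    rw [← hG, hz0] at this
    have : 0 < U ^ (d * D) := by positivity
    omega
  have : Nonempty P.Cfg := hne x₀ hx₀
  choose! c₀ τ hi htau hlen using htr
  have hfin := rect_keys (κ := Fin (2 * K + 2) → Option P.Cfg) G2
    (fun x i => (c₀ x :: τ x)[(i : ℕ)]?) a b hab (by
      intro x hx y hy hkey hrest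
      have e := getElem?_ext (R := 2 * K + 2)
        (by rw [List.length_cons]; have := hlen x hx; omega)
        (by rw [List.length_cons]; have := hlen y hy; omega) hkey
      rw [List.cons.injEq] at e
      apply hsound
      refine Tr_accepts P lam a b _ (τ x) false (c₀ x) (hi x hx) ?_
      refine Tr_mix P lam a b (wd x) (wd y) _ ?_ ?_ (τ x) false (c₀ x) (htau x hx) ?_
      · intro p hp
        apply hloc
        intro h
        apply Function.update_of_ne
        intro hh
        exact hp (congrArg Fin.val hh)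
      · intro p hp
        apply hloc
        intro h
        by_cases hpb : (⟨(p : ℕ) / lam, h⟩ : Fin D) = b
        · rw [hpb, Function.update_self]
        · rw [Function.update_of_ne hpb]
          apply hrest _ _ hpb
          intro hh
          exact hp (congrArg Fin.val hh)
      · rw [e.1, e.2]
        exact htau y hy)
  rw [Fintype.card_fun, Fintype.card_fin, Fintype.card_option] at hfin
  have hinj := card_inj D d U hU
  rw [← hG] at hinj
  have hGG2 : G.card ≤ 2 * G2.card := by omega
  have hpos : 0 < U ^ (d * D) := by positivity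
  have h4 : 4 ^ d * U ^ (d * D) ≤ 4 * 2 ^ (S * (2 * K + 2)) * U ^ (d * D) := by
    calc 4 ^ d * U ^ (d * D) ≤ 4 ^ d * (4 * G2.card) := Nat.mul_le_mul_left _ (by omega)
      _ = 4 * (4 ^ d * G2.card) := by ring
      _ ≤ 4 * ((Fintype.card P.Cfg + 1) ^ (2 * K + 2) * U ^ (d * D)) :=
          Nat.mul_le_mul_left _ hfin
      _ ≤ 4 * ((2 ^ S) ^ (2 * K + 2) * U ^ (d * D)) :=
          Nat.mul_le_mul_left _ (Nat.mul_le_mul_right _ (Nat.pow_le_pow_left hS _))
      _ = 4 * 2 ^ (S * (2 * K + 2)) * U ^ (d * D) := by rw [← pow_mul]; ring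
  have h5 : 4 ^ d ≤ 4 * 2 ^ (S * (2 * K + 2)) := Nat.le_of_mul_le_mul_right h4 hpos
  have h6 : (2 : ℕ) ^ (2 * d) ≤ 2 ^ (2 + S * (2 * K + 2)) := by
    calc (2 : ℕ) ^ (2 * d) = 4 ^ d := by rw [pow_mul]; norm_num
      _ ≤ 4 * 2 ^ (S * (2 * K + 2)) := h5
      _ = 2 ^ (2 + S * (2 * K + 2)) := by rw [pow_add]; norm_num
  have h7 := (Nat.pow_le_pow_iff_right (by norm_num : 1 < 2)).mp h6
  have h8 : S * (2 * K + 2) = 2 * (S * (K + 1)) := by ring
  omega

end Pool.Agent.TH457.HT
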