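import Mathlib

/-!
# Planted collisions in large rectangles
-/

set_option autoImplicit false

open Finset

namespace Pool.Agent.TH457.HT

variable {d U : ℕ}

/-- the number of the members of `A` with the value `v` at `i` -/
def cnt (A : Finset (Fin d → Fin U)) (i : Fin d) (v : Fin U) : ℕ :=
  (A.filter (fun x => x i = v)).card

/-- the frequent values -/
def Wset (A : Finset (Fin d → Fin U)) (i : Fin d) : Finset (Fin U) :=
  univ.filter (fun v => A.card ≤ 16 * U * cnt A i v)

theorem miss_le (A : Finset (Fin d → Fin U)) (i : Fin d) (hU : 0 < U) :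
    16 * (A.filter (fun x => x i ∉ Wset A i)).card ≤ A.card := by
  classical
  have h1 : (A.filter (fun x => x i ∉ Wset A i)).card
      = ∑ v ∈ (Wset A i)ᶜ, cnt A i v := by
    rw [Finset.card_eq_sum_card_fiberwise (f := fun x => x i) (t := (Wset A i)ᶜ)]
    · apply Finset.sum_congr rfl
      intro v hv
      unfold cnt
      congr 1
      ext x
      simp only [mem_filter]
      constructor
      · rintro ⟨⟨h1, h2⟩, h3⟩; exact ⟨h1, h3⟩
      · rintro ⟨h1, h3⟩
        refine ⟨⟨h1, ?_⟩, h3⟩
        rw [h3]; exact mem_compl.mp hv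
    · intro x hx
      simp only [coe_filter, Set.mem_ofPred_eq] at hx
      simp only [coe_compl, Set.mem_compl_iff, mem_coe]
      exact hx.2
  have h2 : U * (16 * ∑ v ∈ (Wset A i)ᶜ, cnt A i v) ≤ U * A.card := by
    calc U * (16 * ∑ v ∈ (Wset A i)ᶜ, cnt A i v) = ∑ v ∈ (Wset A i)ᶜ, 16 * U * cnt A i v := by
          rw [← mul_sum]; ring
      _ ≤ ∑ v ∈ (Wset A i)ᶜ, A.card := by
          apply Finset.sum_le_sum
          intro v hv
          rw [mem_compl, Wset, mem_filter] at hv
          push Not at hv
          exact (hv (mem_univ v)).le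
      _ = (Wset A i)ᶜ.card * A.card := by rw [sum_const, smul_eq_mul]
      _ ≤ U * A.card := by
          apply Nat.mul_le_mul_right
          have := card_le_univ (Wset A i)ᶜ
          rwa [Fintype.card_fin] at this
  rw [h1]
  exact Nat.le_of_mul_le_mul_left h2 hU

theorem spread (A : Finset (Fin d → Fin U)) (hd : 0 < d) (hU : 0 < U)
    (hA : 2 * ((967 : ℝ) / 1000) ^ d * (U : ℝ) ^ d < A.card) :
    4 * ((univ : Finset (Fin d)).filter (fun i => 8 * (Wset A i).card ≤ 5 * U)).card < d := by
  classical
  by_contra hcon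
  push Not at hcon
  set I := (univ : Finset (Fin d)).filter (fun i => 8 * (Wset A i).card ≤ 5 * U) with hI
  have hIpos : 0 < I.card := by omega
  obtain ⟨miss, hmiss⟩ : ∃ miss : (Fin d → Fin U) → ℕ,
      miss = fun x => (I.filter (fun i => x i ∉ Wset A i)).card := ⟨_, rfl⟩
  have hsum : ∑ x ∈ A, miss x = ∑ i ∈ I, (A.filter (fun x => x i ∉ Wset A i)).card := by
    rw [hmiss]
    exact Finset.sum_card_bipartiteAbove_eq_sum_card_bipartiteBelow
      (r := fun (x : Fin d → Fin U) (i : Fin d) => x i ∉ Wset A i)
  have hsum2 : 16 * ∑ x ∈ A, miss x ≤ I.card * A.card := by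
    rw [hsum, mul_sum]
    calc ∑ i ∈ I, 16 * (A.filter (fun x => x i ∉ Wset A i)).card ≤ ∑ i ∈ I, A.card :=
          Finset.sum_le_sum (fun i _ => miss_le A i hU)
      _ = I.card * A.card := by rw [sum_const, smul_eq_mul]
  set A' := A.filter (fun x => 8 * miss x ≤ I.card) with hA'
  have hc : A'.card + (A.filter (fun x => ¬ 8 * miss x ≤ I.card)).card = A.card :=
    Finset.card_filter_add_card_filter_not (s := A) _
  have h2 : A.card ≤ 2 * A'.card := by
    have h3 : I.card * (A.filter (fun x => ¬ 8 * miss x ≤ I.card)).card ≤ 8 * ∑ x ∈ A, miss x := by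
      calc I.card * (A.filter (fun x => ¬ 8 * miss x ≤ I.card)).card
          = ∑ x ∈ A.filter (fun x => ¬ 8 * miss x ≤ I.card), I.card := by
            rw [sum_const, smul_eq_mul, mul_comm]
        _ ≤ ∑ x ∈ A.filter (fun x => ¬ 8 * miss x ≤ I.card), 8 * miss x := by
            apply Finset.sum_le_sum
            intro x hx
            have := (mem_filter.mp hx).2
            omega
        _ ≤ ∑ x ∈ A, 8 * miss x := Finset.sum_le_sum_of_subset (filter_subset _ _)
        _ = 8 * ∑ x ∈ A, miss x := by rw [mul_sum]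
    have h4 : I.card * (2 * (A.filter (fun x => ¬ 8 * miss x ≤ I.card)).card) ≤ I.card * A.card := by
      calc I.card * (2 * (A.filter (fun x => ¬ 8 * miss x ≤ I.card)).card)
          = 2 * (I.card * (A.filter (fun x => ¬ 8 * miss x ≤ I.card)).card) := by ring
        _ ≤ 2 * (8 * ∑ x ∈ A, miss x) := Nat.mul_le_mul_left _ h3
        _ = 16 * ∑ x ∈ A, miss x := by ring
        _ ≤ I.card * A.card := hsum2
    have h5 := Nat.le_of_mul_le_mul_left h4 hIpos
    omega
  -- weights
  obtain ⟨w, hw⟩ : ∃ w : Fin d → Fin U → ℝ,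
      w = fun i v => if i ∈ I ∧ v ∉ Wset A i then 1 / 8 else 1 := ⟨_, rfl⟩
  have hw0 : ∀ i v, 0 ≤ w i v := by
    intro i v; rw [hw]; dsimp only; split_ifs <;> norm_num
  have hprod : ∀ x : Fin d → Fin U, ∏ i, w i (x i) = (1 / 8) ^ miss x := by
    intro x
    rw [hw, hmiss]
    dsimp only
    rw [Finset.prod_ite, Finset.prod_const_one, mul_one, Finset.prod_const]
    congr 2
    ext i
    simp only [mem_filter, mem_univ, true_and]
  have hA'le : (A'.card : ℝ) * (10 / 13) ^ I.card ≤ ∑ x : Fin d → Fin U, ∏ i, w i (x i) := by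
    calc (A'.card : ℝ) * (10 / 13) ^ I.card = ∑ x ∈ A', (10 / 13 : ℝ) ^ I.card := by
          rw [sum_const, nsmul_eq_mul]
      _ ≤ ∑ x ∈ A', ∏ i, w i (x i) := by
          apply Finset.sum_le_sum
          intro x hx
          rw [hprod]
          have hx2 := (mem_filter.mp hx).2
          calc ((10 : ℝ) / 13) ^ I.card ≤ (10 / 13) ^ (8 * miss x) :=
                pow_le_pow_of_le_one (by norm_num) (by norm_num) hx2
            _ = ((10 / 13) ^ 8) ^ miss x := by rw [pow_mul]
            _ ≤ (1 / 8) ^ miss x := by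
                apply pow_le_pow_left₀ (by positivity)
                norm_num
      _ ≤ ∑ x : Fin d → Fin U, ∏ i, w i (x i) :=
          Finset.sum_le_sum_of_subset_of_nonneg (subset_univ _)
            (fun x _ _ => Finset.prod_nonneg (fun i _ => hw0 i _))
  have hsumprod : ∑ x : Fin d → Fin U, ∏ i, w i (x i) = ∏ i, ∑ v, w i v := by
    rw [Finset.prod_univ_sum, Fintype.piFinset_univ]
  have hfac : ∀ i, ∑ v, w i v ≤ U * (if i ∈ I then 43 / 64 else 1) := by
    intro i
    rw [hw]
    dsimp only
    by_cases hi : i ∈ I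
    · simp only [hi, true_and, if_true]
      rw [Finset.sum_ite, sum_const, sum_const, nsmul_eq_mul, nsmul_eq_mul]
      have e1 : (univ.filter (fun v => v ∉ Wset A i)).card + (Wset A i).card = U := by
        have e2 : (univ.filter (fun v => ¬ v ∉ Wset A i)) = Wset A i := by
          ext v; simp
        have := Finset.card_filter_add_card_filter_not (s := (univ : Finset (Fin U)))
          (fun v => v ∉ Wset A i)
        rw [e2, card_univ, Fintype.card_fin] at this
        exact this
      have e3 : (univ.filter (fun v => ¬ v ∉ Wset A i)) = Wset A i := by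
        ext v; simp
      rw [e3]
      have hi2 : 8 * (Wset A i).card ≤ 5 * U := (mem_filter.mp hi).2
      have hi3 : (8 : ℝ) * (Wset A i).card ≤ 5 * U := by exact_mod_cast hi2
      have e4 : ((univ.filter (fun v => v ∉ Wset A i)).card : ℝ) + (Wset A i).card = U := by
        exact_mod_cast e1
      linarith
    · simp only [hi, false_and, if_false]
      simp
  have hprodle : ∏ i, ∑ v, w i v ≤ (U : ℝ) ^ d * (43 / 64) ^ I.card := by
    calc ∏ i, ∑ v, w i v ≤ ∏ i : Fin d, ((U : ℝ) * (if i ∈ I then 43 / 64 else 1)) := by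
          apply Finset.prod_le_prod
          · intro i _; exact Finset.sum_nonneg (fun v _ => hw0 i v)
          · intro i _; exact hfac i
      _ = (U : ℝ) ^ d * (43 / 64) ^ I.card := by
          rw [Finset.prod_mul_distrib, Finset.prod_const, card_univ, Fintype.card_fin,
            Finset.prod_ite, Finset.prod_const_one, mul_one, Finset.prod_const]
          congr 3
          ext i; simp
  rw [hsumprod] at hA'le
  have h6 := hA'le.trans hprodle
  have hpw : (0 : ℝ) < (10 / 13) ^ I.card := by positivity
  have h7 : (A'.card : ℝ) ≤ (U : ℝ) ^ d * (559 / 640) ^ I.card := by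
    have e : (U : ℝ) ^ d * (43 / 64) ^ I.card
        = ((U : ℝ) ^ d * (559 / 640) ^ I.card) * (10 / 13) ^ I.card := by
      rw [mul_assoc, ← mul_pow]; norm_num
    rw [e] at h6
    exact le_of_mul_le_mul_right h6 hpw
  have h8 : ((559 : ℝ) / 640) ^ I.card ≤ (967 / 1000) ^ d := by
    calc ((559 : ℝ) / 640) ^ I.card ≤ ((967 / 1000) ^ 4) ^ I.card := by
          apply pow_le_pow_left₀ (by norm_num); norm_num
      _ = (967 / 1000) ^ (4 * I.card) := by rw [pow_mul]
      _ ≤ (967 / 1000) ^ d := pow_le_pow_of_le_one (by norm_num) (by norm_num) hcon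
  have hUd : (0 : ℝ) ≤ (U : ℝ) ^ d := by positivity
  have h9 : (A.card : ℝ) ≤ 2 * A'.card := by exact_mod_cast h2
  have h10 : (U : ℝ) ^ d * (559 / 640) ^ I.card ≤ (U : ℝ) ^ d * (967 / 1000) ^ d :=
    mul_le_mul_of_nonneg_left h8 hUd
  linarith

/-- the number of the preimages of an update -/
theorem card_update (B : Finset (Fin d → Fin U)) (j : Fin d) (v : Fin U) :
    U * cnt B j v ≤
      ((univ : Finset (Fin d → Fin U)).filter (fun y => Function.update y j v ∈ B)).card := by
  classical
  have h1 : ((univ : Finset (Fin U)) ×ˢ (B.filter (fun x => x j = v))).card = U * cnt B j v := by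
    rw [card_product, card_univ, Fintype.card_fin]; rfl
  rw [← h1]
  apply card_le_card_of_injOn (fun p => Function.update p.2 j p.1)
  · rintro ⟨u, y⟩ hp
    simp only [coe_product, Set.mem_prod, mem_coe, mem_filter] at hp
    simp only [coe_filter, Set.mem_ofPred_eq, mem_univ, true_and, Function.update_idem]
    have : Function.update y j v = y := by rw [← hp.2.2, Function.update_eq_self]
    rw [this]; exact hp.2.1
  · rintro ⟨u, y⟩ hp ⟨u', y'⟩ hp' h
    simp only [coe_product, Set.mem_prod, mem_coe, mem_filter] at hp hp'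
    simp only at h
    have h2 : u = u' := by
      have := congrFun h j
      simpa using this
    have h3 : y = y' := by
      funext i
      by_cases hi : i = j
      · rw [hi, hp.2.2, hp'.2.2]
      · have := congrFun h i
        simpa [Function.update_of_ne hi] using this
    rw [h2, h3]

/-- the pairs of families with a planted collision -/
def plant (A B : Finset (Fin d → Fin U)) (i j : Fin d) :
    Finset ((Fin d → Fin U) × (Fin d → Fin U)) :=
  (A ×ˢ (univ : Finset (Fin d → Fin U))).filter (fun p => Function.update p.2 j (p.1 i) ∈ B)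

theorem card_plant (A B : Finset (Fin d → Fin U)) (i j : Fin d) :
    ∑ v, cnt A i v * (U * cnt B j v) ≤ (plant A B i j).card := by
  classical
  unfold plant
  rw [Finset.card_eq_sum_card_fiberwise (f := fun p => p.1) (t := A)]
  · have h1 : ∑ v, cnt A i v * (U * cnt B j v) = ∑ x ∈ A, U * cnt B j (x i) := by
      rw [← Finset.sum_fiberwise A (fun x => x i)]
      apply Finset.sum_congr rfl
      intro v _
      rw [Finset.sum_congr rfl (g := fun _ => U * cnt B j v), sum_const, smul_eq_mul]
      · rfl
      · intro x hx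
        rw [(mem_filter.mp hx).2]
    rw [h1]
    apply Finset.sum_le_sum
    intro x hx
    refine (card_update B j (x i)).trans ?_
    apply card_le_card_of_injOn (fun y => (x, y))
    · intro y hy
      simp only [coe_filter, Set.mem_ofPred_eq, mem_univ, true_and] at hy
      simp only [coe_filter, Set.mem_ofPred_eq, mem_product, mem_univ, and_true, mem_filter]
      exact ⟨hx, hy⟩
    · intro y _ y' _ h
      exact (Prod.mk.inj h).2
  · intro p hp
    simp only [coe_filter, Set.mem_ofPred_eq, mem_product] at hp
    exact hp.1.1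

/-- **Corruption.** In a large rectangle there are many planted collisions. -/
theorem corrupt (A B : Finset (Fin d → Fin U)) (hd : 0 < d) (hU : 0 < U)
    (hA : 2 * ((967 : ℝ) / 1000) ^ d * (U : ℝ) ^ d < A.card)
    (hB : 2 * ((967 : ℝ) / 1000) ^ d * (U : ℝ) ^ d < B.card) :
    d ^ 2 * (A.card * B.card) ≤ 2048 * ∑ i, ∑ j, (plant A B i j).card := by
  classical
  have h1 := spread A hd hU hA
  have h2 := spread B hd hU hB
  set GA := (univ : Finset (Fin d)).filter (fun i => ¬ 8 * (Wset A i).card ≤ 5 * U) with hGA
  set GB := (univ : Finset (Fin d)).filter (fun i => ¬ 8 * (Wset B i).card ≤ 5 * U) with hGB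
  have hcA : ((univ : Finset (Fin d)).filter (fun i => 8 * (Wset A i).card ≤ 5 * U)).card
      + GA.card = d := by
    have := Finset.card_filter_add_card_filter_not (s := (univ : Finset (Fin d)))
      (fun i => 8 * (Wset A i).card ≤ 5 * U)
    rwa [card_univ, Fintype.card_fin] at this
  have hcB : ((univ : Finset (Fin d)).filter (fun i => 8 * (Wset B i).card ≤ 5 * U)).card
      + GB.card = d := by
    have := Finset.card_filter_add_card_filter_not (s := (univ : Finset (Fin d)))
      (fun i => 8 * (Wset B i).card ≤ 5 * U)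
    rwa [card_univ, Fintype.card_fin] at this
  have hpair : ∀ i ∈ GA, ∀ j ∈ GB, A.card * B.card ≤ 1024 * (plant A B i j).card := by
    intro i hi j hj
    have hi2 := (mem_filter.mp hi).2
    have hj2 := (mem_filter.mp hj).2
    have hint : U ≤ 4 * (Wset A i ∩ Wset B j).card := by
      have h3 := Finset.card_union_add_card_inter (Wset A i) (Wset B j)
      have h4 := card_le_univ (Wset A i ∪ Wset B j)
      rw [Fintype.card_fin] at h4
      omega
    have h5 : (Wset A i ∩ Wset B j).card * (A.card * B.card)
        ≤ 256 * U * ∑ v, cnt A i v * (U * cnt B j v) := by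
      calc (Wset A i ∩ Wset B j).card * (A.card * B.card)
          = ∑ v ∈ Wset A i ∩ Wset B j, A.card * B.card := by rw [sum_const, smul_eq_mul]
        _ ≤ ∑ v ∈ Wset A i ∩ Wset B j, (16 * U * cnt A i v) * (16 * U * cnt B j v) := by
            apply Finset.sum_le_sum
            intro v hv
            rw [mem_inter] at hv
            exact Nat.mul_le_mul (mem_filter.mp hv.1).2 (mem_filter.mp hv.2).2
        _ ≤ ∑ v, (16 * U * cnt A i v) * (16 * U * cnt B j v) :=
            Finset.sum_le_sum_of_subset (subset_univ _)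
        _ = 256 * U * ∑ v, cnt A i v * (U * cnt B j v) := by
            rw [mul_sum]; apply Finset.sum_congr rfl; intro v _; ring
    have h6 := card_plant A B i j
    have h7 : U * (A.card * B.card) ≤ U * (1024 * (plant A B i j).card) := by
      calc U * (A.card * B.card) ≤ 4 * (Wset A i ∩ Wset B j).card * (A.card * B.card) :=
            Nat.mul_le_mul_right _ hint
        _ = 4 * ((Wset A i ∩ Wset B j).card * (A.card * B.card)) := by ring
        _ ≤ 4 * (256 * U * ∑ v, cnt A i v * (U * cnt B j v)) := Nat.mul_le_mul_left _ h5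
        _ = U * (1024 * ∑ v, cnt A i v * (U * cnt B j v)) := by ring
        _ ≤ U * (1024 * (plant A B i j).card) :=
            Nat.mul_le_mul_left _ (Nat.mul_le_mul_left _ h6)
    exact Nat.le_of_mul_le_mul_left h7 hU
  have h8 : GA.card * GB.card * (A.card * B.card) ≤ 1024 * ∑ i, ∑ j, (plant A B i j).card := by
    calc GA.card * GB.card * (A.card * B.card)
        = ∑ i ∈ GA, ∑ j ∈ GB, A.card * B.card := by
          rw [sum_const, sum_const, smul_eq_mul, smul_eq_mul]; ring
      _ ≤ ∑ i ∈ GA, ∑ j ∈ GB, 1024 * (plant A B i j).card :=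
          Finset.sum_le_sum (fun i hi => Finset.sum_le_sum (fun j hj => hpair i hi j hj))
      _ ≤ ∑ i, ∑ j, 1024 * (plant A B i j).card := by
          refine (Finset.sum_le_sum (fun i _ =>
            Finset.sum_le_sum_of_subset (subset_univ GB))).trans ?_
          exact Finset.sum_le_sum_of_subset (subset_univ GA)
      _ = 1024 * ∑ i, ∑ j, (plant A B i j).card := by
          rw [mul_sum]; apply Finset.sum_congr rfl; intro i _; rw [mul_sum]
  have h9 : d ^ 2 ≤ 2 * (GA.card * GB.card) := by
    have h3 : 3 * d ≤ 4 * GA.card := by omega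
    have h4 : 3 * d ≤ 4 * GB.card := by omega
    have h5 := Nat.mul_le_mul h3 h4
    nlinarith
  calc d ^ 2 * (A.card * B.card) ≤ 2 * (GA.card * GB.card) * (A.card * B.card) :=
        Nat.mul_le_mul_right _ h9
    _ = 2 * (GA.card * GB.card * (A.card * B.card)) := by ring
    _ ≤ 2 * (1024 * ∑ i, ∑ j, (plant A B i j).card) := Nat.mul_le_mul_left _ h8
    _ = 2048 * ∑ i, ∑ j, (plant A B i j).card := by ring

end Pool.Agent.TH457.HT
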