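import Pool.Agent.TH457.HT.DetPath
import Pool.Agent.TH457.HT.Rect
import Pool.Agent.TH457.HT.Spread
import Pool.Agent.TH457.HT.Engine

/-!
# The engine for randomized programs with slow heads
-/

set_option autoImplicit false

open Finset

namespace Pool.Agent.TH457.HT

/-- the density of small rectangles -/
noncomputable def eta (d : ℕ) : ℝ := 2 * ((967 : ℝ) / 1000) ^ d

/-- plant the `i`-th value of zone `a` at the place `j` of zone `b` -/
def TT {D d U : ℕ} (a b : Fin D) (i j : Fin d) (v : Fin D → Fin d → Fin U) :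
    Fin D → Fin d → Fin U :=
  Function.update v b (Function.update (v b) j (v a i))

/-- a set of families closed under crossing over has many planted collisions -/
theorem plantF {D d U : ℕ} (hd : 0 < d) (hU : 0 < U) (F : Finset (Fin D → Fin d → Fin U))
    (a b : Fin D) (hab : a ≠ b)
    (hrest : ∀ x ∈ F, ∀ y ∈ F, ∀ z, z ≠ a → z ≠ b → x z = y z)
    (hmix : ∀ x ∈ F, ∀ y ∈ F, Function.update x b (y b) ∈ F) :
    (d : ℝ) ^ 2 * F.card ≤ 2048 * ∑ i, ∑ j,
      (((univ : Finset (Fin D → Fin d → Fin U)).filter (fun v => TT a b i j v ∈ F)).card : ℝ)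
      + (d : ℝ) ^ 2 * (eta d * ((U : ℝ) ^ d) ^ 2) := by
  classical
  set A := F.image (fun x => x a) with hA
  set B := F.image (fun x => x b) with hB
  have hcard : F.card ≤ A.card * B.card := by
    rw [← card_product]
    apply card_le_card_of_injOn (fun x => (x a, x b))
    · intro x hx
      simp only [coe_product, Set.mem_prod, mem_coe]
      exact ⟨mem_image_of_mem _ hx, mem_image_of_mem _ hx⟩
    · intro x hx y hy hxy
      simp only [Prod.mk.injEq] at hxy
      funext z
      by_cases ha : z = a
      · subst ha; exact hxy.1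
      · by_cases hb : z = b
        · subst hb; exact hxy.2
        · exact hrest x hx y hy z ha hb
  have hcardR : (F.card : ℝ) ≤ A.card * B.card := by exact_mod_cast hcard
  have hAU : (A.card : ℝ) ≤ (U : ℝ) ^ d := by
    have := card_le_univ A
    rw [Fintype.card_fun, Fintype.card_fin, Fintype.card_fin] at this
    exact_mod_cast this
  have hBU : (B.card : ℝ) ≤ (U : ℝ) ^ d := by
    have := card_le_univ B
    rw [Fintype.card_fun, Fintype.card_fin, Fintype.card_fin] at this
    exact_mod_cast this
  have hη : 0 ≤ eta d := by unfold eta; positivity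
  have hUd : (0 : ℝ) ≤ (U : ℝ) ^ d := by positivity
  have hsum0 : (0 : ℝ) ≤ 2048 * ∑ i : Fin d, ∑ j : Fin d,
      (((univ : Finset (Fin D → Fin d → Fin U)).filter (fun v => TT a b i j v ∈ F)).card : ℝ) :=
    mul_nonneg (by norm_num) (Finset.sum_nonneg (fun i _ => Finset.sum_nonneg
      (fun j _ => Nat.cast_nonneg _)))
  by_cases hbig : eta d * (U : ℝ) ^ d < A.card ∧ eta d * (U : ℝ) ^ d < B.card
  · have h1 := corrupt A B hd hU hbig.1 hbig.2
    have hne : A.Nonempty := by
      rw [← card_pos]
      have h2 : (0 : ℝ) < A.card := lt_of_le_of_lt (by positivity) hbig.1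
      exact_mod_cast h2
    obtain ⟨x0, hx0⟩ := hne
    obtain ⟨v0, hv0, -⟩ := mem_image.mp hx0
    have h2 : ∀ i j, (plant A B i j).card ≤
        ((univ : Finset (Fin D → Fin d → Fin U)).filter (fun v => TT a b i j v ∈ F)).card := by
      intro i j
      apply card_le_card_of_injOn (fun p => Function.update (Function.update v0 a p.1) b p.2)
      · rintro ⟨x, y⟩ hp
        unfold plant at hp
        simp only [coe_filter, Set.mem_ofPred_eq, mem_product, mem_univ, and_true] at hp
        obtain ⟨hx, hy⟩ := hp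
        obtain ⟨f1, hf1, hf1x⟩ := mem_image.mp hx
        obtain ⟨f2, hf2, hf2y⟩ := mem_image.mp hy
        simp only [coe_filter, Set.mem_ofPred_eq, mem_univ, true_and]
        unfold TT
        rw [Function.update_self, Function.update_of_ne hab, Function.update_self,
          Function.update_idem]
        have e : Function.update (Function.update v0 a x) b (Function.update y j (x i))
            = Function.update f1 b (f2 b) := by
          rw [hf2y]
          funext z
          by_cases hzb : z = b
          · subst hzb; rw [Function.update_self, Function.update_self]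
          · rw [Function.update_of_ne hzb, Function.update_of_ne hzb]
            by_cases hza : z = a
            · subst hza; rw [Function.update_self]; exact hf1x.symm
            · rw [Function.update_of_ne hza]
              exact hrest v0 hv0 f1 hf1 z hza hzb
        rw [e]
        exact hmix f1 hf1 f2 hf2
      · rintro ⟨x, y⟩ _ ⟨x', y'⟩ _ h
        simp only at h
        have h3 := congrFun h a
        rw [Function.update_of_ne hab, Function.update_of_ne hab, Function.update_self,
          Function.update_self] at h3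
        have h4 := congrFun h b
        rw [Function.update_self, Function.update_self] at h4
        rw [h3, h4]
    have h3 : (d : ℝ) ^ 2 * (A.card * B.card) ≤ 2048 * ∑ i, ∑ j, ((plant A B i j).card : ℝ) := by
      exact_mod_cast h1
    have h4 : ∑ i, ∑ j, ((plant A B i j).card : ℝ) ≤ ∑ i : Fin d, ∑ j : Fin d,
        (((univ : Finset (Fin D → Fin d → Fin U)).filter
          (fun v => TT a b i j v ∈ F)).card : ℝ) :=
      Finset.sum_le_sum (fun i _ => Finset.sum_le_sum (fun j _ => by exact_mod_cast h2 i j))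
    have h5 : (d : ℝ) ^ 2 * F.card ≤ (d : ℝ) ^ 2 * (A.card * B.card) :=
      mul_le_mul_of_nonneg_left hcardR (by positivity)
    have h6 : (0 : ℝ) ≤ (d : ℝ) ^ 2 * (eta d * ((U : ℝ) ^ d) ^ 2) := by positivity
    linarith
  · have h1 : (A.card : ℝ) * B.card ≤ eta d * ((U : ℝ) ^ d) ^ 2 := by
      rw [not_and_or, not_lt, not_lt] at hbig
      rcases hbig with h | h
      · calc (A.card : ℝ) * B.card ≤ (eta d * (U : ℝ) ^ d) * (U : ℝ) ^ d :=
              mul_le_mul h hBU (by positivity) (by positivity)
          _ = eta d * ((U : ℝ) ^ d) ^ 2 := by ring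
      · calc (A.card : ℝ) * B.card ≤ (U : ℝ) ^ d * (eta d * (U : ℝ) ^ d) :=
              mul_le_mul hAU h (by positivity) (by positivity)
          _ = eta d * ((U : ℝ) ^ d) ^ 2 := by ring
    have h2 : (d : ℝ) ^ 2 * F.card ≤ (d : ℝ) ^ 2 * (eta d * ((U : ℝ) ^ d) ^ 2) :=
      mul_le_mul_of_nonneg_left (hcardR.trans h1) (by positivity)
    linarith

/-- the same with classes -/
theorem plantH {D d U : ℕ} {κ : Type} [Fintype κ] (hd : 0 < d) (hU : 0 < U)
    (H : Finset (Fin D → Fin d → Fin U)) (key : (Fin D → Fin d → Fin U) → κ)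
    (a b : Fin D) (hab : a ≠ b)
    (hmix : ∀ x ∈ H, ∀ y ∈ H, key x = key y → (∀ z, z ≠ a → z ≠ b → x z = y z) →
      Function.update x b (y b) ∈ H ∧ key (Function.update x b (y b)) = key x) :
    (d : ℝ) ^ 2 * H.card ≤ 2048 * ∑ i, ∑ j,
      (((univ : Finset (Fin D → Fin d → Fin U)).filter (fun v => TT a b i j v ∈ H)).card : ℝ)
      + (d : ℝ) ^ 2 * (Fintype.card κ * (eta d * (U : ℝ) ^ (d * D))) := by
  classical
  have hD : 2 ≤ D := by
    by_contra hlt
    apply hab
    have h1 := a.2
    have h2 := b.2
    apply Fin.ext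
    omega
  obtain ⟨g, hg⟩ : ∃ g : (Fin D → Fin d → Fin U) →
      κ × ({z : Fin D // z ≠ a ∧ z ≠ b} → Fin d → Fin U),
      g = fun x => (key x, fun z : {z : Fin D // z ≠ a ∧ z ≠ b} => x z) := ⟨_, rfl⟩
  obtain ⟨Fc, hFc⟩ : ∃ Fc : κ × ({z : Fin D // z ≠ a ∧ z ≠ b} → Fin d → Fin U) →
      Finset (Fin D → Fin d → Fin U), Fc = fun t => H.filter (fun x => g x = t) := ⟨_, rfl⟩
  have hcls : ∀ t, (d : ℝ) ^ 2 * (Fc t).card ≤ 2048 * ∑ i, ∑ j,
      (((univ : Finset (Fin D → Fin d → Fin U)).filter
        (fun v => TT a b i j v ∈ Fc t)).card : ℝ)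
      + (d : ℝ) ^ 2 * (eta d * ((U : ℝ) ^ d) ^ 2) := by
    intro t
    apply plantF hd hU (Fc t) a b hab
    · intro x hx y hy z hza hzb
      rw [hFc] at hx hy
      have h1 := (mem_filter.mp hx).2
      have h2 := (mem_filter.mp hy).2
      have h3 := h1.trans h2.symm
      rw [hg] at h3
      exact congrFun (congrArg Prod.snd h3) ⟨z, hza, hzb⟩
    · intro x hx y hy
      rw [hFc] at hx hy ⊢
      obtain ⟨hx1, hx2⟩ := mem_filter.mp hx
      obtain ⟨hy1, hy2⟩ := mem_filter.mp hy
      have h3 := hx2.trans hy2.symm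
      rw [hg] at h3
      have h4 := hmix x hx1 y hy1 (congrArg Prod.fst h3)
        (fun z hza hzb => congrFun (congrArg Prod.snd h3) ⟨z, hza, hzb⟩)
      refine mem_filter.mpr ⟨h4.1, ?_⟩
      rw [← hx2, hg]
      dsimp only
      rw [h4.2]
      congr 1
      funext z
      rw [Function.update_of_ne z.2.2]
  have hH : (H.card : ℝ) = ∑ t, ((Fc t).card : ℝ) := by
    rw [Finset.card_eq_sum_card_fiberwise (f := g) (t := univ) (fun x _ => mem_univ _), hFc]
    push_cast
    rfl
  have hpl : ∀ i j, ∑ t, (((univ : Finset (Fin D → Fin d → Fin U)).filter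
        (fun v => TT a b i j v ∈ Fc t)).card : ℝ)
      = (((univ : Finset (Fin D → Fin d → Fin U)).filter
        (fun v => TT a b i j v ∈ H)).card : ℝ) := by
    intro i j
    rw [Finset.card_eq_sum_card_fiberwise (s := (univ : Finset (Fin D → Fin d → Fin U)).filter
        (fun v => TT a b i j v ∈ H)) (f := fun v => g (TT a b i j v)) (t := univ)
        (fun x _ => mem_univ _)]
    push_cast
    apply Finset.sum_congr rfl
    intro t _
    congr 2
    ext v
    rw [hFc]
    simp only [mem_filter, mem_univ, true_and]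
  have hsub : Fintype.card {z : Fin D // z ≠ a ∧ z ≠ b} = D - 2 := by
    rw [Fintype.card_subtype]
    have e : (univ : Finset (Fin D)).filter (fun z => z ≠ a ∧ z ≠ b) = (univ.erase a).erase b := by
      ext z; simp [mem_erase, and_comm]
    rw [e, card_erase_of_mem (mem_erase.mpr ⟨hab.symm, mem_univ _⟩),
      card_erase_of_mem (mem_univ _), card_univ, Fintype.card_fin]
    omega
  have hT : (Fintype.card (κ × ({z : Fin D // z ≠ a ∧ z ≠ b} → Fin d → Fin U)) : ℝ)
      = Fintype.card κ * ((U : ℝ) ^ d) ^ (D - 2) := by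
    rw [Fintype.card_prod, Fintype.card_fun, hsub, Fintype.card_fun, Fintype.card_fin,
      Fintype.card_fin]
    push_cast
    rfl
  calc (d : ℝ) ^ 2 * H.card = ∑ t, (d : ℝ) ^ 2 * ((Fc t).card : ℝ) := by rw [hH, mul_sum]
    _ ≤ ∑ t, (2048 * ∑ i, ∑ j,
      (((univ : Finset (Fin D → Fin d → Fin U)).filter
        (fun v => TT a b i j v ∈ Fc t)).card : ℝ)
      + (d : ℝ) ^ 2 * (eta d * ((U : ℝ) ^ d) ^ 2)) := Finset.sum_le_sum (fun t _ => hcls t)
    _ = 2048 * ∑ i, ∑ j,
      (((univ : Finset (Fin D → Fin d → Fin U)).filter (fun v => TT a b i j v ∈ H)).card : ℝ)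
      + (d : ℝ) ^ 2 * (Fintype.card κ * (eta d * (U : ℝ) ^ (d * D))) := by
      rw [Finset.sum_add_distrib, ← mul_sum, Finset.sum_comm]
      congr 1
      · congr 1
        apply Finset.sum_congr rfl
        intro i _
        rw [Finset.sum_comm]
        apply Finset.sum_congr rfl
        intro j _
        exact hpl i j
      · rw [sum_const, nsmul_eq_mul, card_univ, hT]
        have e : (U : ℝ) ^ (d * D) = ((U : ℝ) ^ d) ^ (D - 2) * ((U : ℝ) ^ d) ^ 2 := by
          rw [← pow_add, show D - 2 + 2 = D by omega, ← pow_mul]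
        rw [e]; ring

end Pool.Agent.TH457.HT
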