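import Pool.Agent.TH457.HT.EngineR

/-!
# The engine for randomized programs with slow heads: final form
-/

set_option autoImplicit false

open Finset

namespace Pool.Agent.TH457.HT

variable {Λ : Type} {n k : ℕ}

/-- the number of the families for which the planted family is accepted -/
noncomputable def PL (P : DetProg Λ n k) {D d U : ℕ}
    (wd : (Fin D → Fin d → Fin U) → (Fin n → Λ)) (a b : Fin D) (i j : Fin d) : ℝ :=
  (((univ : Finset (Fin D → Fin d → Fin U)).filter (fun v => TT a b i j v ∈ AI P wd)).card : ℝ)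

theorem sum_ite_card {α : Type} [Fintype α] (s : Finset α) (Q : α → Prop) [DecidablePred Q] :
    ((s.filter Q).card : ℝ) = ∑ x ∈ s, if Q x then (1 : ℝ) else 0 := by
  rw [Finset.card_filter]; push_cast; rfl

/-- one program -/
theorem one_prog (P : DetProg Λ n k) (lam D d U T K S : ℕ) (hlam : 0 < lam) (hd : 0 < d)
    (hU : 0 < U) (wd : (Fin D → Fin d → Fin U) → (Fin n → Λ))
    (hloc : ∀ v v' (p : Fin n), (∀ h : (p : ℕ) / lam < D,
      v ⟨(p : ℕ) / lam, h⟩ = v' ⟨(p : ℕ) / lam, h⟩) → wd v p = wd v' p)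
    (hK1 : 12 * k * (T / lam + 1) < (K + 1) * D) (hK2 : 12 * k * K + 1 ≤ D)
    (hS : Fintype.card P.Cfg + 1 ≤ 2 ^ S) (Acc : Finset (Fin D → Fin d → Fin U))
    (hAcc : ∀ v ∈ Acc, P.Answers T (wd v) true) :
    (d : ℝ) ^ 2 * ((D * (D - 1) : ℕ) * (Acc.card : ℝ)) ≤
      2 * ∑ b : Fin D, ∑ a ∈ (univ : Finset (Fin D)).erase b,
        (2048 * ∑ i, ∑ j, PL P wd a b i j
          + (d : ℝ) ^ 2 * (((2 : ℝ) ^ (2 * (K * S))) * (eta d * (U : ℝ) ^ (d * D)))) := by
  classical
  have h1 : (D * (D - 1)) * Acc.card ≤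
      2 * ∑ b : Fin D, ∑ a ∈ (univ : Finset (Fin D)).erase b,
        (HH P lam D d U (2 * K) wd a b).card := by
    calc (D * (D - 1)) * Acc.card = ∑ v ∈ Acc, D * (D - 1) := by
          rw [sum_const, smul_eq_mul, mul_comm]
      _ ≤ ∑ v ∈ Acc, 2 * ∑ b : Fin D, (((univ : Finset (Fin D)).erase b).filter
          (fun a => v ∈ HH P lam D d U (2 * K) wd a b)).card :=
          Finset.sum_le_sum (fun v hv => many_pairs P lam D d U T K hlam wd v (hAcc v hv) hK1 hK2)
      _ = 2 * ∑ b : Fin D, ∑ v ∈ Acc, (((univ : Finset (Fin D)).erase b).filter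
          (fun a => v ∈ HH P lam D d U (2 * K) wd a b)).card := by
          rw [← mul_sum, Finset.sum_comm]
      _ = 2 * ∑ b : Fin D, ∑ a ∈ (univ : Finset (Fin D)).erase b, (Acc.filter
          (fun v => v ∈ HH P lam D d U (2 * K) wd a b)).card := by
          congr 1
          apply Finset.sum_congr rfl
          intro b _
          exact Finset.sum_card_bipartiteAbove_eq_sum_card_bipartiteBelow
            (r := fun (v : Fin D → Fin d → Fin U) (a : Fin D) =>
              v ∈ HH P lam D d U (2 * K) wd a b)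
      _ ≤ _ := by
          apply Nat.mul_le_mul_left
          apply Finset.sum_le_sum
          intro b _
          apply Finset.sum_le_sum
          intro a _
          apply card_le_card
          intro v hv
          exact (mem_filter.mp hv).2
  have hM : (((Fintype.card P.Cfg + 1) ^ (2 * K) : ℕ) : ℝ) ≤ (2 : ℝ) ^ (2 * (K * S)) := by
    have : (Fintype.card P.Cfg + 1) ^ (2 * K) ≤ 2 ^ (2 * (K * S)) := by
      calc (Fintype.card P.Cfg + 1) ^ (2 * K) ≤ (2 ^ S) ^ (2 * K) := Nat.pow_le_pow_left hS _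
        _ = 2 ^ (2 * (K * S)) := by rw [← pow_mul]; congr 1; ring
    exact_mod_cast this
  have hη : 0 ≤ eta d := by unfold eta; positivity
  have hUd : (0 : ℝ) ≤ (U : ℝ) ^ (d * D) := by positivity
  have h2 : ∀ b : Fin D, ∀ a ∈ (univ : Finset (Fin D)).erase b,
      (d : ℝ) ^ 2 * (HH P lam D d U (2 * K) wd a b).card ≤
      2048 * ∑ i, ∑ j, PL P wd a b i j
          + (d : ℝ) ^ 2 * (((2 : ℝ) ^ (2 * (K * S))) * (eta d * (U : ℝ) ^ (d * D))) := by
    intro b a ha
    have h3 := plantP P lam D d U (2 * K) hd hU wd hloc a b (mem_erase.mp ha).1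
    refine h3.trans ?_
    apply add_le_add (le_refl _)
    apply mul_le_mul_of_nonneg_left _ (by positivity)
    exact mul_le_mul_of_nonneg_right hM (mul_nonneg hη hUd)
  have h1' : (((D * (D - 1) : ℕ) : ℝ) * (Acc.card : ℝ)) ≤
      2 * ∑ b : Fin D, ∑ a ∈ (univ : Finset (Fin D)).erase b,
        ((HH P lam D d U (2 * K) wd a b).card : ℝ) := by
    exact_mod_cast h1
  calc (d : ℝ) ^ 2 * ((D * (D - 1) : ℕ) * (Acc.card : ℝ))
      ≤ (d : ℝ) ^ 2 * (2 * ∑ b : Fin D, ∑ a ∈ (univ : Finset (Fin D)).erase b,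
        ((HH P lam D d U (2 * K) wd a b).card : ℝ)) :=
        mul_le_mul_of_nonneg_left h1' (by positivity)
    _ = 2 * ∑ b : Fin D, ∑ a ∈ (univ : Finset (Fin D)).erase b,
        (d : ℝ) ^ 2 * ((HH P lam D d U (2 * K) wd a b).card : ℝ) := by
        rw [← mul_assoc, mul_comm ((d : ℝ) ^ 2) 2, mul_assoc, mul_sum]
        congr 1
        apply Finset.sum_congr rfl
        intro b _
        rw [mul_sum]
    _ ≤ _ := by
        apply mul_le_mul_of_nonneg_left _ (by norm_num)
        exact Finset.sum_le_sum (fun b _ => Finset.sum_le_sum (fun a ha => h2 b a ha))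

/-- **The engine for randomized programs.** -/
theorem engineR {Ω : Type} [Fintype Ω] (p : Ω → ℝ) (hp : ∀ ω, 0 ≤ p ω) (hp1 : ∑ ω, p ω = 1)
    (P : Ω → DetProg Λ n k) (lam D d U T K S : ℕ) (hlam : 0 < lam) (hd : 0 < d)
    (hU0 : 0 < U) (wd : (Fin D → Fin d → Fin U) → (Fin n → Λ))
    (hloc : ∀ v v' (p : Fin n), (∀ h : (p : ℕ) / lam < D,
      v ⟨(p : ℕ) / lam, h⟩ = v' ⟨(p : ℕ) / lam, h⟩) → wd v p = wd v' p)
    (hyes : ∀ v, Function.Injective (fun p : Fin D × Fin d => v p.1 p.2) →
      1 - 1 / 20000 ≤ prob p P T (wd v) true)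
    (hno : ∀ v, ¬ Function.Injective (fun p : Fin D × Fin d => v p.1 p.2) →
      1 - 1 / 20000 ≤ prob p P T (wd v) false)
    (hU : 2 * (D * d) ^ 2 ≤ U) (hD : 2 ≤ D)
    (hK1 : 12 * k * (T / lam + 1) < (K + 1) * D) (hK2 : 12 * k * K + 1 ≤ D)
    (hS : ∀ ω, Fintype.card (P ω).Cfg + 1 ≤ 2 ^ S) : d < 42 * (K * S) + 84 := by
  classical
  by_contra hcon
  push Not at hcon
  obtain ⟨V, hV⟩ : ∃ V : ℝ, V = (U : ℝ) ^ (d * D) := ⟨_, rfl⟩
  have hVpos : 0 < V := by rw [hV]; positivity
  have hcardV : ((univ : Finset (Fin D → Fin d → Fin U)).card : ℝ) = V := by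
    rw [card_univ, Fintype.card_fun, Fintype.card_fun, Fintype.card_fin, Fintype.card_fin,
      Fintype.card_fin, ← pow_mul, hV]
    push_cast; rfl
  obtain ⟨M, hM⟩ : ∃ M : ℝ, M = (2 : ℝ) ^ (2 * (K * S)) * eta d := ⟨_, rfl⟩
  obtain ⟨Acc, hAcc⟩ : ∃ Acc : Ω → Finset (Fin D → Fin d → Fin U),
      Acc = fun ω => univ.filter (fun v => (P ω).Answers T (wd v) true) := ⟨_, rfl⟩
  obtain ⟨c, hc⟩ : ∃ c : ℝ, c = ((D * (D - 1) : ℕ) : ℝ) := ⟨_, rfl⟩
  have hcpos : 0 < c := by
    rw [hc]
    have h1 : 0 < D * (D - 1) := Nat.mul_pos (by omega) (by omega)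
    exact_mod_cast h1
  -- the planted families are rejected
  have hfalse : ∀ v, ¬ Function.Injective (fun p : Fin D × Fin d => v p.1 p.2) →
      ∑ ω, p ω * (if v ∈ AI (P ω) wd then (1 : ℝ) else 0) ≤ 1 / 20000 := by
    intro v hv
    have h1 := hno v hv
    have h2 : ∑ ω, p ω * (if v ∈ AI (P ω) wd then (1 : ℝ) else 0) + prob p P T (wd v) false
        ≤ ∑ ω, p ω := by
      unfold prob
      rw [← Finset.sum_add_distrib]
      apply Finset.sum_le_sum
      intro ω _
      by_cases h3 : v ∈ AI (P ω) wd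
      · have h4 : ¬ (P ω).Answers T (wd v) false := by
          obtain ⟨T', t', -, h5, h6⟩ := (mem_AI (P ω) wd v).mp h3
          rintro ⟨t, -, h7, h8⟩
          rcases Nat.lt_trichotomy t t' with hlt | heq | hgt
          · rw [h6 t hlt] at h7; cases h7
          · rw [heq, h5] at h7; cases h7
          · rw [h8 t' hgt] at h5; cases h5
        rw [if_pos h3, if_neg h4]; simp
      · rw [if_neg h3, mul_zero, zero_add]
        split_ifs
        · exact le_rfl
        · exact hp ω
    rw [hp1] at h2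
    linarith
  have hPL : ∀ (b a : Fin D), a ∈ (univ : Finset (Fin D)).erase b → ∀ i j,
      ∑ ω, p ω * PL (P ω) wd a b i j ≤ 1 / 20000 * V := by
    intro b a ha i j
    have hab : a ≠ b := (mem_erase.mp ha).1
    have h1 : ∀ ω, PL (P ω) wd a b i j
        = ∑ v, (if TT a b i j v ∈ AI (P ω) wd then (1 : ℝ) else 0) := by
      intro ω
      unfold PL
      exact sum_ite_card _ _
    simp only [h1, mul_sum]
    rw [Finset.sum_comm]
    calc ∑ v, ∑ ω, p ω * (if TT a b i j v ∈ AI (P ω) wd then (1 : ℝ) else 0)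
        ≤ ∑ v : Fin D → Fin d → Fin U, (1 / 20000 : ℝ) := by
          apply Finset.sum_le_sum
          intro v _
          apply hfalse
          intro hinj
          have h2 : (fun p : Fin D × Fin d => TT a b i j v p.1 p.2) (a, i)
              = (fun p : Fin D × Fin d => TT a b i j v p.1 p.2) (b, j) := by
            simp only [TT, Function.update_self, Function.update_of_ne hab]
          exact hab (congrArg Prod.fst (hinj h2))
      _ = 1 / 20000 * V := by
          rw [sum_const, nsmul_eq_mul, hcardV]; ring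
  -- the families of distinct values are accepted
  have hAccE : (1 - 1 / 20000) * (V / 2) ≤ ∑ ω, p ω * ((Acc ω).card : ℝ) := by
    have h1 : ∑ ω, p ω * ((Acc ω).card : ℝ) = ∑ v, prob p P T (wd v) true := by
      unfold prob
      rw [Finset.sum_comm]
      apply Finset.sum_congr rfl
      intro ω _
      rw [hAcc]
      dsimp only
      rw [sum_ite_card, mul_sum]
      apply Finset.sum_congr rfl
      intro v _
      split_ifs <;> simp
    rw [h1]
    have h2 := card_inj D d U hU
    have h3 : V ≤ 2 * (((univ : Finset (Fin D → Fin d → Fin U)).filter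
        (fun v => Function.Injective (fun p : Fin D × Fin d => v p.1 p.2))).card : ℝ) := by
      rw [hV]; exact_mod_cast h2
    calc (1 - 1 / 20000) * (V / 2)
        ≤ (1 - 1 / 20000) * (((univ : Finset (Fin D → Fin d → Fin U)).filter
        (fun v => Function.Injective (fun p : Fin D × Fin d => v p.1 p.2))).card : ℝ) := by
          apply mul_le_mul_of_nonneg_left _ (by norm_num)
          linarith
      _ = ∑ v ∈ (univ : Finset (Fin D → Fin d → Fin U)).filter
        (fun v => Function.Injective (fun p : Fin D × Fin d => v p.1 p.2)),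
          (1 - 1 / 20000 : ℝ) := by
          rw [sum_const, nsmul_eq_mul]; ring
      _ ≤ ∑ v ∈ (univ : Finset (Fin D → Fin d → Fin U)).filter
        (fun v => Function.Injective (fun p : Fin D × Fin d => v p.1 p.2)),
          prob p P T (wd v) true :=
          Finset.sum_le_sum (fun v hv => hyes v (mem_filter.mp hv).2)
      _ ≤ ∑ v, prob p P T (wd v) true := by
          apply Finset.sum_le_sum_of_subset_of_nonneg (subset_univ _)
          intro v _ _
          unfold prob
          apply Finset.sum_nonneg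
          intro ω _
          split_ifs
          · exact hp ω
          · exact le_rfl
  -- all together
  have hone : ∀ ω, (d : ℝ) ^ 2 * (c * ((Acc ω).card : ℝ)) ≤
      2 * ∑ b : Fin D, ∑ a ∈ (univ : Finset (Fin D)).erase b,
        (2048 * ∑ i, ∑ j, PL (P ω) wd a b i j + (d : ℝ) ^ 2 * (M * V)) := by
    intro ω
    have h1 := one_prog (P ω) lam D d U T K S hlam hd hU0 wd hloc hK1 hK2 (hS ω) (Acc ω) (by
      intro v hv
      rw [hAcc] at hv
      exact (mem_filter.mp hv).2)
    rw [← hc, ← hV] at h1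
    have e : (2 : ℝ) ^ (2 * (K * S)) * (eta d * V) = M * V := by rw [hM]; ring
    rw [e] at h1
    exact h1
  have hsum : (d : ℝ) ^ 2 * (c * ∑ ω, p ω * ((Acc ω).card : ℝ)) ≤
      2 * (c * (2048 * ((d : ℝ) ^ 2 * (1 / 20000 * V)) + (d : ℝ) ^ 2 * (M * V))) := by
    calc (d : ℝ) ^ 2 * (c * ∑ ω, p ω * ((Acc ω).card : ℝ))
        = ∑ ω, p ω * ((d : ℝ) ^ 2 * (c * ((Acc ω).card : ℝ))) := by
          rw [mul_sum, mul_sum]
          apply Finset.sum_congr rfl
          intro ω _
          ring
      _ ≤ ∑ ω, p ω * (2 * ∑ b : Fin D, ∑ a ∈ (univ : Finset (Fin D)).erase b,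
        (2048 * ∑ i, ∑ j, PL (P ω) wd a b i j + (d : ℝ) ^ 2 * (M * V))) :=
          Finset.sum_le_sum (fun ω _ => mul_le_mul_of_nonneg_left (hone ω) (hp ω))
      _ = 2 * ∑ b : Fin D, ∑ a ∈ (univ : Finset (Fin D)).erase b,
        (2048 * ∑ i, ∑ j, ∑ ω, p ω * PL (P ω) wd a b i j + (d : ℝ) ^ 2 * (M * V)) := by
          have e1 : ∀ ω, p ω * (2 * ∑ b : Fin D, ∑ a ∈ (univ : Finset (Fin D)).erase b,
              (2048 * ∑ i, ∑ j, PL (P ω) wd a b i j + (d : ℝ) ^ 2 * (M * V)))
              = ∑ b : Fin D, ∑ a ∈ (univ : Finset (Fin D)).erase b,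
              (2 * (2048 * ∑ i, ∑ j, p ω * PL (P ω) wd a b i j
                + p ω * ((d : ℝ) ^ 2 * (M * V)))) := by
            intro ω
            rw [mul_sum, mul_sum]
            apply Finset.sum_congr rfl
            intro b _
            rw [mul_sum, mul_sum]
            apply Finset.sum_congr rfl
            intro a _
            have e2 : ∑ i, ∑ j, p ω * PL (P ω) wd a b i j
                = p ω * ∑ i, ∑ j, PL (P ω) wd a b i j := by
              rw [mul_sum]
              apply Finset.sum_congr rfl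
              intro i _
              rw [mul_sum]
            rw [e2]; ring
          rw [Finset.sum_congr rfl (fun ω _ => e1 ω), Finset.sum_comm, mul_sum]
          apply Finset.sum_congr rfl
          intro b _
          rw [Finset.sum_comm, mul_sum]
          apply Finset.sum_congr rfl
          intro a _
          rw [← mul_sum, Finset.sum_add_distrib, ← mul_sum, ← sum_mul, hp1, one_mul,
            Finset.sum_comm]
          congr 3
          apply Finset.sum_congr rfl
          intro i _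
          rw [Finset.sum_comm]
      _ ≤ 2 * ∑ b : Fin D, ∑ a ∈ (univ : Finset (Fin D)).erase b,
        (2048 * ((d : ℝ) ^ 2 * (1 / 20000 * V)) + (d : ℝ) ^ 2 * (M * V)) := by
          apply mul_le_mul_of_nonneg_left _ (by norm_num)
          apply Finset.sum_le_sum
          intro b _
          apply Finset.sum_le_sum
          intro a ha
          apply add_le_add _ (le_refl _)
          apply mul_le_mul_of_nonneg_left _ (by norm_num)
          calc ∑ i, ∑ j, ∑ ω, p ω * PL (P ω) wd a b i j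
              ≤ ∑ i : Fin d, ∑ j : Fin d, (1 / 20000 * V) :=
                Finset.sum_le_sum (fun i _ => Finset.sum_le_sum (fun j _ => hPL b a ha i j))
            _ = (d : ℝ) ^ 2 * (1 / 20000 * V) := by
                rw [sum_const, sum_const, card_univ, Fintype.card_fin, nsmul_eq_mul,
                  nsmul_eq_mul]; ring
      _ = 2 * (c * (2048 * ((d : ℝ) ^ 2 * (1 / 20000 * V)) + (d : ℝ) ^ 2 * (M * V))) := by
          have e3 : ∀ b : Fin D, ∑ a ∈ (univ : Finset (Fin D)).erase b,
              (2048 * ((d : ℝ) ^ 2 * (1 / 20000 * V)) + (d : ℝ) ^ 2 * (M * V))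
              = ((D - 1 : ℕ) : ℝ) * (2048 * ((d : ℝ) ^ 2 * (1 / 20000 * V))
                + (d : ℝ) ^ 2 * (M * V)) := by
            intro b
            rw [sum_const, nsmul_eq_mul, card_erase_of_mem (mem_univ _), card_univ,
              Fintype.card_fin]
          rw [Finset.sum_congr rfl (fun b _ => e3 b), sum_const, nsmul_eq_mul, card_univ,
            Fintype.card_fin, hc]
          push_cast
          ring
  have hMle : M ≤ 1 / 8 := by
    rw [hM]
    unfold eta
    have h1 : ((967 : ℝ) / 1000) ^ d ≤ (1 / 2) ^ (2 * (K * S) + 4) := by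
      calc ((967 : ℝ) / 1000) ^ d ≤ (967 / 1000) ^ (21 * (2 * (K * S) + 4)) :=
            pow_le_pow_of_le_one (by norm_num) (by norm_num) (by omega)
        _ = ((967 / 1000) ^ 21) ^ (2 * (K * S) + 4) := by rw [pow_mul]
        _ ≤ (1 / 2) ^ (2 * (K * S) + 4) := by
            apply pow_le_pow_left₀ (by positivity)
            norm_num
    calc (2 : ℝ) ^ (2 * (K * S)) * (2 * ((967 : ℝ) / 1000) ^ d)
        ≤ (2 : ℝ) ^ (2 * (K * S)) * (2 * (1 / 2) ^ (2 * (K * S) + 4)) := by gcongr
      _ = (2 * (1 / 2)) ^ (2 * (K * S)) * (2 * (1 / 2) ^ 4) := by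
          rw [pow_add, mul_pow]; ring
      _ = 1 / 8 := by norm_num
  have hdpos : (0 : ℝ) < (d : ℝ) ^ 2 := by positivity
  obtain ⟨E, hE⟩ : ∃ E : ℝ, E = ∑ ω, p ω * ((Acc ω).card : ℝ) := ⟨_, rfl⟩
  rw [← hE] at hsum hAccE
  have h5 : (d : ℝ) ^ 2 * c * E ≤ (d : ℝ) ^ 2 * c * (2 * (2048 / 20000 * V + M * V)) := by
    calc (d : ℝ) ^ 2 * c * E = (d : ℝ) ^ 2 * (c * E) := by ring
      _ ≤ 2 * (c * (2048 * ((d : ℝ) ^ 2 * (1 / 20000 * V)) + (d : ℝ) ^ 2 * (M * V))) := hsum
      _ = (d : ℝ) ^ 2 * c * (2 * (2048 / 20000 * V + M * V)) := by ring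
  have h6 : E ≤ 2 * (2048 / 20000 * V + M * V) :=
    le_of_mul_le_mul_left h5 (mul_pos hdpos hcpos)
  have h7 : M * V ≤ 1 / 8 * V := mul_le_mul_of_nonneg_right hMle hVpos.le
  nlinarith

end Pool.Agent.TH457.HT
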