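import Pool.Agent.TH457.HT.EngineD

/-!
# The engine for randomized programs with slow heads: averages
-/

set_option autoImplicit false

open Finset

namespace Pool.Agent.TH457.HT

variable {Λ : Type} {n k : ℕ}

open Classical in
/-- the families with a canonical transcript of length at most `R` -/
noncomputable def HH (P : DetProg Λ n k) (lam D d U R : ℕ)
    (wd : (Fin D → Fin d → Fin U) → (Fin n → Λ)) (a b : Fin D) :
    Finset (Fin D → Fin d → Fin U) :=
  univ.filter (fun v => ∃ τ : List P.Cfg, τ.length ≤ R ∧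
    Can P lam a b (wd v) false P.start τ)

open Classical in
/-- the families with the answer `true` -/
noncomputable def AI (P : DetProg Λ n k) {D d U : ℕ}
    (wd : (Fin D → Fin d → Fin U) → (Fin n → Λ)) : Finset (Fin D → Fin d → Fin U) :=
  univ.filter (fun v => ∃ T, P.Answers T (wd v) true)

theorem mem_HH (P : DetProg Λ n k) (lam D d U R : ℕ)
    (wd : (Fin D → Fin d → Fin U) → (Fin n → Λ)) (a b : Fin D) (v : Fin D → Fin d → Fin U) :
    v ∈ HH P lam D d U R wd a b ↔ ∃ τ : List P.Cfg, τ.length ≤ R ∧
      Can P lam a b (wd v) false P.start τ := by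
  classical
  simp only [HH, mem_filter, mem_univ, true_and]

theorem mem_AI (P : DetProg Λ n k) {D d U : ℕ}
    (wd : (Fin D → Fin d → Fin U) → (Fin n → Λ)) (v : Fin D → Fin d → Fin U) :
    v ∈ AI P wd ↔ ∃ T, P.Answers T (wd v) true := by
  classical
  simp only [AI, mem_filter, mem_univ, true_and]

theorem HH_sub (P : DetProg Λ n k) (lam D d U R : ℕ)
    (wd : (Fin D → Fin d → Fin U) → (Fin n → Λ)) (a b : Fin D) :
    HH P lam D d U R wd a b ⊆ AI P wd := by
  intro v hv
  obtain ⟨τ, -, h⟩ := (mem_HH P lam D d U R wd a b v).mp hv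
  obtain ⟨t, h1, h2⟩ := Can_answers P lam a b (wd v) τ false P.start h
  exact (mem_AI P wd v).mpr ⟨t, t, le_rfl, h1, h2⟩

/-- planted collisions for a pair of zones -/
theorem plantP (P : DetProg Λ n k) (lam D d U R : ℕ) (hd : 0 < d) (hU : 0 < U)
    (wd : (Fin D → Fin d → Fin U) → (Fin n → Λ))
    (hloc : ∀ v v' (p : Fin n), (∀ h : (p : ℕ) / lam < D,
      v ⟨(p : ℕ) / lam, h⟩ = v' ⟨(p : ℕ) / lam, h⟩) → wd v p = wd v' p)
    (a b : Fin D) (hab : a ≠ b) :
    (d : ℝ) ^ 2 * (HH P lam D d U R wd a b).card ≤ 2048 * ∑ i, ∑ j,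
      (((univ : Finset (Fin D → Fin d → Fin U)).filter (fun v => TT a b i j v ∈ AI P wd)).card : ℝ)
      + (d : ℝ) ^ 2 * (((Fintype.card P.Cfg + 1) ^ R : ℕ) * (eta d * (U : ℝ) ^ (d * D))) := by
  classical
  have hex : ∀ v ∈ HH P lam D d U R wd a b, ∃ τ : List P.Cfg, τ.length ≤ R ∧
      Can P lam a b (wd v) false P.start τ := fun v hv => (mem_HH P lam D d U R wd a b v).mp hv
  choose! τ hlen hcan using hex
  have h := plantH (κ := Fin R → Option P.Cfg) hd hU (HH P lam D d U R wd a b)
    (fun v i => (τ v)[(i : ℕ)]?) a b hab (by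
      intro x hx y hy hkey hrest
      have e := getElem?_ext (R := R) (hlen x hx) (hlen y hy) hkey
      have hz : Can P lam a b (wd (Function.update x b (y b))) false P.start (τ x) := by
        refine Can_mix P lam a b (wd x) (wd y) _ ?_ ?_ (τ x) false P.start (hcan x hx)
          (by rw [e]; exact hcan y hy)
        · intro p hp
          apply hloc
          intro h
          apply Function.update_of_ne
          intro hh
          exact hp (congrArg Fin.val hh)
        · intro p hp
          apply hloc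
          intro h
          by_cases hpb : (⟨(p : ℕ) / lam, h⟩ : Fin D) = b
          · rw [hpb, Function.update_self]
          · rw [Function.update_of_ne hpb]
            apply hrest _ _ hpb
            intro hh
            exact hp (congrArg Fin.val hh)
      have hzH : Function.update x b (y b) ∈ HH P lam D d U R wd a b :=
        (mem_HH P lam D d U R wd a b _).mpr ⟨τ x, hlen x hx, hz⟩
      refine ⟨hzH, ?_⟩
      rw [Can_unique P lam a b _ _ _ false P.start (hcan _ hzH) hz])
  rw [Fintype.card_fun, Fintype.card_fin, Fintype.card_option] at h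
  have hmono : ∀ i j, ((((univ : Finset (Fin D → Fin d → Fin U)).filter
      (fun v => TT a b i j v ∈ HH P lam D d U R wd a b)).card : ℕ) : ℝ)
      ≤ (((univ : Finset (Fin D → Fin d → Fin U)).filter
      (fun v => TT a b i j v ∈ AI P wd)).card : ℝ) := by
    intro i j
    have : ((univ : Finset (Fin D → Fin d → Fin U)).filter
      (fun v => TT a b i j v ∈ HH P lam D d U R wd a b)).card
      ≤ ((univ : Finset (Fin D → Fin d → Fin U)).filter
      (fun v => TT a b i j v ∈ AI P wd)).card := by
      apply card_le_card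
      intro v hv
      rw [mem_filter] at hv ⊢
      exact ⟨hv.1, HH_sub P lam D d U R wd a b hv.2⟩
    exact_mod_cast this
  refine h.trans ?_
  apply add_le_add_left
  apply mul_le_mul_of_nonneg_left _ (by norm_num)
  exact Finset.sum_le_sum (fun i _ => Finset.sum_le_sum (fun j _ => hmono i j))

/-- for an accepted family most pairs of zones have short transcripts -/
theorem many_pairs (P : DetProg Λ n k) (lam D d U T K : ℕ) (hlam : 0 < lam)
    (wd : (Fin D → Fin d → Fin U) → (Fin n → Λ)) (v : Fin D → Fin d → Fin U)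
    (hv : P.Answers T (wd v) true)
    (hK1 : 12 * k * (T / lam + 1) < (K + 1) * D) (hK2 : 12 * k * K + 1 ≤ D) :
    D * (D - 1) ≤ 2 * ∑ b : Fin D, (((univ : Finset (Fin D)).erase b).filter
      (fun a => v ∈ HH P lam D d U (2 * K) wd a b)).card := by
  classical
  obtain ⟨Tch, hT1, hT2⟩ := exists_can P lam D T hlam (wd v) hv
  obtain ⟨N, hN⟩ : ∃ N, N = T / lam + 1 := ⟨_, rfl⟩
  rw [← hN] at hK1 hT2
  obtain ⟨Kb, hKb⟩ : ∃ Kb : Fin D → ℕ,
      Kb = fun b => ((range N).filter (fun i => b ∈ Tch i)).card := ⟨_, rfl⟩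
  have hsumK : ∑ b : Fin D, Kb b ≤ N * (3 * k) := by
    have h1 : ∑ i ∈ range N, ((univ : Finset (Fin D)).filter (fun b => b ∈ Tch i)).card
        = ∑ b : Fin D, ((range N).filter (fun i => b ∈ Tch i)).card :=
      Finset.sum_card_bipartiteAbove_eq_sum_card_bipartiteBelow (r := fun i b => b ∈ Tch i)
    rw [hKb]
    simp only
    rw [← h1]
    refine (Finset.sum_le_sum (g := fun _ => 3 * k) ?_).trans (by simp)
    intro i _
    have e : (univ : Finset (Fin D)).filter (fun b => b ∈ Tch i) = Tch i := by
      ext z; simp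
    rw [e]
    exact hT1 i
  have hfew : 4 * ((univ : Finset (Fin D)).filter (fun b => K < Kb b)).card ≤ D := by
    have h1 : (K + 1) * ((univ : Finset (Fin D)).filter (fun b => K < Kb b)).card
        ≤ ∑ b : Fin D, Kb b := by
      calc (K + 1) * ((univ : Finset (Fin D)).filter (fun b => K < Kb b)).card
          = ∑ b ∈ (univ : Finset (Fin D)).filter (fun b => K < Kb b), (K + 1) := by
            rw [sum_const, smul_eq_mul, mul_comm]
        _ ≤ ∑ b ∈ (univ : Finset (Fin D)).filter (fun b => K < Kb b), Kb b :=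
            Finset.sum_le_sum (fun b hb => (mem_filter.mp hb).2)
        _ ≤ ∑ b : Fin D, Kb b :=
            Finset.sum_le_sum_of_subset (filter_subset _ _)
    have h2 := h1.trans hsumK
    have h3 : (K + 1) * (4 * ((univ : Finset (Fin D)).filter (fun b => K < Kb b)).card)
        < (K + 1) * D := by
      calc (K + 1) * (4 * ((univ : Finset (Fin D)).filter (fun b => K < Kb b)).card)
          = 4 * ((K + 1) * ((univ : Finset (Fin D)).filter (fun b => K < Kb b)).card) := by
            ring
        _ ≤ 4 * (N * (3 * k)) := Nat.mul_le_mul_left _ h2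
        _ = 12 * k * N := by ring
        _ < (K + 1) * D := hK1
    exact (Nat.lt_of_mul_lt_mul_left h3).le
  have hc : ((univ : Finset (Fin D)).filter (fun b => K < Kb b)).card
      + ((univ : Finset (Fin D)).filter (fun b => ¬ K < Kb b)).card = D := by
    have := Finset.card_filter_add_card_filter_not (s := (univ : Finset (Fin D)))
      (fun b => K < Kb b)
    rwa [card_univ, Fintype.card_fin] at this
  have hgood : ∀ b ∈ (univ : Finset (Fin D)).filter (fun b => ¬ K < Kb b),
      3 * (D - 1) ≤ 4 * (((univ : Finset (Fin D)).erase b).filter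
        (fun a => v ∈ HH P lam D d U (2 * K) wd a b)).card := by
    intro b hb
    have hbK : Kb b ≤ K := by
      have := (mem_filter.mp hb).2; omega
    have hsub : ((univ : Finset (Fin D)).erase b).filter
        (fun a => ∃ i < N, a ∈ Tch i ∧ b ∈ Tch i) ⊆
        ((range N).filter (fun i => b ∈ Tch i)).biUnion Tch := by
      intro a ha
      obtain ⟨-, i, hi, h1, h2⟩ := mem_filter.mp ha
      exact mem_biUnion.mpr ⟨i, mem_filter.mpr ⟨mem_range.mpr hi, h2⟩, h1⟩
    have h1 : (((univ : Finset (Fin D)).erase b).filter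
        (fun a => ∃ i < N, a ∈ Tch i ∧ b ∈ Tch i)).card ≤ Kb b * (3 * k) := by
      refine (card_le_card hsub).trans (card_biUnion_le.trans ?_)
      refine (Finset.sum_le_sum (g := fun _ => 3 * k) (fun i _ => hT1 i)).trans ?_
      rw [sum_const, smul_eq_mul, hKb]
    have h2 : Kb b * (3 * k) ≤ K * (3 * k) := Nat.mul_le_mul_right _ hbK
    have h3 : 4 * (K * (3 * k)) = 12 * k * K := by ring
    have h4 := Finset.card_filter_add_card_filter_not (s := (univ : Finset (Fin D)).erase b)
      (fun a => ∃ i < N, a ∈ Tch i ∧ b ∈ Tch i)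
    rw [card_erase_of_mem (mem_univ _), card_univ, Fintype.card_fin] at h4
    have h5 : (((univ : Finset (Fin D)).erase b).filter
        (fun a => ¬ ∃ i < N, a ∈ Tch i ∧ b ∈ Tch i)).card
        ≤ (((univ : Finset (Fin D)).erase b).filter
        (fun a => v ∈ HH P lam D d U (2 * K) wd a b)).card := by
      apply card_le_card
      intro a ha
      obtain ⟨ha1, ha2⟩ := mem_filter.mp ha
      refine mem_filter.mpr ⟨ha1, ?_⟩
      obtain ⟨τ, h6, h7⟩ := hT2 a b (fun i hi h1 h2 => ha2 ⟨i, hi, h1, h2⟩)
      refine (mem_HH P lam D d U (2 * K) wd a b v).mpr ⟨τ, h7.trans ?_, h6⟩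
      have := hbK
      rw [hKb] at this
      simp only at this
      omega
    omega
  have h6 : ((univ : Finset (Fin D)).filter (fun b => ¬ K < Kb b)).card * (3 * (D - 1))
      ≤ 4 * ∑ b : Fin D, (((univ : Finset (Fin D)).erase b).filter
      (fun a => v ∈ HH P lam D d U (2 * K) wd a b)).card := by
    calc ((univ : Finset (Fin D)).filter (fun b => ¬ K < Kb b)).card * (3 * (D - 1))
        = ∑ b ∈ (univ : Finset (Fin D)).filter (fun b => ¬ K < Kb b), 3 * (D - 1) := by
          rw [sum_const, smul_eq_mul]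
      _ ≤ ∑ b ∈ (univ : Finset (Fin D)).filter (fun b => ¬ K < Kb b),
          4 * (((univ : Finset (Fin D)).erase b).filter
          (fun a => v ∈ HH P lam D d U (2 * K) wd a b)).card := Finset.sum_le_sum hgood
      _ ≤ ∑ b : Fin D, 4 * (((univ : Finset (Fin D)).erase b).filter
          (fun a => v ∈ HH P lam D d U (2 * K) wd a b)).card :=
          Finset.sum_le_sum_of_subset (filter_subset _ _)
      _ = _ := by rw [mul_sum]
  have h7 : 3 * D ≤ 4 * ((univ : Finset (Fin D)).filter (fun b => ¬ K < Kb b)).card := by omega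
  have h8 : 3 * D * (3 * (D - 1)) ≤ 4 * (4 * ∑ b : Fin D, (((univ : Finset (Fin D)).erase b).filter
      (fun a => v ∈ HH P lam D d U (2 * K) wd a b)).card) := by
    calc 3 * D * (3 * (D - 1))
        ≤ 4 * ((univ : Finset (Fin D)).filter (fun b => ¬ K < Kb b)).card * (3 * (D - 1)) :=
          Nat.mul_le_mul_right _ h7
      _ = 4 * (((univ : Finset (Fin D)).filter (fun b => ¬ K < Kb b)).card * (3 * (D - 1))) := by
          ring
      _ ≤ _ := Nat.mul_le_mul_left _ h6
  have h9 : 3 * D * (3 * (D - 1)) = 9 * (D * (D - 1)) := by ring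
  omega

end Pool.Agent.TH457.HT
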