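import Pool.Agent.TH457.HT.Select
import Pool.Agent.TH457.HT.EvenDefs

/-!
# Even multiplicities: the lower bound
-/

set_option autoImplicit false

open Finset

namespace Pool.Agent.TH457.HT

/-- the values as a function on numbers -/
def vv {D M : ℕ} (v : Fin D → Fin M → ZMod 2) (z i : ℕ) : ZMod 2 :=
  if h : z < D ∧ i < M then v ⟨z, h.1⟩ ⟨i, h.2⟩ else 0

/-- the number in cell `c` -/
def cell {D M : ℕ} (v : Fin D → Fin M → ZMod 2) (c : ℕ) : ℕ :=
  if vv v (c / M) (c % M) = 1 then c % M + 1 else 0

/-- the word -/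
def EWd {D M : ℕ} (N L : ℕ) (v : Fin D → Fin M → ZMod 2) (p : Fin (N * L)) : Bool :=
  Nat.testBit (cell v ((p : ℕ) / L)) ((p : ℕ) % L)

theorem cell_lt {D M : ℕ} (hM : 0 < M) (v : Fin D → Fin M → ZMod 2) (c : ℕ) :
    cell v c < M + 1 := by
  unfold cell
  have := Nat.mod_lt c hM
  split_ifs <;> omega

theorem blk_EWd {D M N L : ℕ} (v : Fin D → Fin M → ZMod 2) (c : Fin N) (o : Fin L) :
    blk (EWd N L v) c o = Nat.testBit (cell v c) o := by
  unfold blk EWd
  have hL : 0 < L := by have := o.2; omega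
  have h1 : ((finProdFinEquiv (c, o) : Fin (N * L)) : ℕ) = (o : ℕ) + L * c := rfl
  rw [h1]
  have h2 : ((o : ℕ) + L * c) / L = c := by
    rw [Nat.add_mul_div_left _ _ hL, Nat.div_eq_of_lt o.2, zero_add]
  have h3 : ((o : ℕ) + L * c) % L = o := by
    rw [Nat.add_mul_mod_self_left, Nat.mod_eq_of_lt o.2]
  rw [h2, h3]

theorem blk_eq_iff {D M N L : ℕ} (hM : 0 < M) (hML : M + 1 ≤ 2 ^ L) (v : Fin D → Fin M → ZMod 2)
    (c : Fin N) (e : ℕ) (he : e < 2 ^ L) (u : Fin L → Bool) (hu : ∀ o : Fin L, u o = Nat.testBit e o) :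
    blk (EWd N L v) c = u ↔ cell v c = e := by
  constructor
  · intro h
    apply Nat.eq_of_testBit_eq
    intro i
    rcases Nat.lt_or_ge i L with hi | hi
    · have h1 := congrFun h ⟨i, hi⟩
      rw [blk_EWd, hu] at h1
      exact h1
    · have h1 : cell v c < 2 ^ i := ((cell_lt hM v c).trans_le hML).trans_le
        (Nat.pow_le_pow_right (by norm_num) hi)
      have h2 : e < 2 ^ i := he.trans_le (Nat.pow_le_pow_right (by norm_num) hi)
      rw [Nat.testBit_lt_two_pow h1, Nat.testBit_lt_two_pow h2]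
  · intro h
    funext o
    rw [blk_EWd, hu, h]

theorem cell_eq_succ {D M : ℕ} (hM : 0 < M) (v : Fin D → Fin M → ZMod 2) (c i : ℕ)
    (hi : i < M) : cell v c = i + 1 ↔ c % M = i ∧ vv v (c / M) i = 1 := by
  unfold cell
  constructor
  · intro h
    by_cases h1 : vv v (c / M) (c % M) = 1
    · rw [if_pos h1] at h
      have h2 : c % M = i := by omega
      rw [h2] at h1
      exact ⟨h2, h1⟩
    · rw [if_neg h1] at h; omega
  · rintro ⟨h1, h2⟩
    rw [h1, if_pos h2]

theorem zmod2 (a : ZMod 2) : a = if a = 1 then 1 else 0 := by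
  revert a; decide

theorem even_iff_zmod (n : ℕ) : Even n ↔ ((n : ℕ) : ZMod 2) = 0 := by
  rw [CharP.cast_eq_zero_iff (ZMod 2) 2 n, even_iff_two_dvd]

theorem count_cell {D M N : ℕ} (hM : 0 < M) (hDM : D * M ≤ N) (v : Fin D → Fin M → ZMod 2)
    (i : Fin M) : ((((univ : Finset (Fin N)).filter
      (fun c : Fin N => cell v (c : ℕ) = (i : ℕ) + 1)).card : ℕ) : ZMod 2) = ∑ z, v z i := by
  have h1 : ((univ : Finset (Fin N)).filter (fun c : Fin N => cell v (c : ℕ) = (i : ℕ) + 1)).card
      = ((univ : Finset (Fin D)).filter (fun z => v z i = 1)).card := by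
    have hlt : ∀ z : Fin D, (z : ℕ) * M + i < N := by
      intro z
      calc (z : ℕ) * M + i < (z : ℕ) * M + M := by have := i.2; omega
        _ = ((z : ℕ) + 1) * M := by ring
        _ ≤ D * M := Nat.mul_le_mul_right _ z.2
        _ ≤ N := hDM
    symm
    apply Finset.card_bij (fun (z : Fin D) _ => (⟨(z : ℕ) * M + i, hlt z⟩ : Fin N))
    · intro z hz
      have hz1 := (mem_filter.mp hz).2
      refine mem_filter.mpr ⟨mem_univ _, ?_⟩
      rw [cell_eq_succ hM v _ _ i.2]
      have h2 : ((z : ℕ) * M + i) / M = z := by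
        rw [mul_comm, Nat.mul_add_div hM, Nat.div_eq_of_lt i.2, add_zero]
      have h3 : ((z : ℕ) * M + i) % M = i := by
        rw [mul_comm, Nat.mul_add_mod, Nat.mod_eq_of_lt i.2]
      simp only [h2, h3]
      refine ⟨trivial, ?_⟩
      unfold vv
      rw [dif_pos ⟨z.2, i.2⟩]
      exact hz1
    · intro z _ z' _ h
      have h2 := congrArg Fin.val h
      simp only at h2
      apply Fin.ext
      exact Nat.eq_of_mul_eq_mul_right hM (by omega)
    · intro c hc
      have hc1 := (mem_filter.mp hc).2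
      rw [cell_eq_succ hM v _ _ i.2] at hc1
      obtain ⟨h2, h3⟩ := hc1
      unfold vv at h3
      by_cases h4 : (c : ℕ) / M < D ∧ (i : ℕ) < M
      · rw [dif_pos h4] at h3
        refine ⟨⟨(c : ℕ) / M, h4.1⟩, mem_filter.mpr ⟨mem_univ _, h3⟩, ?_⟩
        apply Fin.ext
        simp only
        rw [← h2]
        have := Nat.div_add_mod (c : ℕ) M
        rw [mul_comm] at this
        exact this
      · rw [dif_neg h4] at h3
        exact absurd h3 (by decide)
  rw [h1, Finset.card_filter]
  push_cast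
  apply Finset.sum_congr rfl
  intro z _
  exact (zmod2 (v z i)).symm

/-- **The word has even multiplicities iff the sum is zero.** -/
theorem allEven_iff {D M N L : ℕ} (hM : 0 < M) (hML : M + 1 ≤ 2 ^ L) (hDM : D * M ≤ N)
    (hN : Even N) (v : Fin D → Fin M → ZMod 2) :
    AllEven (EWd N L v) ↔ ∑ z, v z = 0 := by
  constructor
  · intro h
    funext i
    rw [Finset.sum_apply, Pi.zero_apply, ← count_cell hM hDM v i, ← even_iff_zmod]
    have h1 := h (fun o : Fin L => Nat.testBit ((i : ℕ) + 1) o)
    have e : (univ : Finset (Fin N)).filter (fun c : Fin N => blk (EWd N L v) c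
        = fun o : Fin L => Nat.testBit ((i : ℕ) + 1) o)
        = (univ : Finset (Fin N)).filter (fun c : Fin N => cell v (c : ℕ) = (i : ℕ) + 1) := by
      apply Finset.filter_congr
      intro c _
      exact blk_eq_iff hM hML v c _ (by have := i.2; omega) _ (fun o => rfl)
    rw [e] at h1
    exact h1
  · intro h u
    have hpos : ∀ i < M, Even ((univ : Finset (Fin N)).filter
        (fun c : Fin N => cell v (c : ℕ) = i + 1)).card := by
      intro i hi
      have h1 := count_cell hM hDM v ⟨i, hi⟩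
      have h2 := congrFun h ⟨i, hi⟩
      rw [Finset.sum_apply, Pi.zero_apply] at h2
      rw [h2, ← even_iff_zmod] at h1
      exact h1
    have hzero : Even ((univ : Finset (Fin N)).filter (fun c : Fin N => cell v (c : ℕ) = 0)).card := by
      have h1 := Finset.card_eq_sum_card_fiberwise (s := (univ : Finset (Fin N)))
        (f := fun c : Fin N => cell v (c : ℕ)) (t := range (M + 1))
        (fun c _ => by
          simp only [coe_range, Set.mem_Iio]
          exact cell_lt hM v c)
      rw [card_univ, Fintype.card_fin, Finset.sum_range_succ'] at h1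
      have h2 : Even (∑ i ∈ range M, ((univ : Finset (Fin N)).filter
          (fun c : Fin N => cell v (c : ℕ) = i + 1)).card) :=
        Finset.even_sum _ (fun i hi => hpos i (mem_range.mp hi))
      rw [h1] at hN
      exact (Nat.even_add.mp hN).mp h2
    by_cases hu : ∃ c₀ : Fin N, blk (EWd N L v) c₀ = u
    · obtain ⟨c₀, hc₀⟩ := hu
      have hlt := cell_lt hM v c₀
      have e : (univ : Finset (Fin N)).filter (fun c : Fin N => blk (EWd N L v) c = u)
          = (univ : Finset (Fin N)).filter (fun c : Fin N => cell v (c : ℕ) = cell v c₀) := by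
        apply Finset.filter_congr
        intro c _
        exact blk_eq_iff hM hML v c _ (by omega) _ (fun o => by rw [← hc₀, blk_EWd])
      rw [e]
      rcases Nat.eq_zero_or_pos (cell v c₀) with h0 | h0
      · rw [h0]; exact hzero
      · obtain ⟨i, hi⟩ : ∃ i, cell v c₀ = i + 1 := ⟨cell v c₀ - 1, by omega⟩
        rw [hi]
        exact hpos i (by omega)
    · have e : (univ : Finset (Fin N)).filter (fun c : Fin N => blk (EWd N L v) c = u) = ∅ := by
        rw [Finset.filter_eq_empty_iff]
        intro c _ hc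
        exact hu ⟨c, hc⟩
      rw [e]
      simp

/-- **Even multiplicities: nondeterministic programs with slow heads.** -/
theorem even_lb (N L : ℕ) (hN : Even N) (hL : 1 ≤ L) (h4 : 4 ^ L ≤ N) {k : ℕ} (hk : 1 ≤ k)
    (P : HeadProg Bool (N * L) k) (T S : ℕ) (hS : Fintype.card P.Q * (N * L) ^ k ≤ 2 ^ S)
    (hsound : ∀ x : Fin (N * L) → Bool, P.Accepts x → AllEven x)
    (hacc : ∀ x : Fin (N * L) → Bool, AllEven x → P.AcceptsIn T x) :
    2 ^ L * (N * L) ≤ 301 * ((k + S + 1) * (k * T + N * L)) := by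
  by_contra hcon
  push Not at hcon
  obtain ⟨n, hn⟩ : ∃ n, n = N * L := ⟨_, rfl⟩
  have hN0 : 0 < N := by
    have : 0 < 4 ^ L := by positivity
    omega
  have hn0 : 0 < n := by rw [hn]; positivity
  obtain ⟨q, hq⟩ : ∃ q, q = k * T / n + 1 := ⟨_, rfl⟩
  have hq1 : 1 ≤ q := by rw [hq]; exact Nat.le_add_left 1 _
  have hkT : k * T < n * q := by
    rw [hq]
    have h1 := Nat.div_add_mod (k * T) n
    have h2 := Nat.mod_lt (k * T) hn0
    calc k * T = n * (k * T / n) + k * T % n := h1.symm
      _ < n * (k * T / n) + n := by omega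
      _ = n * (k * T / n + 1) := by ring
  have hnq : n * q ≤ k * T + n := by
    rw [hq, mul_add, mul_one]
    have := Nat.mul_div_le (k * T) n
    omega
  obtain ⟨M, hM⟩ : ∃ M, 2 ^ L = M + 1 := ⟨2 ^ L - 1, by have : 0 < 2 ^ L := by positivity
                                                        omega⟩
  rw [← hn, hM] at hcon
  have hMq : 301 * ((k + S + 1) * q) < M + 1 := by
    apply Nat.lt_of_mul_lt_mul_right (a := n)
    calc 301 * ((k + S + 1) * q) * n = 301 * ((k + S + 1) * (n * q)) := by ring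
      _ ≤ 301 * ((k + S + 1) * (k * T + n)) := by gcongr
      _ < (M + 1) * n := hcon
  have hkq1 : k * q ≤ (k + S + 1) * q := Nat.mul_le_mul_right _ (by omega)
  have hSq1 : (S + 1) * q ≤ (k + S + 1) * q := Nat.mul_le_mul_right _ (by omega)
  have hkq0 : 1 ≤ k * q := Nat.one_le_iff_ne_zero.mpr (by positivity)
  have hSq0 : 1 ≤ (S + 1) * q := Nat.one_le_iff_ne_zero.mpr (by positivity)
  have hM0 : 0 < M := by omega
  obtain ⟨D, hD⟩ : ∃ D, D = N / M := ⟨_, rfl⟩
  have hMM : M * M ≤ N := by
    have h1 : (4 : ℕ) ^ L = (M + 1) * (M + 1) := by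
      rw [← hM, ← mul_pow]
      norm_num
    nlinarith
  have hDM1 : M ≤ D := by rw [hD, Nat.le_div_iff_mul_le hM0]; exact hMM
  have hDM2 : D * M ≤ N := by rw [hD]; exact Nat.div_mul_le_self _ _
  have hND : N < M * (2 * D) := by
    have h1 := Nat.div_add_mod N M
    have h2 := Nat.mod_lt N hM0
    rw [← hD] at h1
    have h3 : M * 1 ≤ M * D := Nat.mul_le_mul_left _ (by omega)
    have h4 : M * (2 * D) = M * D + M * D := by ring
    omega
  have hlam : 0 < L * M := by positivity
  have hnD : n < L * M * (2 * D) := by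
    rw [hn]
    calc N * L < M * (2 * D) * L := Nat.mul_lt_mul_of_pos_right hND hL
      _ = L * M * (2 * D) := by ring
  have hfin := engineSum P (L * M) D T (S + 1) (25 * q) hlam
    (A := Fin M → ZMod 2) (fun v => EWd N L v)
    (by
      intro v v' p hv
      unfold EWd
      congr 1
      unfold cell
      have e : (p : ℕ) / L / M = (p : ℕ) / (L * M) := Nat.div_div_eq_div_mul _ _ _
      have e2 : vv v ((p : ℕ) / L / M) ((p : ℕ) / L % M)
          = vv v' ((p : ℕ) / L / M) ((p : ℕ) / L % M) := by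
        unfold vv
        by_cases h : (p : ℕ) / L / M < D ∧ (p : ℕ) / L % M < M
        · rw [dif_pos h, dif_pos h]
          have h1 := hv (by rw [← e]; exact h.1)
          have h2 : (⟨(p : ℕ) / (L * M), by rw [← e]; exact h.1⟩ : Fin D)
              = ⟨(p : ℕ) / L / M, h.1⟩ := Fin.ext e.symm
          rw [h2] at h1
          rw [h1]
        · rw [dif_neg h, dif_neg h]
      rw [e2])
    (fun v hv => hacc _ ((allEven_iff hM0 (by omega) hDM2 hN v).mpr hv))
    (fun v hv => (allEven_iff hM0 (by omega) hDM2 hN v).mp (hsound _ hv))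
    (by omega)
    (by
      apply Nat.lt_of_mul_lt_mul_left (a := L * M)
      have h1 : L * M * (T / (L * M)) ≤ T := Nat.mul_div_le T (L * M)
      have h4 : 12 * (k * T) < 12 * (L * M * (2 * D) * q) := by
        have : n * q ≤ L * M * (2 * D) * q := Nat.mul_le_mul_right _ hnD.le
        omega
      have h5 : 12 * k ≤ q * D := by
        have h51 : k ≤ k * q := Nat.le_mul_of_pos_right _ hq1
        have h52 : D ≤ q * D := Nat.le_mul_of_pos_left _ hq1
        omega
      calc L * M * (12 * k * (T / (L * M) + 1))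
          = 12 * k * (L * M * (T / (L * M))) + 12 * k * (L * M) := by ring
        _ ≤ 12 * k * T + 12 * k * (L * M) := by gcongr
        _ = 12 * (k * T) + 12 * k * (L * M) := by ring
        _ < 12 * (L * M * (2 * D) * q) + q * D * (L * M) :=
            Nat.add_lt_add_of_lt_of_le h4 (Nat.mul_le_mul_right _ h5)
        _ = L * M * (25 * q * D) := by ring
        _ ≤ L * M * ((25 * q + 1) * D) := by gcongr; omega)
    (by
      have : 12 * k * (25 * q) = 300 * (k * q) := by ring
      omega)
    (by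
      rw [Fintype.card_prod, Fintype.card_fun, Fintype.card_fin, Fintype.card_fin, pow_succ]
      have : 1 ≤ 2 ^ S := Nat.one_le_two_pow
      omega)
  rw [Fintype.card_fun, Fintype.card_fin, ZMod.card] at hfin
  have h6 := (Nat.pow_le_pow_iff_right (by norm_num : 1 < 2)).mp hfin
  have h7 : (S + 1) * (2 * (25 * q) + 2) ≤ 52 * ((S + 1) * q) := by
    calc (S + 1) * (2 * (25 * q) + 2) ≤ (S + 1) * (52 * q) := Nat.mul_le_mul_left _ (by omega)
      _ = 52 * ((S + 1) * q) := by ring
  omega

end Pool.Agent.TH457.HT
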