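import Pool.Agent.TH457.HT.WordR

/-!
# Words which are concatenations of blocks of equal length and a rest
-/

set_option autoImplicit false

open Finset

namespace Pool.Agent.TH457.HT

variable {Λ : Type}

/-- the word with the blocks `B j (v j)` and the rest `R` -/
def flatWord {U : ℕ} (n L : ℕ) (pad : Λ) (B : ℕ → Fin U → List Λ) (m : ℕ) (R : List Λ)
    (v : Fin m → Fin U) (p : Fin n) : Λ :=
  if h : (p : ℕ) / L < m then (B ((p : ℕ) / L) (v ⟨(p : ℕ) / L, h⟩)).getD ((p : ℕ) % L) pad
  else R.getD ((p : ℕ) - m * L) pad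

theorem flatWord_local {U : ℕ} (n L : ℕ) (pad : Λ) (B : ℕ → Fin U → List Λ) (m : ℕ) (R : List Λ)
    (v v' : Fin m → Fin U) (p : Fin n)
    (h : ∀ h : (p : ℕ) / L < m, v ⟨(p : ℕ) / L, h⟩ = v' ⟨(p : ℕ) / L, h⟩) :
    flatWord n L pad B m R v p = flatWord n L pad B m R v' p := by
  unfold flatWord
  by_cases hp : (p : ℕ) / L < m
  · rw [dif_pos hp, dif_pos hp, h hp]
  · rw [dif_neg hp, dif_neg hp]

theorem map_getD (l : List Λ) (pad : Λ) :
    (List.range l.length).map (fun o => l.getD o pad) = l := by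
  apply List.ext_getElem
  · simp
  · intro i h1 h2
    rw [List.getElem_map, List.getElem_range, List.getD_eq_getElem _ _ h2]

theorem map_blocks (L : ℕ) (hL : 0 < L) (pad : Λ) (β : ℕ → List Λ) (hβ : ∀ j, (β j).length = L) :
    ∀ m, (List.range (m * L)).map (fun p => (β (p / L)).getD (p % L) pad)
      = ((List.range m).map β).flatten := by
  intro m
  induction m with
  | zero => simp
  | succ m ih =>
    rw [add_mul, one_mul, List.range_add, List.map_append, ih, List.range_succ, List.map_append,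
      List.flatten_append]
    congr 1
    rw [List.map_map]
    have e : (fun p => (β (p / L)).getD (p % L) pad) ∘ (fun x => m * L + x)
        = fun o => (β ((m * L + o) / L)).getD ((m * L + o) % L) pad := rfl
    rw [e]
    have e2 : (List.range L).map (fun o => (β ((m * L + o) / L)).getD ((m * L + o) % L) pad)
        = (List.range L).map (fun o => (β m).getD o pad) := by
      apply List.map_congr_left
      intro o ho
      rw [List.mem_range] at ho
      have h2 : (m * L + o) / L = m := by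
        rw [mul_comm, Nat.mul_add_div hL, Nat.div_eq_of_lt ho, add_zero]
      have h3 : (m * L + o) % L = o := by
        rw [mul_comm, Nat.mul_add_mod, Nat.mod_eq_of_lt ho]
      rw [h2, h3]
    rw [e2]
    have h4 := map_getD (β m) pad
    rw [hβ m] at h4
    rw [h4]
    simp

/-- the list of the letters of the word -/
theorem ofFn_flatWord {U : ℕ} (n L : ℕ) (hL : 0 < L) (pad : Λ) (B : ℕ → Fin U → List Λ)
    (hB : ∀ j u, (B j u).length = L) (m : ℕ) (R : List Λ) (hR : m * L + R.length = n)
    (v : Fin m → Fin U) (v' : ℕ → Fin U) (hv : ∀ j : Fin m, v' j = v j) :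
    List.ofFn (flatWord n L pad B m R v)
      = ((List.range m).map (fun j => B j (v' j))).flatten ++ R := by
  have h1 : List.ofFn (flatWord n L pad B m R v) = (List.range n).map
      (fun p => if p / L < m then (B (p / L) (v' (p / L))).getD (p % L) pad
        else R.getD (p - m * L) pad) := by
    apply List.ext_getElem
    · simp
    · intro i h1 h2
      simp only [List.length_ofFn] at h1
      simp only [List.getElem_ofFn, List.getElem_map, List.getElem_range]
      unfold flatWord
      by_cases hp : i / L < m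
      · simp only [hp, dite_true, if_true]
        rw [hv ⟨i / L, hp⟩]
      · simp only [hp, dite_false, if_false]
  rw [h1, ← hR, List.range_add, List.map_append]
  congr 1
  · rw [← map_blocks L hL pad (fun j => B j (v' j)) (fun j => hB j _) m]
    apply List.map_congr_left
    intro p hp
    rw [List.mem_range] at hp
    have : p / L < m := Nat.div_lt_of_lt_mul (by rw [mul_comm]; exact hp)
    rw [if_pos this]
  · rw [List.map_map]
    have h4 := map_getD R pad
    conv_rhs => rw [← h4]
    apply List.map_congr_left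
    intro o _
    have h5 : ¬ (m * L + o) / L < m := by
      rw [not_lt, Nat.le_div_iff_mul_le hL]
      omega
    simp only [Function.comp_apply, if_neg h5, Nat.add_sub_cancel_left]

/-- the choice of the parameters if only half of the word consists of blocks -/
theorem params2 (n k T L S cc : ℕ) (hn : 0 < n) (hL : 0 < L) (hk : 1 ≤ k) (hcc : 1 ≤ cc) :
    n ^ 3 ≤ 1228 * cc * (k * (S + 1) * L * (k * T + n) ^ 2) ∨
    ∃ q d D, 1 ≤ q ∧ d = cc * ((S + 1) * q) ∧ 0 < d ∧ 2 ≤ D ∧ (D * d + 1) * (2 * L) ≤ n ∧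
      12 * k * (T / (L * d) + 1) < (51 * q + 1) * D ∧ 12 * k * (51 * q) + 1 ≤ D := by
  obtain ⟨q, hq⟩ : ∃ q, q = k * T / n + 1 := ⟨_, rfl⟩
  have hq1 : 1 ≤ q := by rw [hq]; exact Nat.le_add_left 1 _
  have hkT : k * T < n * q := by
    rw [hq]
    have h1 := Nat.div_add_mod (k * T) n
    have h2 := Nat.mod_lt (k * T) hn
    calc k * T = n * (k * T / n) + k * T % n := h1.symm
      _ < n * (k * T / n) + n := by omega
      _ = n * (k * T / n + 1) := by ring
  have hnq : n * q ≤ k * T + n := by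
    rw [hq, mul_add, mul_one]
    have := Nat.mul_div_le (k * T) n
    omega
  rcases Nat.lt_or_ge n (1228 * cc * (k * (S + 1) * q ^ 2 * L)) with hmain | hcon
  · left
    calc n ^ 3 = n * n ^ 2 := by ring
      _ ≤ 1228 * cc * (k * (S + 1) * q ^ 2 * L) * n ^ 2 := Nat.mul_le_mul_right _ hmain.le
      _ = 1228 * cc * (k * (S + 1) * L * (n * q) ^ 2) := by ring
      _ ≤ 1228 * cc * (k * (S + 1) * L * (k * T + n) ^ 2) := by gcongr
  right
  obtain ⟨M, hM⟩ : ∃ M, M = 2 * L := ⟨_, rfl⟩
  have hM0 : 0 < M := by omega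
  obtain ⟨d, hd⟩ : ∃ d, d = cc * ((S + 1) * q) := ⟨_, rfl⟩
  have hd0 : 0 < d := by rw [hd]; positivity
  obtain ⟨D, hD⟩ : ∃ D, D = (n / M - 1) / d := ⟨_, rfl⟩
  have hkq : 1 ≤ k * q := Nat.one_le_iff_ne_zero.mpr (by positivity)
  have hnL : 613 * (k * q) * d + 1 ≤ n / M := by
    rw [Nat.le_div_iff_mul_le hM0]
    have h1 : 1 ≤ k * q * d := Nat.one_le_iff_ne_zero.mpr (by positivity)
    calc (613 * (k * q) * d + 1) * M ≤ (613 * (k * q * d) + k * q * d) * M :=
          Nat.mul_le_mul_right _ (by nlinarith)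
      _ = 1228 * cc * (k * (S + 1) * q ^ 2 * L) := by rw [hd, hM]; ring
      _ ≤ n := hcon
  have hDD : 613 * (k * q) ≤ D := by
    rw [hD, Nat.le_div_iff_mul_le hd0]
    omega
  have hDd : D * d ≤ n / M - 1 := by rw [hD]; exact Nat.div_mul_le_self _ _
  have hDdL : (D * d + 1) * M ≤ n := by
    calc (D * d + 1) * M ≤ n / M * M := Nat.mul_le_mul_right _ (by omega)
      _ ≤ n := Nat.div_mul_le_self _ _
  have hn2 : n < M * d * (2 * D) := by
    have h1 := Nat.div_add_mod n M
    have h2 := Nat.mod_lt n hM0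
    have h3 : n / M - 1 < d * (D + 1) := by
      rw [hD]
      have h4 := Nat.div_add_mod (n / M - 1) d
      have h5 := Nat.mod_lt (n / M - 1) hd0
      calc n / M - 1 = d * ((n / M - 1) / d) + (n / M - 1) % d := h4.symm
        _ < d * ((n / M - 1) / d) + d := by omega
        _ = d * ((n / M - 1) / d + 1) := by ring
    have h6 : n / M + 1 ≤ d * (2 * D) := by
      have h7 : d * (D + 1) = d * D + d := by ring
      have h8 : d * 3 ≤ d * D := Nat.mul_le_mul_left _ (by omega)
      have h9 : d * (2 * D) = d * D + d * D := by ring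
      omega
    calc n = M * (n / M) + n % M := h1.symm
      _ < M * (n / M) + M := by omega
      _ = M * (n / M + 1) := by ring
      _ ≤ M * (d * (2 * D)) := Nat.mul_le_mul_left _ h6
      _ = M * d * (2 * D) := by ring
  have hlam : 0 < L * d := by positivity
  refine ⟨q, d, D, hq1, hd, hd0, by omega, by rw [← hM]; exact hDdL, ?_, ?_⟩
  · apply Nat.lt_of_mul_lt_mul_left (a := L * d)
    have h1 : L * d * (T / (L * d)) ≤ T := Nat.mul_div_le T (L * d)
    have hD1 : 1 ≤ D := by omega
    have h4 : 12 * (k * T) < 12 * (L * d * (4 * D) * q) := by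
      have h41 : n * q ≤ M * d * (2 * D) * q := Nat.mul_le_mul_right _ hn2.le
      have h42 : M * d * (2 * D) * q = L * d * (4 * D) * q := by rw [hM]; ring
      omega
    have h5 : 12 * k ≤ q * D := by
      have h51 : k ≤ k * q := Nat.le_mul_of_pos_right _ hq1
      have h52 : D ≤ q * D := Nat.le_mul_of_pos_left _ hq1
      omega
    calc L * d * (12 * k * (T / (L * d) + 1))
        = 12 * k * (L * d * (T / (L * d))) + 12 * k * (L * d) := by ring
      _ ≤ 12 * k * T + 12 * k * (L * d) := by gcongr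
      _ = 12 * (k * T) + 12 * k * (L * d) := by ring
      _ < 12 * (L * d * (4 * D) * q) + q * D * (L * d) :=
          Nat.add_lt_add_of_lt_of_le h4 (Nat.mul_le_mul_right _ h5)
      _ = L * d * (49 * q * D) := by ring
      _ ≤ L * d * ((51 * q + 1) * D) := by gcongr; omega
  · have : 12 * k * (51 * q) = 612 * (k * q) := by ring
    omega

/-- **Nondeterministic programs with slow heads and distinct blocks**, if only half of the word
consists of blocks. -/
theorem blocksN2 {n k : ℕ} (P : HeadProg Λ n k) (L U T S : ℕ) (hn : 0 < n) (hL : 0 < L)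
    (hk : 1 ≤ k) (hU : 2 * n ^ 2 ≤ U) (W : ∀ m : ℕ, (Fin m → Fin U) → Fin n → Λ)
    (hW : ∀ m, ∀ v v' (p : Fin n), (∀ h : (p : ℕ) / L < m,
      v ⟨(p : ℕ) / L, h⟩ = v' ⟨(p : ℕ) / L, h⟩) → W m v p = W m v' p)
    (hacc : ∀ m, (m + 1) * (2 * L) ≤ n → ∀ v : Fin m → Fin U, Function.Injective v →
      P.AcceptsIn T (W m v))
    (hsound : ∀ m, (m + 1) * (2 * L) ≤ n → ∀ v : Fin m → Fin U, P.Accepts (W m v) →
      Function.Injective v)
    (hS : Fintype.card P.Q * n ^ k ≤ 2 ^ S) :
    n ^ 3 ≤ 66312 * (k * (S + 1) * L * (k * T + n) ^ 2) := by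
  rcases params2 n k T L S 54 hn hL hk (by norm_num) with
    h | ⟨q, d, D, hq, hd, hd0, hD, hDdL, h1, h2⟩
  · exact h
  exfalso
  have hU0 : 0 < U := by
    have : 0 < n ^ 2 := by positivity
    omega
  have hDd : D * d ≤ n := by nlinarith
  have hfin := engine P (L * d) D d U T (S + 1) (51 * q) (by positivity)
    (fun v => W (D * d) (fun j => v (finProdFinEquiv.symm j).1 (finProdFinEquiv.symm j).2))
    (fun v v' p h => loc_zones (W (D * d)) (hW (D * d)) v v' p h)
    (fun v hv => hacc (D * d) hDdL _ ((inj_zones v).mpr hv))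
    (fun v hv => (inj_zones v).mp (hsound (D * d) hDdL _ hv))
    hU0 (le_trans (by gcongr) hU) hD h1 h2
    (by
      rw [Fintype.card_prod, Fintype.card_fun, Fintype.card_fin, Fintype.card_fin, pow_succ]
      have : 1 ≤ 2 ^ S := Nat.one_le_two_pow
      omega)
  have h9 : (S + 1) * (51 * q + 1) ≤ 52 * ((S + 1) * q) := by
    calc (S + 1) * (51 * q + 1) ≤ (S + 1) * (52 * q) := Nat.mul_le_mul_left _ (by omega)
      _ = 52 * ((S + 1) * q) := by ring
  have h11 : 1 ≤ (S + 1) * q := Nat.one_le_iff_ne_zero.mpr (by positivity)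
  omega

/-- **Randomized programs with slow heads and distinct blocks**, if only half of the word consists
of blocks. -/
theorem blocksR2 {n k : ℕ} {Ω : Type} [Fintype Ω] (p : Ω → ℝ) (hp : ∀ ω, 0 ≤ p ω)
    (hp1 : ∑ ω, p ω = 1) (P : Ω → DetProg Λ n k) (L U T S : ℕ) (hn : 0 < n) (hL : 0 < L)
    (hk : 1 ≤ k) (hU : 2 * n ^ 2 ≤ U) (W : ∀ m : ℕ, (Fin m → Fin U) → Fin n → Λ)
    (hW : ∀ m, ∀ v v' (p : Fin n), (∀ h : (p : ℕ) / L < m,
      v ⟨(p : ℕ) / L, h⟩ = v' ⟨(p : ℕ) / L, h⟩) → W m v p = W m v' p)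
    (hyes : ∀ m, (m + 1) * (2 * L) ≤ n → ∀ v : Fin m → Fin U, Function.Injective v →
      1 - 1 / 20000 ≤ prob p P T (W m v) true)
    (hno : ∀ m, (m + 1) * (2 * L) ≤ n → ∀ v : Fin m → Fin U, ¬ Function.Injective v →
      1 - 1 / 20000 ≤ prob p P T (W m v) false)
    (hS : ∀ ω, Fintype.card (P ω).Q * n ^ k ≤ 2 ^ S) :
    n ^ 3 ≤ 2733528 * (k * (S + 1) * L * (k * T + n) ^ 2) := by
  rcases params2 n k T L S 2226 hn hL hk (by norm_num) with
    h | ⟨q, d, D, hq, hd, hd0, hD, hDdL, h1, h2⟩
  · exact h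
  exfalso
  have hU0 : 0 < U := by
    have : 0 < n ^ 2 := by positivity
    omega
  have hDd : D * d ≤ n := by nlinarith
  have hfin := engineR p hp hp1 P (L * d) D d U T (51 * q) (S + 1) (by positivity) hd0 hU0
    (fun v => W (D * d) (fun j => v (finProdFinEquiv.symm j).1 (finProdFinEquiv.symm j).2))
    (fun v v' p h => loc_zones (W (D * d)) (hW (D * d)) v v' p h)
    (fun v hv => hyes (D * d) hDdL _ ((inj_zones v).mpr hv))
    (fun v hv => hno (D * d) hDdL _ (fun h => hv ((inj_zones v).mp h)))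
    (le_trans (by gcongr) hU) hD h1 h2
    (by
      intro ω
      rw [Fintype.card_prod, Fintype.card_fun, Fintype.card_fin, Fintype.card_fin, pow_succ]
      have := hS ω
      have : 1 ≤ 2 ^ S := Nat.one_le_two_pow
      omega)
  have h9 : 42 * (51 * q * (S + 1)) = 2142 * ((S + 1) * q) := by ring
  have h11 : 1 ≤ (S + 1) * q := Nat.one_le_iff_ne_zero.mpr (by positivity)
  omega

end Pool.Agent.TH457.HT
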