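import Pool.Agent.TH457.HT.LinR

/-!
# Distinct blocks, with few values
-/

set_option autoImplicit false

open Finset

namespace Pool.Agent.TH457.HT

variable {Λ : Type}

/-- **Nondeterministic programs with slow heads and distinct blocks**, with few values. -/
theorem blocksN3 {n k : ℕ} (P : HeadProg Λ n k) (L U T S : ℕ) (hn : 0 < n) (hL : 0 < L)
    (hk : 1 ≤ k) (hU0 : 0 < U) (hU : 2 * (n / L) ^ 2 ≤ U)
    (W : ∀ m : ℕ, (Fin m → Fin U) → Fin n → Λ)
    (hW : ∀ m, ∀ v v' (p : Fin n), (∀ h : (p : ℕ) / L < m,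
      v ⟨(p : ℕ) / L, h⟩ = v' ⟨(p : ℕ) / L, h⟩) → W m v p = W m v' p)
    (hacc : ∀ m, (m + 1) * L ≤ n → ∀ v : Fin m → Fin U, Function.Injective v →
      P.AcceptsIn T (W m v))
    (hsound : ∀ m, (m + 1) * L ≤ n → ∀ v : Fin m → Fin U, P.Accepts (W m v) →
      Function.Injective v)
    (hS : Fintype.card P.Q * n ^ k ≤ 2 ^ S) :
    n ^ 3 ≤ 8456 * (k * (S + 1) * L * (k * T + n) ^ 2) := by
  rcases params n k T L S 28 hn hL hk (by norm_num) with h | ⟨q, d, D, hq, hd, hd0, hD, hDdL, h1, h2⟩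
  · exact h
  exfalso
  have hDd : D * d ≤ n / L := by
    rw [Nat.le_div_iff_mul_le hL]
    nlinarith
  have hfin := engine P (L * d) D d U T (S + 1) (25 * q) (by positivity)
    (fun v => W (D * d) (fun j => v (finProdFinEquiv.symm j).1 (finProdFinEquiv.symm j).2))
    (fun v v' p h => loc_zones (W (D * d)) (hW (D * d)) v v' p h)
    (fun v hv => hacc (D * d) hDdL _ ((inj_zones v).mpr hv))
    (fun v hv => (inj_zones v).mp (hsound (D * d) hDdL _ hv))
    hU0 (le_trans (by gcongr) hU) hD h1 h2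
    (by
      rw [Fintype.card_prod, Fintype.card_fun, Fintype.card_fin, Fintype.card_fin, pow_succ]
      have : 1 ≤ 2 ^ S := Nat.one_le_two_pow
      omega)
  have h9 : (S + 1) * (25 * q + 1) ≤ 26 * ((S + 1) * q) := by
    calc (S + 1) * (25 * q + 1) ≤ (S + 1) * (26 * q) := Nat.mul_le_mul_left _ (by omega)
      _ = 26 * ((S + 1) * q) := by ring
  have h11 : 1 ≤ (S + 1) * q := Nat.one_le_iff_ne_zero.mpr (by positivity)
  omega

/-- **Randomized programs with slow heads and distinct blocks**, with few values. -/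
theorem blocksR3 {n k : ℕ} {Ω : Type} [Fintype Ω] (p : Ω → ℝ) (hp : ∀ ω, 0 ≤ p ω)
    (hp1 : ∑ ω, p ω = 1) (P : Ω → DetProg Λ n k) (L U T S : ℕ) (hn : 0 < n) (hL : 0 < L)
    (hk : 1 ≤ k) (hU0 : 0 < U) (hU : 2 * (n / L) ^ 2 ≤ U)
    (W : ∀ m : ℕ, (Fin m → Fin U) → Fin n → Λ)
    (hW : ∀ m, ∀ v v' (p : Fin n), (∀ h : (p : ℕ) / L < m,
      v ⟨(p : ℕ) / L, h⟩ = v' ⟨(p : ℕ) / L, h⟩) → W m v p = W m v' p)
    (hyes : ∀ m, (m + 1) * L ≤ n → ∀ v : Fin m → Fin U, Function.Injective v →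
      1 - 1 / 20000 ≤ prob p P T (W m v) true)
    (hno : ∀ m, (m + 1) * L ≤ n → ∀ v : Fin m → Fin U, ¬ Function.Injective v →
      1 - 1 / 20000 ≤ prob p P T (W m v) false)
    (hS : ∀ ω, Fintype.card (P ω).Q * n ^ k ≤ 2 ^ S) :
    n ^ 3 ≤ 342468 * (k * (S + 1) * L * (k * T + n) ^ 2) := by
  rcases params n k T L S 1134 hn hL hk (by norm_num) with
    h | ⟨q, d, D, hq, hd, hd0, hD, hDdL, h1, h2⟩
  · exact h
  exfalso
  have hDd : D * d ≤ n / L := by
    rw [Nat.le_div_iff_mul_le hL]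
    nlinarith
  have hfin := engineR p hp hp1 P (L * d) D d U T (25 * q) (S + 1) (by positivity) hd0 hU0
    (fun v => W (D * d) (fun j => v (finProdFinEquiv.symm j).1 (finProdFinEquiv.symm j).2))
    (fun v v' p h => loc_zones (W (D * d)) (hW (D * d)) v v' p h)
    (fun v hv => hyes (D * d) hDdL _ ((inj_zones v).mpr hv))
    (fun v hv => hno (D * d) hDdL _ (fun h => hv ((inj_zones v).mp h)))
    (le_trans (by gcongr) hU) hD h1 h2
    (by
      intro ω
      rw [Fintype.card_prod, Fintype.card_fun, Fintype.card_fin, Fintype.card_fin, pow_succ]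
      have := hS ω
      have : 1 ≤ 2 ^ S := Nat.one_le_two_pow
      omega)
  have h9 : 42 * (25 * q * (S + 1)) = 1050 * ((S + 1) * q) := by ring
  have h11 : 1 ≤ (S + 1) * q := Nat.one_le_iff_ne_zero.mpr (by positivity)
  omega

end Pool.Agent.TH457.HT
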