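import Pool.Agent.TH457.HT.LinDefs

/-!
# The grammar of the words with a block which is the reversal of a later block
-/

set_option autoImplicit false

namespace Pool.Agent.TH457.HT

/-- the nonterminals -/
inductive NTs
  | s | t | m
  deriving DecidableEq

instance : Fintype NTs := ⟨{NTs.s, NTs.t, NTs.m}, by intro x; cases x <;> simp⟩

/-- the rules `A → u B v` (`none` is the separator) -/
inductive Inner : NTs × List (Option Bool) × NTs × List (Option Bool) → Prop
  | sl (a : Option Bool) : Inner (.s, [a], .s, [])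
  | sr (a : Option Bool) : Inner (.s, [], .s, [a])
  | st (b : Bool) : Inner (.s, [none, some b], .t, [some b, none])
  | tt (b : Bool) : Inner (.t, [some b], .t, [some b])
  | tm : Inner (.t, [none], .m, [none])
  | mm (a : Option Bool) : Inner (.m, [a], .m, [])

/-- the rules `A → u` -/
inductive Last : NTs × List (Option Bool) → Prop
  | m : Last (.m, [])

/-- the grammar -/
def gram : LinGrammar (Option Bool) where
  NT := NTs
  start := .s
  inner := {p | Inner p}
  last := {p | Last p}
  inner_fin := by
    refine Set.Finite.subset (Set.Finite.prod (Set.finite_univ (α := NTs))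
      (Set.Finite.prod (List.finite_length_le (Option Bool) 2)
      (Set.Finite.prod (Set.finite_univ (α := NTs)) (List.finite_length_le (Option Bool) 2)))) ?_
    intro p hp
    cases hp <;> simp
  last_fin := by
    refine Set.Finite.subset (Set.finite_singleton ((NTs.m, []) : NTs × List (Option Bool))) ?_
    intro p hp
    cases hp
    rfl

/-- segments -/
def sg (X : ℕ → Option Bool) (i l : ℕ) : List (Option Bool) := (List.range' i l).map X

theorem sg_length (X : ℕ → Option Bool) (i l : ℕ) : (sg X i l).length = l := by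
  simp [sg]

theorem sg_add (X : ℕ → Option Bool) (i l l' : ℕ) : sg X i (l + l') = sg X i l ++ sg X (i + l) l' := by
  unfold sg
  rw [← List.map_append]
  congr 1
  simp

theorem sg_one (X : ℕ → Option Bool) (i : ℕ) : sg X i 1 = [X i] := by
  simp [sg]

theorem sg_two (X : ℕ → Option Bool) (i : ℕ) : sg X i 2 = [X i, X (i + 1)] := by
  simp [sg, List.range'_succ]

theorem sg_zero (X : ℕ → Option Bool) (i : ℕ) : sg X i 0 = [] := by
  simp [sg]

/-- the positions for the nonterminal `t` -/
def PT (X : ℕ → Option Bool) (i l : ℕ) : Prop :=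
  ∃ c j, i + c < j ∧ j + c + 1 = i + l ∧ X (i + c) = none ∧ X j = none ∧
    ∀ t < c, ∃ b : Bool, X (i + t) = some b ∧ X (j + c - t) = some b

/-- the positions for the nonterminal `s` -/
def PS (X : ℕ → Option Bool) (i l : ℕ) : Prop :=
  ∃ i' j c, i ≤ i' ∧ i' + c + 1 < j ∧ j + c + 1 < i + l ∧ 1 ≤ c ∧ X i' = none ∧
    X (i' + c + 1) = none ∧ X j = none ∧ X (j + c + 1) = none ∧
    ∀ t < c, ∃ b : Bool, X (i' + 1 + t) = some b ∧ X (j + c - t) = some b

theorem gen_m (w : List (Option Bool)) : gram.Gen NTs.m w := by
  induction w with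
  | nil => exact LinGrammar.Gen.last (G := gram) NTs.m [] Last.m
  | cons a w ih =>
    have := LinGrammar.Gen.inner (G := gram) NTs.m NTs.m [a] [] w (Inner.mm a) ih
    simpa using this

theorem gen_t (X : ℕ → Option Bool) : ∀ (c i j : ℕ), i + c < j → X (i + c) = none → X j = none →
    (∀ t < c, ∃ b : Bool, X (i + t) = some b ∧ X (j + c - t) = some b) →
    gram.Gen NTs.t (sg X i (j + c + 1 - i)) := by
  intro c
  induction c with
  | zero =>
    intro i j hij h1 h2 _
    have e : j + 0 + 1 - i = 1 + (j - i - 1) + 1 := by omega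
    rw [e, sg_add, sg_add, sg_one, sg_one]
    have e1 : i + (1 + (j - i - 1)) = j := by omega
    rw [e1, h2]
    rw [add_zero] at h1
    rw [h1]
    exact LinGrammar.Gen.inner (G := gram) NTs.t NTs.m [none] [none] _ Inner.tm (gen_m _)
  | succ c ih =>
    intro i j hij h1 h2 h3
    obtain ⟨b, hb1, hb2⟩ := h3 0 (by omega)
    rw [add_zero] at hb1
    rw [Nat.sub_zero] at hb2
    have e : j + (c + 1) + 1 - i = 1 + (j + c + 1 - (i + 1)) + 1 := by omega
    rw [e, sg_add, sg_add, sg_one, sg_one]
    have e1 : i + (1 + (j + c + 1 - (i + 1))) = j + (c + 1) := by omega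
    rw [e1, hb1, hb2]
    refine LinGrammar.Gen.inner (G := gram) NTs.t NTs.t [some b] [some b] _ (Inner.tt b) ?_
    apply ih (i + 1) j (by omega) (by rw [← h1]; congr 1; ring) h2
    intro t ht
    obtain ⟨b', h4, h5⟩ := h3 (t + 1) (by omega)
    refine ⟨b', ?_, ?_⟩
    · rw [← h4]; congr 1; ring
    · rw [← h5]; congr 1; omega

theorem gen_left (X : ℕ → Option Bool) (l : ℕ) : ∀ (r i : ℕ), gram.Gen NTs.s (sg X (i + r) l) →
    gram.Gen NTs.s (sg X i (r + l)) := by
  intro r
  induction r with
  | zero => intro i h; simpa using h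
  | succ r ih =>
    intro i h
    have h1 := ih (i + 1) (by rw [show i + 1 + r = i + (r + 1) by ring]; exact h)
    have e : r + 1 + l = 1 + (r + l) := by ring
    rw [e, sg_add, sg_one]
    have := LinGrammar.Gen.inner (G := gram) NTs.s NTs.s [X i] [] _ (Inner.sl _) h1
    simpa using this

theorem gen_right (X : ℕ → Option Bool) (i l : ℕ) (h : gram.Gen NTs.s (sg X i l)) :
    ∀ r : ℕ, gram.Gen NTs.s (sg X i (l + r)) := by
  intro r
  induction r with
  | zero => simpa using h
  | succ r ih =>
    rw [← add_assoc, sg_add, sg_one]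
    have := LinGrammar.Gen.inner (G := gram) NTs.s NTs.s [] [X (i + (l + r))] _ (Inner.sr _) ih
    simpa using this

theorem gen_s (X : ℕ → Option Bool) (i l : ℕ) (h : PS X i l) : gram.Gen NTs.s (sg X i l) := by
  obtain ⟨i', j, c, h1, h2, h3, h4, h5, h6, h7, h8, h9⟩ := h
  have ht := gen_t X (c - 1) (i' + 2) j (by omega)
    (by rw [← h6]; congr 1; omega) h7 (by
      intro t ht
      obtain ⟨b', h10, h11⟩ := h9 (t + 1) (by omega)
      refine ⟨b', ?_, ?_⟩
      · rw [← h10]; congr 1; ring
      · rw [← h11]; congr 1; omega)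
  obtain ⟨b, hb1, hb2⟩ := h9 0 (by omega)
  rw [add_zero] at hb1
  rw [Nat.sub_zero] at hb2
  have h12 := LinGrammar.Gen.inner (G := gram) NTs.s NTs.t [none, some b] [some b, none] _
    (Inner.st b) ht
  have e : [none, some b] ++ sg X (i' + 2) (j + (c - 1) + 1 - (i' + 2)) ++ [some b, none]
      = sg X i' (j + c + 2 - i') := by
    have e1 : j + c + 2 - i' = 2 + (j + (c - 1) + 1 - (i' + 2)) + 2 := by omega
    rw [e1, sg_add, sg_add, sg_two, sg_two]
    have e2 : i' + (2 + (j + (c - 1) + 1 - (i' + 2))) = j + c := by omega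
    rw [e2, hb1, hb2, h5, h8]
  rw [e] at h12
  obtain ⟨r, hr⟩ : ∃ r, i' = i + r := ⟨i' - i, by omega⟩
  rw [hr] at h12
  have h13 := gen_left X _ r i h12
  have h14 := gen_right X i _ h13 (l - (r + (j + c + 2 - (i + r))))
  have e3 : r + (j + c + 2 - (i + r)) + (l - (r + (j + c + 2 - (i + r)))) = l := by omega
  rwa [e3] at h14

theorem split_sg (X : ℕ → Option Bool) (i : ℕ) (u w v : List (Option Bool))
    (h : u ++ w ++ v = sg X i (u ++ w ++ v).length) :
    u = sg X i u.length ∧ w = sg X (i + u.length) w.length ∧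
      v = sg X (i + (u.length + w.length)) v.length := by
  rw [List.length_append, List.length_append, sg_add, sg_add] at h
  have h1 := List.append_inj h (by simp [sg_length])
  have h2 := List.append_inj h1.1 (by simp [sg_length])
  exact ⟨h2.1, h2.2, h1.2⟩

theorem gen_pos (A : gram.NT) (w : List (Option Bool)) (h : gram.Gen A w) :
    ∀ (X : ℕ → Option Bool) (i : ℕ), w = sg X i w.length →
      (A = NTs.t → PT X i w.length) ∧ (A = NTs.s → PS X i w.length) := by
  induction h with
  | last A u h =>
    intro X i _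
    cases h
    exact ⟨fun h => (by cases h), fun h => (by cases h)⟩
  | inner A B u v w h hw ih =>
    intro X i hX
    obtain ⟨hu, hw', hv⟩ := split_sg X i u w v hX
    have ih' := ih X (i + u.length) hw'
    rw [List.length_append, List.length_append]
    cases h with
    | sl a =>
      refine ⟨fun h => (by cases h), fun _ => ?_⟩
      obtain ⟨i', j, c, h1, h2, h3, h4⟩ := ih'.2 rfl
      simp only [List.length_cons, List.length_nil] at h1 h3 ⊢
      exact ⟨i', j, c, by omega, h2, by omega, h4⟩
    | sr a =>
      refine ⟨fun h => (by cases h), fun _ => ?_⟩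
      obtain ⟨i', j, c, h1, h2, h3, h4⟩ := ih'.2 rfl
      simp only [List.length_cons, List.length_nil] at h1 h3 ⊢
      exact ⟨i', j, c, by omega, h2, by omega, h4⟩
    | st b =>
      refine ⟨fun h => (by cases h), fun _ => ?_⟩
      obtain ⟨c, j, h1, h2, h3, h4, h5⟩ := ih'.1 rfl
      simp only [List.length_cons, List.length_nil, Nat.reduceAdd] at h1 h2 h3 h4 h5 hu hv ⊢
      rw [sg_two] at hu hv
      simp only [List.cons.injEq, and_true] at hu hv
      have e1 : i + (2 + w.length) = j + c + 1 := by omega
      rw [e1] at hv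
      refine ⟨i, j, c + 1, le_rfl, by omega, by omega, by omega, hu.1.symm, ?_, h4, ?_, ?_⟩
      · rw [← h3]; congr 1; ring
      · rw [hv.2]; congr 1
      · intro t ht
        rcases Nat.eq_zero_or_pos t with h0 | h0
        · subst h0
          refine ⟨b, ?_, ?_⟩
          · rw [hu.2]
          · rw [hv.1]; congr 1
        · obtain ⟨b', h6, h7⟩ := h5 (t - 1) (by omega)
          refine ⟨b', ?_, ?_⟩
          · rw [← h6]; congr 1; omega
          · rw [← h7]; congr 1; omega
    | tt b =>
      refine ⟨fun _ => ?_, fun h => (by cases h)⟩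
      obtain ⟨c, j, h1, h2, h3, h4, h5⟩ := ih'.1 rfl
      simp only [List.length_cons, List.length_nil, Nat.reduceAdd] at h1 h2 h3 h4 h5 hu hv ⊢
      rw [sg_one] at hu hv
      simp only [List.cons.injEq, and_true] at hu hv
      have e1 : i + (1 + w.length) = j + c + 1 := by omega
      rw [e1] at hv
      refine ⟨c + 1, j, by omega, by omega, ?_, h4, ?_⟩
      · rw [← h3]; congr 1; ring
      · intro t ht
        rcases Nat.eq_zero_or_pos t with h0 | h0
        · subst h0
          refine ⟨b, ?_, ?_⟩
          · rw [hu]; congr 1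
          · rw [hv]; congr 1
        · obtain ⟨b', h6, h7⟩ := h5 (t - 1) (by omega)
          refine ⟨b', ?_, ?_⟩
          · rw [← h6]; congr 1; omega
          · rw [← h7]; congr 1; omega
    | tm =>
      refine ⟨fun _ => ?_, fun h => (by cases h)⟩
      simp only [List.length_cons, List.length_nil, Nat.reduceAdd] at hu hv ⊢
      rw [sg_one] at hu hv
      simp only [List.cons.injEq, and_true] at hu hv
      exact ⟨0, i + (1 + w.length), by omega, by omega, by simpa using hu.symm, hv.symm,
        fun t ht => absurd ht (by omega)⟩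
    | mm a => exact ⟨fun h => (by cases h), fun h => (by cases h)⟩

/-- the letters of a word, followed by separators -/
def ext {n : ℕ} (x : Fin n → Option Bool) (p : ℕ) : Option Bool :=
  if h : p < n then x ⟨p, h⟩ else none

theorem ofFn_eq {n : ℕ} (x : Fin n → Option Bool) : List.ofFn x = sg (ext x) 0 n := by
  apply List.ext_getElem
  · simp [sg]
  · intro i h1 h2
    simp only [List.length_ofFn] at h1
    simp [sg, ext, h1]

theorem mem_language {n : ℕ} (x : Fin n → Option Bool) :
    List.ofFn x ∈ gram.language ↔ PS (ext x) 0 n := by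
  constructor
  · intro h
    have h1 := (gen_pos NTs.s (List.ofFn x) h (ext x) 0 (by
      rw [List.length_ofFn]; exact ofFn_eq x)).2 rfl
    rwa [List.length_ofFn] at h1
  · intro h
    rw [ofFn_eq]
    exact gen_s (ext x) 0 n h

end Pool.Agent.TH457.HT
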