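import Pool.Agent.TH457.HT.Word
import Pool.Agent.TH457.HT.Gram

/-!
# Slow heads and a linear context-free language
-/

set_option autoImplicit false

open Finset

namespace Pool.Agent.TH457.HT

/-- the code of the value `v` with `l` bits: a separator, the bits, the bits in reverse order, a
separator -/
def enc (l : ℕ) (v : Fin (2 ^ l)) (o : ℕ) : Option Bool :=
  if o = 0 ∨ 2 * l < o then none
  else if o ≤ l then some (Nat.testBit v (o - 1)) else some (Nat.testBit v (2 * l - o))

theorem enc_none (l : ℕ) (v : Fin (2 ^ l)) (o : ℕ) : enc l v o = none ↔ (o = 0 ∨ 2 * l < o) := by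
  unfold enc
  split_ifs with h1 h2 <;> simp [h1]

theorem enc_symm (l : ℕ) (v : Fin (2 ^ l)) (o : ℕ) (h1 : 1 ≤ o) (h2 : o ≤ 2 * l) :
    enc l v (2 * l + 1 - o) = enc l v o := by
  unfold enc
  have c1 : ¬(2 * l + 1 - o = 0 ∨ 2 * l < 2 * l + 1 - o) := by omega
  have c2 : ¬(o = 0 ∨ 2 * l < o) := by omega
  rw [if_neg c1, if_neg c2]
  by_cases h : o ≤ l
  · rw [if_neg (show ¬ (2 * l + 1 - o ≤ l) by omega), if_pos h]
    congr 2; omega
  · rw [if_pos (show 2 * l + 1 - o ≤ l by omega), if_neg h]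
    congr 2; omega

theorem ext_word {n m L : ℕ} (l : ℕ) (hL : L = 2 * l + 2) (hm : m * L ≤ n)
    (v : Fin m → Fin (2 ^ l)) (a : Fin m) (o : ℕ) (ho : o < L) :
    ext (word n L (enc l) none m v) ((a : ℕ) * L + o) = enc l (v a) o := by
  have h1 : (a : ℕ) * L + o < n := by
    calc (a : ℕ) * L + o < (a : ℕ) * L + L := by omega
      _ = ((a : ℕ) + 1) * L := by ring
      _ ≤ m * L := Nat.mul_le_mul_right _ a.2
      _ ≤ n := hm
  have hL0 : 0 < L := by omega
  have h2 : ((a : ℕ) * L + o) / L = a := by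
    rw [mul_comm, Nat.mul_add_div hL0, Nat.div_eq_of_lt ho, add_zero]
  have h3 : ((a : ℕ) * L + o) % L = o := by
    rw [mul_comm, Nat.mul_add_mod, Nat.mod_eq_of_lt ho]
  unfold ext
  rw [dif_pos h1]
  unfold word
  simp only [h2, h3]
  rw [dif_pos a.2]

theorem ext_word_some {n m L : ℕ} (l : ℕ) (hL : L = 2 * l + 2)
    (v : Fin m → Fin (2 ^ l)) (p : ℕ) (h : ext (word n L (enc l) none m v) p ≠ none) :
    ∃ (a : Fin m) (o : ℕ), p = (a : ℕ) * L + o ∧ 1 ≤ o ∧ o ≤ 2 * l := by
  have hL0 : 0 < L := by omega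
  unfold ext at h
  by_cases hp : p < n
  · rw [dif_pos hp] at h
    unfold word at h
    by_cases hm : p / L < m
    · simp only [hm, dite_true] at h
      rw [Ne, enc_none] at h
      refine ⟨⟨p / L, hm⟩, p % L, ?_, by omega, by omega⟩
      have := Nat.div_add_mod p L
      rw [mul_comm] at this
      exact this.symm
    · simp only [hm, dite_false] at h
      exact absurd rfl h
  · rw [dif_neg hp] at h
    exact absurd rfl h

/-- two equal values give a word of the language -/
theorem PS_of_eq {n m L : ℕ} (l : ℕ) (hl : 1 ≤ l) (hL : L = 2 * l + 2) (hm : m * L ≤ n)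
    (v : Fin m → Fin (2 ^ l)) (a b : Fin m) (hab : a < b) (hv : v a = v b) :
    PS (ext (word n L (enc l) none m v)) 0 n := by
  have h0 : ((a : ℕ) + 1) * L ≤ (b : ℕ) * L := Nat.mul_le_mul_right _ hab
  have h1 : ((a : ℕ) + 1) * L = (a : ℕ) * L + L := by ring
  have h2 : ((b : ℕ) + 1) * L ≤ m * L := Nat.mul_le_mul_right _ b.2
  have h3 : ((b : ℕ) + 1) * L = (b : ℕ) * L + L := by ring
  refine ⟨(a : ℕ) * L, (b : ℕ) * L, 2 * l, Nat.zero_le _, by omega, by omega, by omega, ?_, ?_, ?_,
    ?_, ?_⟩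
  · have := ext_word l hL hm v a 0 (by omega)
    rw [add_zero] at this
    rw [this, enc_none]; left; rfl
  · rw [add_assoc, ext_word l hL hm v a (2 * l + 1) (by omega), enc_none]; right; omega
  · have := ext_word l hL hm v b 0 (by omega)
    rw [add_zero] at this
    rw [this, enc_none]; left; rfl
  · rw [add_assoc, ext_word l hL hm v b (2 * l + 1) (by omega), enc_none]; right; omega
  · intro t ht
    rw [add_assoc, ext_word l hL hm v a (1 + t) (by omega)]
    have e : (b : ℕ) * L + 2 * l - t = (b : ℕ) * L + (2 * l + 1 - (1 + t)) := by omega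
    rw [e, ext_word l hL hm v b _ (by omega), enc_symm l (v b) (1 + t) (by omega) (by omega), hv]
    have hne : enc l (v b) (1 + t) ≠ none := by rw [Ne, enc_none]; omega
    obtain ⟨c, hc⟩ := Option.ne_none_iff_exists'.mp hne
    exact ⟨c, hc, hc⟩

/-- a separator followed by a bit -/
theorem start_block {n m L : ℕ} (l : ℕ) (hL : L = 2 * l + 2) (hm : m * L ≤ n)
    (v : Fin m → Fin (2 ^ l)) (i : ℕ) (h1 : ext (word n L (enc l) none m v) i = none)
    (h2 : ext (word n L (enc l) none m v) (i + 1) ≠ none) : ∃ a : Fin m, i = (a : ℕ) * L := by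
  obtain ⟨a, o, h3, h4, h5⟩ := ext_word_some l hL v (i + 1) h2
  refine ⟨a, ?_⟩
  have e : i = (a : ℕ) * L + (o - 1) := by omega
  rw [e, ext_word l hL hm v a (o - 1) (by omega), enc_none] at h1
  omega

/-- a word of the language comes from two equal values -/
theorem eq_of_PS {n m L : ℕ} (l : ℕ) (hL : L = 2 * l + 2) (hm : m * L ≤ n)
    (v : Fin m → Fin (2 ^ l)) (h : PS (ext (word n L (enc l) none m v)) 0 n) :
    ∃ a b : Fin m, a ≠ b ∧ v a = v b := by
  obtain ⟨i, j, c, -, h2, -, h4, h5, h6, h7, -, h9⟩ := h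
  have hi : ext (word n L (enc l) none m v) (i + 1) ≠ none := by
    obtain ⟨b, hb, -⟩ := h9 0 (by omega)
    rw [add_zero] at hb
    rw [hb]; simp
  have hj : ext (word n L (enc l) none m v) (j + 1) ≠ none := by
    obtain ⟨b, -, hb⟩ := h9 (c - 1) (by omega)
    rw [show j + c - (c - 1) = j + 1 by omega] at hb
    rw [hb]; simp
  obtain ⟨a, ha⟩ := start_block l hL hm v i h5 hi
  obtain ⟨b, hb⟩ := start_block l hL hm v j h7 hj
  have hc : c = 2 * l := by
    rcases Nat.lt_trichotomy c (2 * l) with hc | hc | hc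
    · rw [ha, add_assoc, ext_word l hL hm v a (c + 1) (by omega), enc_none] at h6
      omega
    · exact hc
    · obtain ⟨b', hb', -⟩ := h9 (2 * l) hc
      rw [ha, add_assoc, ext_word l hL hm v a (1 + 2 * l) (by omega)] at hb'
      have : enc l (v a) (1 + 2 * l) = none := by rw [enc_none]; omega
      rw [this] at hb'
      cases hb'
  refine ⟨a, b, ?_, ?_⟩
  · rintro rfl
    omega
  · apply Fin.ext
    apply Nat.eq_of_testBit_eq
    intro t
    rcases Nat.lt_or_ge t l with ht | ht
    · obtain ⟨b', h10, h11⟩ := h9 t (by omega)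
      rw [ha, add_assoc, ext_word l hL hm v a (1 + t) (by omega)] at h10
      have e : j + c - t = (b : ℕ) * L + (2 * l + 1 - (1 + t)) := by omega
      rw [e, ext_word l hL hm v b _ (by omega),
        enc_symm l (v b) (1 + t) (by omega) (by omega)] at h11
      have h12 := h10.trans h11.symm
      unfold enc at h12
      rw [if_neg (by omega), if_pos (by omega), if_neg (by omega), if_pos (by omega)] at h12
      have h13 := Option.some.inj h12
      rwa [show 1 + t - 1 = t by omega] at h13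
    · rw [Nat.testBit_lt_two_pow ((v a).2.trans_le (Nat.pow_le_pow_right (by norm_num) ht)),
        Nat.testBit_lt_two_pow ((v b).2.trans_le (Nat.pow_le_pow_right (by norm_num) ht))]

/-- **Slow heads and a linear context-free language.** -/
theorem lin_main {n k : ℕ} (P : HeadProg (Option Bool) n k) (T S : ℕ) (hk : 1 ≤ k)
    (hS : Fintype.card P.Q * n ^ k ≤ 2 ^ S)
    (hsound : ∀ x : Fin n → Option Bool, P.Accepts x → List.ofFn x ∉ gram.language)
    (hacc : ∀ x : Fin n → Option Bool, List.ofFn x ∉ gram.language → P.AcceptsIn T x) :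
    n ^ 3 ≤ 70000 * (k * (S + 1) * (Nat.log 2 n + 1) * (k * T + n) ^ 2) := by
  rcases Nat.eq_zero_or_pos n with h0 | hn
  · subst h0; simp
  obtain ⟨l, hl⟩ : ∃ l, l = 2 * (Nat.log 2 n + 1) + 1 := ⟨_, rfl⟩
  have hU : 2 * n ^ 2 ≤ 2 ^ l := by
    have h1 : n < 2 ^ (Nat.log 2 n + 1) := Nat.lt_pow_succ_log_self (by norm_num) n
    have h2 : n ^ 2 ≤ (2 ^ (Nat.log 2 n + 1)) ^ 2 := Nat.pow_le_pow_left h1.le 2
    have h3 : 2 ^ l = 2 * (2 ^ (Nat.log 2 n + 1)) ^ 2 := by
      rw [hl, ← pow_mul, mul_comm (Nat.log 2 n + 1) 2, pow_succ, mul_comm]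
    omega
  have h := blocks P (2 * l + 2) (2 ^ l) T S hn (by omega) hk (enc l) none hU
    (by
      intro m hm v hv
      apply hacc
      rw [mem_language]
      intro hPS
      obtain ⟨a, b, hab, hvab⟩ := eq_of_PS l rfl hm v hPS
      exact hab (hv hvab))
    (by
      intro m hm v hv
      have h1 := hsound _ hv
      rw [mem_language] at h1
      intro a b hvab
      by_contra hab
      rcases lt_or_gt_of_ne hab with h | h
      · exact h1 (PS_of_eq l (by omega) rfl hm v a b h hvab)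
      · exact h1 (PS_of_eq l (by omega) rfl hm v b a h hvab.symm))
    hS
  refine h.trans ?_
  have h2 : 2 * l + 2 ≤ 8 * (Nat.log 2 n + 1) := by rw [hl]; omega
  calc 8428 * (k * (S + 1) * (2 * l + 2) * (k * T + n) ^ 2)
      ≤ 8428 * (k * (S + 1) * (8 * (Nat.log 2 n + 1)) * (k * T + n) ^ 2) := by gcongr
    _ = 67424 * (k * (S + 1) * (Nat.log 2 n + 1) * (k * T + n) ^ 2) := by ring
    _ ≤ 70000 * (k * (S + 1) * (Nat.log 2 n + 1) * (k * T + n) ^ 2) := by gcongr; norm_num

end Pool.Agent.TH457.HT
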