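import Mathlib

/-!
# Linear context-free grammars
-/

set_option autoImplicit false

namespace Pool.Agent.TH457.HT

/-- A linear context-free grammar over the alphabet `α`: finitely many nonterminals, a start
symbol, finitely many rules `A → u B v` and finitely many rules `A → u`. -/
structure LinGrammar (α : Type) where
  /-- the nonterminals -/
  NT : Type
  /-- there are finitely many of them -/
  [fintype : Fintype NT]
  /-- the start symbol -/
  start : NT
  /-- the rules `A → u B v` -/
  inner : Set (NT × List α × NT × List α)
  /-- the rules `A → u` -/
  last : Set (NT × List α)
  inner_fin : inner.Finite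
  last_fin : last.Finite

attribute [instance] LinGrammar.fintype

/-- The word `w` can be derived from the nonterminal `A`. -/
inductive LinGrammar.Gen {α : Type} (G : LinGrammar α) : G.NT → List α → Prop
  | last (A : G.NT) (u : List α) (h : (A, u) ∈ G.last) : G.Gen A u
  | inner (A B : G.NT) (u v w : List α) (h : (A, u, B, v) ∈ G.inner) (hw : G.Gen B w) :
      G.Gen A (u ++ w ++ v)

/-- The language generated by the grammar. -/
def LinGrammar.language {α : Type} (G : LinGrammar α) : Set (List α) := {w | G.Gen G.start w}

end Pool.Agent.TH457.HT
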