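import Pool.Agent.TH457.HT.WordR
import Pool.Agent.TH457.HT.Lin

/-!
# Randomized slow heads and a linear context-free language
-/

set_option autoImplicit false

open Finset

namespace Pool.Agent.TH457.HT

variable {Λ : Type} {n k : ℕ}

/-- the program with the opposite answers -/
def DetProg.flip (P : DetProg Λ n k) : DetProg Λ n k where
  Q := P.Q
  start := P.start
  move := P.move
  out := fun q p => (P.out q p).map not
  slow := P.slow

theorem flip_answers (P : DetProg Λ n k) (T : ℕ) (x : Fin n → Λ) (b : Bool) :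
    P.flip.Answers T x b ↔ P.Answers T x (!b) := by
  have h1 : ∀ o : Option Bool, ∀ b : Bool, o.map not = some b ↔ o = some (!b) := by
    intro o b
    cases o with
    | none => simp
    | some c => cases c <;> cases b <;> simp
  have h2 : ∀ o : Option Bool, o.map not = none ↔ o = none := by
    intro o; cases o <;> simp
  constructor
  · rintro ⟨t, ht, h3, h4⟩
    exact ⟨t, ht, (h1 _ _).mp h3, fun s hs => (h2 _).mp (h4 s hs)⟩
  · rintro ⟨t, ht, h3, h4⟩
    exact ⟨t, ht, (h1 _ _).mpr h3, fun s hs => (h2 _).mpr (h4 s hs)⟩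

theorem prob_flip {Ω : Type} [Fintype Ω] (p : Ω → ℝ) (P : Ω → DetProg Λ n k) (T : ℕ)
    (x : Fin n → Λ) (b : Bool) : prob p (fun ω => (P ω).flip) T x b = prob p P T x (!b) := by
  classical
  unfold prob
  apply Finset.sum_congr rfl
  intro ω _
  have h := flip_answers (P ω) T x b
  by_cases h1 : (P ω).flip.Answers T x b
  · rw [if_pos h1, if_pos (h.mp h1)]
  · rw [if_neg h1, if_neg (fun h2 => h1 (h.mpr h2))]

theorem word_local (l L m : ℕ) (v v' : Fin m → Fin (2 ^ l)) (p : Fin n)
    (h : ∀ h : (p : ℕ) / L < m, v ⟨(p : ℕ) / L, h⟩ = v' ⟨(p : ℕ) / L, h⟩) :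
    word n L (enc l) none m v p = word n L (enc l) none m v' p := by
  unfold word
  by_cases hp : (p : ℕ) / L < m
  · rw [dif_pos hp, dif_pos hp, h hp]
  · rw [dif_neg hp, dif_neg hp]

open Classical in
/-- **Randomized slow heads and a linear context-free language.** -/
theorem lin_rand {Ω : Type} [Fintype Ω] (p : Ω → ℝ) (hp : ∀ ω, 0 ≤ p ω) (hp1 : ∑ ω, p ω = 1)
    (P : Ω → DetProg (Option Bool) n k) (T S : ℕ) (hk : 1 ≤ k)
    (hS : ∀ ω, Fintype.card (P ω).Q * n ^ k ≤ 2 ^ S)
    (h : ∀ x : Fin n → Option Bool,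
      1 - 1 / 20000 ≤ prob p P T x (decide (List.ofFn x ∈ gram.language))) :
    n ^ 3 ≤ 3000000 * (k * (S + 1) * (Nat.log 2 n + 1) * (k * T + n) ^ 2) := by
  rcases Nat.eq_zero_or_pos n with h0 | hn
  · subst h0; simp
  obtain ⟨l, hl⟩ : ∃ l, l = 2 * (Nat.log 2 n + 1) + 1 := ⟨_, rfl⟩
  have hU : 2 * n ^ 2 ≤ 2 ^ l := by
    have h1 : n < 2 ^ (Nat.log 2 n + 1) := Nat.lt_pow_succ_log_self (by norm_num) n
    have h2 : n ^ 2 ≤ (2 ^ (Nat.log 2 n + 1)) ^ 2 := Nat.pow_le_pow_left h1.le 2
    have h3 : 2 ^ l = 2 * (2 ^ (Nat.log 2 n + 1)) ^ 2 := by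
      rw [hl, ← pow_mul, mul_comm (Nat.log 2 n + 1) 2, pow_succ, mul_comm]
    omega
  have hmL : ∀ m, (m + 1) * (2 * l + 2) ≤ n → m * (2 * l + 2) ≤ n := by
    intro m hm
    refine le_trans (Nat.mul_le_mul_right _ (by omega)) hm
  have h := blocksR p hp hp1 (fun ω => (P ω).flip) (2 * l + 2) (2 ^ l) T S hn (by omega) hk hU
    (fun m v => word n (2 * l + 2) (enc l) none m v)
    (fun m v v' q hq => word_local l (2 * l + 2) m v v' q hq)
    (by
      intro m hm v hv
      rw [prob_flip]
      have h1 := h (word n (2 * l + 2) (enc l) none m v)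
      have h2 : List.ofFn (word n (2 * l + 2) (enc l) none m v) ∉ gram.language := by
        rw [mem_language]
        intro hPS
        obtain ⟨a, b, hab, hvab⟩ := eq_of_PS l rfl (hmL m hm) v hPS
        exact hab (hv hvab)
      rw [decide_eq_false h2] at h1
      exact h1)
    (by
      intro m hm v hv
      rw [prob_flip]
      have h1 := h (word n (2 * l + 2) (enc l) none m v)
      have h2 : List.ofFn (word n (2 * l + 2) (enc l) none m v) ∈ gram.language := by
        rw [mem_language]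
        unfold Function.Injective at hv
        push Not at hv
        obtain ⟨a, b, hvab, hab⟩ := hv
        rcases lt_or_gt_of_ne hab with h | h
        · exact PS_of_eq l (by omega) rfl (hmL m hm) v a b h hvab
        · exact PS_of_eq l (by omega) rfl (hmL m hm) v b a h hvab.symm
      rw [decide_eq_true h2] at h1
      exact h1)
    (fun ω => hS ω)
  refine h.trans ?_
  have h2 : 2 * l + 2 ≤ 8 * (Nat.log 2 n + 1) := by rw [hl]; omega
  calc 342468 * (k * (S + 1) * (2 * l + 2) * (k * T + n) ^ 2)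
      ≤ 342468 * (k * (S + 1) * (8 * (Nat.log 2 n + 1)) * (k * T + n) ^ 2) := by gcongr
    _ = 2739744 * (k * (S + 1) * (Nat.log 2 n + 1) * (k * T + n) ^ 2) := by ring
    _ ≤ 3000000 * (k * (S + 1) * (Nat.log 2 n + 1) * (k * T + n) ^ 2) := by gcongr; norm_num

end Pool.Agent.TH457.HT
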