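import Pool.Agent.TH457.HT.Defs

/-!
# Transcripts of computations with slow heads
-/

set_option autoImplicit false

open Finset

namespace Pool.Agent.TH457.HT

variable {Λ : Type} {n k : ℕ}

/-- A step with no head in the forbidden zone (`b` if `m = false`, `a` if `m = true`). -/
def RR (P : HeadProg Λ n k) (lam a b : ℕ) (x : Fin n → Λ) (m : Bool) (c c' : P.Cfg) : Prop :=
  P.Step x c c' ∧ ∀ h, (c.2 h : ℕ) / lam ≠ (if m then a else b)

/-- Transcripts: alternating segments which avoid `b` and segments which avoid `a`. -/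
def Tr (P : HeadProg Λ n k) (lam a b : ℕ) (x : Fin n → Λ) : Bool → P.Cfg → List P.Cfg → Prop
  | _, c, [] => P.acc c.1 c.2
  | m, c, c' :: τ => Relation.ReflTransGen (RR P lam a b x m) c c' ∧ Tr P lam a b x (!m) c' τ

theorem rtg_mono {α : Type*} {r p : α → α → Prop} (h : ∀ a b, r a b → p a b) {a b : α}
    (hab : Relation.ReflTransGen r a b) : Relation.ReflTransGen p a b := by
  induction hab with
  | refl => exact Relation.ReflTransGen.refl
  | tail _ h2 ih => exact ih.tail (h _ _ h2)

theorem Tr_mix (P : HeadProg Λ n k) (lam a b : ℕ) (x y z : Fin n → Λ)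
    (hx : ∀ p : Fin n, (p : ℕ) / lam ≠ b → z p = x p)
    (hy : ∀ p : Fin n, (p : ℕ) / lam ≠ a → z p = y p) :
    ∀ (τ : List P.Cfg) (m : Bool) (c : P.Cfg), Tr P lam a b x m c τ → Tr P lam a b y m c τ →
      Tr P lam a b z m c τ := by
  intro τ
  induction τ with
  | nil => intro m c h _; exact h
  | cons c' τ ih =>
    intro m c h1 h2
    refine ⟨?_, ih _ _ h1.2 h2.2⟩
    cases m with
    | false =>
      refine rtg_mono ?_ h1.1
      intro u v huv
      refine ⟨?_, huv.2⟩
      have h := huv.1
      unfold HeadProg.Step at h ⊢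
      have e : (fun i => z (u.2 i)) = (fun i => x (u.2 i)) := by
        funext i
        exact hx _ (by simpa using huv.2 i)
      rw [e]; exact h
    | true =>
      refine rtg_mono ?_ h2.1
      intro u v huv
      refine ⟨?_, huv.2⟩
      have h := huv.1
      unfold HeadProg.Step at h ⊢
      have e : (fun i => z (u.2 i)) = (fun i => y (u.2 i)) := by
        funext i
        exact hy _ (by simpa using huv.2 i)
      rw [e]; exact h

theorem path_of_rtg (P : HeadProg Λ n k) (x : Fin n → Λ) (c c' : P.Cfg)
    (h : Relation.ReflTransGen (P.Step x) c c') :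
    ∃ t, ∃ f : ℕ → P.Cfg, f 0 = c ∧ f t = c' ∧ ∀ i < t, P.Step x (f i) (f (i + 1)) := by
  induction h with
  | refl => exact ⟨0, fun _ => c, rfl, rfl, fun i hi => absurd hi (by omega)⟩
  | @tail u v _ huv ih =>
    obtain ⟨t, f, h0, ht, hs⟩ := ih
    refine ⟨t + 1, fun i => if i ≤ t then f i else v, by simpa using h0, by simp, ?_⟩
    intro i hi
    rcases Nat.lt_or_ge i t with h | h
    · have e1 : i ≤ t := h.le
      have e2 : i + 1 ≤ t := h
      simp only [e1, e2, if_true]
      exact hs i h
    · have e1 : i = t := by omega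
      subst e1
      simp only [le_refl, if_true]
      rw [if_neg (by omega), ht]
      exact huv

theorem Tr_rtg (P : HeadProg Λ n k) (lam a b : ℕ) (x : Fin n → Λ) :
    ∀ (τ : List P.Cfg) (m : Bool) (c : P.Cfg), Tr P lam a b x m c τ →
      ∃ c', Relation.ReflTransGen (P.Step x) c c' ∧ P.acc c'.1 c'.2 := by
  intro τ
  induction τ with
  | nil => intro m c h; exact ⟨c, Relation.ReflTransGen.refl, h⟩
  | cons c' τ ih =>
    intro m c h
    obtain ⟨c'', h1, h2⟩ := ih _ _ h.2
    exact ⟨c'', (rtg_mono (fun u v huv => huv.1) h.1).trans h1, h2⟩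

theorem Tr_accepts (P : HeadProg Λ n k) (lam a b : ℕ) (x : Fin n → Λ) (τ : List P.Cfg) (m : Bool)
    (c : P.Cfg) (hc : P.init c.1 c.2) (h : Tr P lam a b x m c τ) : P.Accepts x := by
  obtain ⟨c', h1, h2⟩ := Tr_rtg P lam a b x τ m c h
  obtain ⟨t, f, h0, ht, hs⟩ := path_of_rtg P x c c' h1
  exact ⟨t, t, le_rfl, f, by rw [h0]; exact hc, by rw [ht]; exact h2, hs⟩

/-- slow heads -/
theorem slow_path (P : HeadProg Λ n k) (x : Fin n → Λ) (te : ℕ) (c : ℕ → P.Cfg)
    (hs : ∀ i < te, P.Step x (c i) (c (i + 1))) (s : ℕ) (h : Fin k) :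
    ∀ t, s + t ≤ te → ((c (s + t)).2 h : ℕ) ≤ ((c s).2 h : ℕ) + t ∧
      ((c s).2 h : ℕ) ≤ ((c (s + t)).2 h : ℕ) + t := by
  intro t
  induction t with
  | zero => intro _; simp
  | succ t ih =>
    intro ht
    have h1 := ih (by omega)
    have h2 := P.slow _ _ _ _ _ (hs (s + t) (by omega)) h
    have e : s + (t + 1) = s + t + 1 := by ring
    rw [e]
    omega

/-- segments -/
theorem seg_path (P : HeadProg Λ n k) (lam a b : ℕ) (x : Fin n → Λ) (m : Bool) (te : ℕ)
    (c : ℕ → P.Cfg) (hs : ∀ i < te, P.Step x (c i) (c (i + 1))) (s : ℕ) :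
    ∀ r, (∀ t, s ≤ t → t < s + r → t < te → ∀ h, ((c t).2 h : ℕ) / lam ≠ (if m then a else b)) →
      Relation.ReflTransGen (RR P lam a b x m) (c (min s te)) (c (min (s + r) te)) := by
  intro r
  induction r with
  | zero => intro _; exact Relation.ReflTransGen.refl
  | succ r ih =>
    intro hz
    have h1 := ih (fun t h1 h2 h3 => hz t h1 (by omega) h3)
    rcases Nat.lt_or_ge (s + r) te with h | h
    · have e1 : min (s + r) te = s + r := by omega
      have e2 : min (s + (r + 1)) te = s + r + 1 := by omega
      rw [e1] at h1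
      rw [e2]
      exact h1.tail ⟨hs _ h, hz (s + r) (by omega) (by omega) h⟩
    · have e1 : min (s + r) te = te := by omega
      have e2 : min (s + (r + 1)) te = te := by omega
      rw [e1] at h1
      rw [e2]
      exact h1

/-- The zones touched by the windows of a computation, and the transcripts. -/
theorem exists_touch (P : HeadProg Λ n k) (lam D T : ℕ) (hlam : 0 < lam) (x : Fin n → Λ)
    (hx : P.AcceptsIn T x) :
    ∃ Tch : ℕ → Finset (Fin D), (∀ i, (Tch i).card ≤ 3 * k) ∧
      ∀ a b : Fin D, (∀ i < T / lam + 1, a ∈ Tch i → b ∉ Tch i) →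
        ∃ (c₀ : P.Cfg) (τ : List P.Cfg), P.init c₀.1 c₀.2 ∧ Tr P lam a b x false c₀ τ ∧
          τ.length ≤ 2 * ((range (T / lam + 1)).filter (fun i => b ∈ Tch i)).card + 1 := by
  classical
  obtain ⟨te, hte, c, hinit, hacc, hs⟩ := hx
  refine ⟨fun i => univ.filter (fun z : Fin D => ∃ t, i * lam ≤ t ∧ t < i * lam + lam ∧ t < te ∧
    ∃ h, ((c t).2 h : ℕ) / lam = z), ?_, ?_⟩
  · intro i
    have hsub : (univ.filter (fun z : Fin D => ∃ t, i * lam ≤ t ∧ t < i * lam + lam ∧ t < te ∧
        ∃ h, ((c t).2 h : ℕ) / lam = z)).image (fun z : Fin D => (z : ℕ)) ⊆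
        (univ : Finset (Fin k)).biUnion (fun h =>
          Finset.Icc (((c (i * lam)).2 h : ℕ) / lam - 1) (((c (i * lam)).2 h : ℕ) / lam + 1)) := by
      intro z hz
      simp only [mem_image, mem_filter, mem_univ, true_and] at hz
      obtain ⟨z', ⟨t, h1, h2, h3, h, h4⟩, rfl⟩ := hz
      simp only [mem_biUnion, mem_univ, true_and, Finset.mem_Icc]
      refine ⟨h, ?_⟩
      obtain ⟨r, rfl⟩ : ∃ r, t = i * lam + r := ⟨t - i * lam, by omega⟩
      have h5 := slow_path P x te c hs (i * lam) h r h3.le
      rw [← h4]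
      have hr : r < lam := by omega
      obtain ⟨u, hu⟩ : ∃ u, u = ((c (i * lam + r)).2 h : ℕ) := ⟨_, rfl⟩
      obtain ⟨v, hv⟩ : ∃ v, v = ((c (i * lam)).2 h : ℕ) := ⟨_, rfl⟩
      rw [← hu, ← hv] at h5 ⊢
      have e1 : u / lam ≤ (v + lam) / lam := Nat.div_le_div_right (by omega)
      have e2 : v / lam ≤ (u + lam) / lam := Nat.div_le_div_right (by omega)
      rw [Nat.add_div_right _ hlam] at e1 e2
      exact ⟨Nat.sub_le_iff_le_add.mpr e2, e1⟩
    have hcard : ((univ : Finset (Fin k)).biUnion (fun h =>
          Finset.Icc (((c (i * lam)).2 h : ℕ) / lam - 1) (((c (i * lam)).2 h : ℕ) / lam + 1))).card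
          ≤ 3 * k := by
      refine card_biUnion_le.trans ?_
      refine (Finset.sum_le_sum (g := fun _ => 3) ?_).trans ?_
      · intro h _
        rw [Nat.card_Icc]; omega
      · simp [mul_comm]
    have := (card_le_card hsub).trans hcard
    rwa [card_image_of_injective _ Fin.val_injective] at this
  · intro a b hab
    obtain ⟨N, hN⟩ : ∃ N, N = T / lam + 1 := ⟨_, rfl⟩
    rw [← hN] at hab ⊢
    set Tch : ℕ → Finset (Fin D) := fun i => univ.filter (fun z : Fin D => ∃ t, i * lam ≤ t ∧
      t < i * lam + lam ∧ t < te ∧ ∃ h, ((c t).2 h : ℕ) / lam = z) with hTch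
    have key : ∀ r ≤ N, ∃ (c' : P.Cfg) (τ : List P.Cfg),
        Relation.ReflTransGen (RR P lam a b x false) (c (min ((N - r) * lam) te)) c' ∧
        Tr P lam a b x true c' τ ∧
        τ.length ≤ 2 * ((Finset.Ico (N - r) N).filter (fun i => b ∈ Tch i)).card := by
      intro r
      induction r with
      | zero =>
        intro _
        refine ⟨c te, [], ?_, hacc, by simp⟩
        have : T < N * lam := by
          rw [hN]
          have := Nat.div_add_mod T lam
          have h2 := Nat.mod_lt T hlam
          calc T = lam * (T / lam) + T % lam := this.symm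
            _ < lam * (T / lam) + lam := by omega
            _ = (T / lam + 1) * lam := by ring
        have e : min ((N - 0) * lam) te = te := by
          rw [Nat.sub_zero]; omega
        rw [e]
      | succ r ih =>
        intro hr
        obtain ⟨c', τ, h1, h2, h3⟩ := ih (by omega)
        obtain ⟨i, hi⟩ : ∃ i, i = N - (r + 1) := ⟨_, rfl⟩
        have hi1 : N - r = i + 1 := by omega
        rw [← hi]
        rw [hi1] at h1 h3
        have hiN : i < N := by omega
        have hmul : (i + 1) * lam = i * lam + lam := by ring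
        rw [hmul] at h1
        have hIco : Finset.Ico i N = insert i (Finset.Ico (i + 1) N) := by
          ext u; simp only [Finset.mem_Ico, Finset.mem_insert]; omega
        have hnot : i ∉ Finset.Ico (i + 1) N := by simp
        by_cases hb : b ∈ Tch i
        · have ha : a ∉ Tch i := fun ha => hab i hiN ha hb
          refine ⟨c (min (i * lam) te), c (min (i * lam + lam) te) :: c' :: τ,
            Relation.ReflTransGen.refl, ⟨?_, h1, h2⟩, ?_⟩
          · apply seg_path P lam a b x true te c hs (i * lam) lam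
            intro t ht1 ht2 ht3 h
            simp only [if_true]
            intro hh
            apply ha
            rw [hTch]
            simp only [mem_filter, mem_univ, true_and]
            exact ⟨t, ht1, ht2, ht3, h, hh⟩
          · rw [hIco, filter_insert, if_pos hb, card_insert_of_notMem]
            · simp only [List.length_cons]; omega
            · intro hh; exact hnot (mem_filter.mp hh).1
        · refine ⟨c', τ, ?_, h2, ?_⟩
          · refine Relation.ReflTransGen.trans ?_ h1
            apply seg_path P lam a b x false te c hs (i * lam) lam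
            intro t ht1 ht2 ht3 h
            simp only [Bool.false_eq_true, if_false]
            intro hh
            apply hb
            rw [hTch]
            simp only [mem_filter, mem_univ, true_and]
            exact ⟨t, ht1, ht2, ht3, h, hh⟩
          · rw [hIco, filter_insert, if_neg hb]; exact h3
    obtain ⟨c', τ, h1, h2, h3⟩ := key N le_rfl
    rw [Nat.sub_self, zero_mul] at h1
    rw [Nat.sub_self] at h3
    have e0 : min 0 te = 0 := by omega
    rw [e0] at h1
    refine ⟨c 0, c' :: τ, hinit, ⟨h1, h2⟩, ?_⟩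
    rw [List.length_cons, Finset.range_eq_Ico]
    omega

end Pool.Agent.TH457.HT
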