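import Pool.Agent.TH457.HT.SatW
import Pool.Agent.TH457.HT.LinR

/-!
# Slow heads and the satisfiability and validity of expressions
-/

set_option autoImplicit false

open Finset

namespace Pool.Agent.TH457.HT

open Pool.Agent.W952.Sat

/-- valid expressions -/
def Valid (e : Expr) : Prop := ∀ v : ℕ → Bool, e.eval v = true

/-- the number of letters of a block -/
def bl (x : ℕ) : ℕ := (2 * x + 2 + 9) * (x + 5 + 4) + 3 * (2 * x + 2) + 27 + 2

/-- the block `j` with the value `u`, for words of length `n`, `x = log₂ n` -/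
def SB (x j : ℕ) (u : Fin (2 ^ (2 * x + 3))) : List Sym :=
  if j + 1 < 2 ^ (x + 5) then Sym.lpar :: ((EB (x + 5) (2 * x + 2) j u).code ++ [Sym.and])
  else List.replicate (bl x) Sym.zero

theorem pow_ge (x : ℕ) : 2 * (2 * x + 2) + 2 ≤ 2 ^ (x + 5) := by
  have h1 : x < 2 ^ x := Nat.lt_two_pow_self
  have h2 : 2 ^ (x + 5) = 32 * 2 ^ x := by rw [pow_add]; ring
  omega

theorem SB_length (x j : ℕ) (u : Fin (2 ^ (2 * x + 3))) : (SB x j u).length = bl x := by
  unfold SB
  by_cases h : j + 1 < 2 ^ (x + 5)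
  · rw [if_pos h]
    simp only [List.length_cons, List.length_append, List.length_nil]
    rw [EB_code (x + 5) (2 * x + 2) j u h (pow_ge x)]
    unfold bl
    ring
  · rw [if_neg h, List.length_replicate]

/-- the number of the negations -/
def npad (n x m : ℕ) : ℕ :=
  n - (m * bl x + ((2 * (2 * x + 2) + 5) * (x + 5 + 4) + 8 * (2 * x + 2) + 21 + m))

/-- the rest of the word -/
def SR (n x m : ℕ) : List Sym :=
  (ER (x + 5) (2 * x + 2) m (npad n x m)).code ++ List.replicate m Sym.rpar

/-- the word -/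
def SW (n x m : ℕ) (v : Fin m → Fin (2 ^ (2 * x + 3))) : Fin n → Sym :=
  flatWord n (bl x) Sym.zero (SB x) m (SR n x m) v

/-- the values as a function on all numbers -/
def exv {U : ℕ} (m : ℕ) (v : Fin m → Fin U) (j : ℕ) : ℕ := if h : j < m then (v ⟨j, h⟩ : ℕ) else 0

/-- the expression -/
def SE (n x m : ℕ) (v : Fin m → Fin (2 ^ (2 * x + 3))) : Expr :=
  EW (x + 5) (2 * x + 2) (exv m v) (ER (x + 5) (2 * x + 2) m (npad n x m)) 0 m

theorem m_lt {n m : ℕ} (hn : 0 < n) (hm : m < n) : m + 1 < 2 ^ (Nat.log 2 n + 5) := by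
  have h1 : n < 2 ^ (Nat.log 2 n + 1) := Nat.lt_pow_succ_log_self (by norm_num) n
  have h2 : 2 ^ (Nat.log 2 n + 5) = 16 * 2 ^ (Nat.log 2 n + 1) := by
    rw [pow_add, pow_add]; ring
  omega

theorem SW_code (n x m : ℕ) (hx : x = Nat.log 2 n) (hn : 0 < n) (hm : (m + 1) * (2 * bl x) ≤ n)
    (v : Fin m → Fin (2 ^ (2 * x + 3))) :
    List.ofFn (SW n x m v) = (SE n x m v).code := by
  have hbl : 1 ≤ bl x := by unfold bl; omega
  have hmn : m < n := by nlinarith
  have hm2 : m + 1 < 2 ^ (x + 5) := by rw [hx]; exact m_lt hn hmn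
  have hR : m * bl x + (SR n x m).length = n := by
    unfold SR
    rw [List.length_append, List.length_replicate, ER_code _ _ _ _ (by omega) (pow_ge x)]
    unfold npad
    have h1 : m * 1 ≤ m * bl x := Nat.mul_le_mul_left _ hbl
    have h2 : (m + 1) * (2 * bl x) = 2 * (m * bl x) + 2 * bl x := by ring
    have h3 : (2 * (2 * x + 2) + 5) * (x + 5 + 4) + 8 * (2 * x + 2) + 21 ≤ 2 * bl x := by
      unfold bl; nlinarith
    omega
  have h4 := ofFn_flatWord n (bl x) (by omega) Sym.zero (SB x) (SB_length x) m (SR n x m) hR v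
    (fun j => if h : j < m then v ⟨j, h⟩ else ⟨0, by positivity⟩)
    (fun j => by rw [dif_pos j.2])
  unfold SW SE
  rw [h4, code_EW]
  unfold SR
  congr 2
  rw [List.range_eq_range']
  apply List.map_congr_left
  intro j hj
  rw [List.mem_range'_1] at hj
  have hjm : j < m := by omega
  unfold SB
  rw [if_pos (by omega)]
  have e : ((if h : j < m then v ⟨j, h⟩ else ⟨0, by positivity⟩ : Fin (2 ^ (2 * x + 3))) : ℕ)
      = exv m v j := by
    unfold exv
    rw [dif_pos hjm, dif_pos hjm]
  rw [e]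

theorem SE_length (n x m : ℕ) (hx : x = Nat.log 2 n) (hn : 0 < n)
    (hm : (m + 1) * (2 * bl x) ≤ n) (v : Fin m → Fin (2 ^ (2 * x + 3))) :
    (SE n x m v).code.length = n := by
  rw [← SW_code n x m hx hn hm v, List.length_ofFn]

theorem SW_word (n x m : ℕ) (hx : x = Nat.log 2 n) (hn : 0 < n)
    (hm : (m + 1) * (2 * bl x) ≤ n) (v : Fin m → Fin (2 ^ (2 * x + 3))) :
    SW n x m v = Pool.Agent.W952.Sat.word (SE n x m v) (SE_length n x m hx hn hm v) := by
  funext i
  have h1 : (List.ofFn (SW n x m v))[(i : ℕ)]? = (SE n x m v).code[(i : ℕ)]? := by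
    rw [SW_code n x m hx hn hm v]
  unfold Pool.Agent.W952.Sat.word
  have h2 : (i : ℕ) < (SE n x m v).code.length := by
    rw [SE_length n x m hx hn hm v]; exact i.2
  rw [List.getElem?_eq_getElem h2, List.getElem?_eq_getElem (by simp),
    Option.some.injEq, List.getElem_ofFn] at h1
  rw [List.get_eq_getElem]
  exact h1

theorem SE_sat (n x m : ℕ) (hx : x = Nat.log 2 n) (hn : 0 < n)
    (hm : (m + 1) * (2 * bl x) ≤ n) (v : Fin m → Fin (2 ^ (2 * x + 3))) :
    (SE n x m v).Satisfiable ↔ ¬ Function.Injective v := by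
  have hbl : 1 ≤ bl x := by unfold bl; omega
  have hmn : m < n := by nlinarith
  have hm2 : m + 1 < 2 ^ (x + 5) := by rw [hx]; exact m_lt hn hmn
  unfold SE
  rw [sat_iff (x + 5) (2 * x + 2) m _ (exv m v) (by
    intro j hj
    unfold exv
    rw [dif_pos hj]
    exact (v ⟨j, hj⟩).2) (by omega) (pow_ge x)]
  constructor
  · rintro ⟨a, b, hab, hb, h⟩ hinj
    unfold exv at h
    rw [dif_pos (by omega), dif_pos hb] at h
    have h1 := hinj (Fin.ext h)
    have h2 := congrArg Fin.val h1
    simp only at h2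
    omega
  · intro h
    unfold Function.Injective at h
    push Not at h
    obtain ⟨a, b, hvab, hab⟩ := h
    rcases lt_or_gt_of_ne hab with h | h
    · refine ⟨a, b, h, b.2, ?_⟩
      unfold exv
      rw [dif_pos a.2, dif_pos b.2, hvab]
    · refine ⟨b, a, h, a.2, ?_⟩
      unfold exv
      rw [dif_pos a.2, dif_pos b.2, hvab]

theorem bl_le (x : ℕ) : bl x ≤ 134 * (x + 1) ^ 2 := by
  unfold bl; nlinarith

theorem two_sq_le (n : ℕ) : 2 * n ^ 2 ≤ 2 ^ (2 * Nat.log 2 n + 3) := by
  have h1 : n < 2 ^ (Nat.log 2 n + 1) := Nat.lt_pow_succ_log_self (by norm_num) n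
  have h2 : n ^ 2 ≤ (2 ^ (Nat.log 2 n + 1)) ^ 2 := Nat.pow_le_pow_left h1.le 2
  have h3 : 2 ^ (2 * Nat.log 2 n + 3) = 2 * (2 ^ (Nat.log 2 n + 1)) ^ 2 := by
    rw [← pow_mul, show 2 * Nat.log 2 n + 3 = (Nat.log 2 n + 1) * 2 + 1 by ring, pow_succ, mul_comm]
  omega

open Classical in
/-- **Randomized programs with slow heads for SAT.** -/
theorem sat_rand {n k : ℕ} {Ω : Type} [Fintype Ω] (p : Ω → ℝ) (hp : ∀ ω, 0 ≤ p ω)
    (hp1 : ∑ ω, p ω = 1) (P : Ω → DetProg Sym n k) (T S : ℕ) (hk : 1 ≤ k)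
    (hS : ∀ ω, Fintype.card (P ω).Q * n ^ k ≤ 2 ^ S)
    (h : ∀ (e : Expr) (he : e.code.length = n),
      1 - 1 / 20000 ≤ prob p P T (Pool.Agent.W952.Sat.word e he) (decide e.Satisfiable)) :
    n ^ 3 ≤ 400000000 * (k * (S + 1) * (Nat.log 2 n + 1) ^ 2 * (k * T + n) ^ 2) := by
  rcases Nat.eq_zero_or_pos n with h0 | hn
  · subst h0; simp
  have hbl : 0 < bl (Nat.log 2 n) := by unfold bl; omega
  have h := blocksR2 p hp hp1 (fun ω => (P ω).flip) (bl (Nat.log 2 n))
    (2 ^ (2 * Nat.log 2 n + 3)) T S hn hbl hk (two_sq_le n)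
    (fun m v => SW n (Nat.log 2 n) m v)
    (fun m v v' q hq => flatWord_local n _ _ _ m _ v v' q hq)
    (by
      intro m hm v hv
      rw [prob_flip, SW_word n _ m rfl hn hm v]
      have h1 := h _ (SE_length n _ m rfl hn hm v)
      have h2 : ¬ (SE n (Nat.log 2 n) m v).Satisfiable := by
        rw [SE_sat n _ m rfl hn hm v]; exact fun h => h hv
      rw [decide_eq_false h2] at h1
      exact h1)
    (by
      intro m hm v hv
      rw [prob_flip, SW_word n _ m rfl hn hm v]
      have h1 := h _ (SE_length n _ m rfl hn hm v)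
      have h2 : (SE n (Nat.log 2 n) m v).Satisfiable := by
        rw [SE_sat n _ m rfl hn hm v]; exact hv
      rw [decide_eq_true h2] at h1
      exact h1)
    (fun ω => hS ω)
  refine h.trans ?_
  calc 2733528 * (k * (S + 1) * bl (Nat.log 2 n) * (k * T + n) ^ 2)
      ≤ 2733528 * (k * (S + 1) * (134 * (Nat.log 2 n + 1) ^ 2) * (k * T + n) ^ 2) := by
        gcongr; exact bl_le _
    _ = 366292752 * (k * (S + 1) * (Nat.log 2 n + 1) ^ 2 * (k * T + n) ^ 2) := by ring
    _ ≤ 400000000 * (k * (S + 1) * (Nat.log 2 n + 1) ^ 2 * (k * T + n) ^ 2) := by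
        gcongr; norm_num

/-! ### the dual expressions -/

/-- the dual expression -/
def dual : Expr → Expr
  | .var i => .var i
  | .neg e => .neg (dual e)
  | .and e f => .or (dual e) (dual f)
  | .or e f => .and (dual e) (dual f)

theorem eval_dual (e : Expr) (v : ℕ → Bool) : (dual e).eval v = !(e.eval (fun i => !(v i))) := by
  induction e with
  | var i => simp [dual, Expr.eval]
  | neg e ih => simp [dual, Expr.eval, ih]
  | and e f ih1 ih2 => simp [dual, Expr.eval, ih1, ih2]
  | or e f ih1 ih2 => simp [dual, Expr.eval, ih1, ih2]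

theorem valid_dual (e : Expr) : Valid (dual e) ↔ ¬ e.Satisfiable := by
  unfold Valid Expr.Satisfiable
  constructor
  · rintro h ⟨v, hv⟩
    have h1 := h (fun i => !(v i))
    rw [eval_dual] at h1
    simp only [Bool.not_not] at h1
    rw [hv] at h1
    cases h1
  · intro h v
    rw [eval_dual]
    cases h1 : e.eval (fun i => !(v i)) with
    | true => exact absurd ⟨_, h1⟩ h
    | false => rfl

/-- exchange conjunctions and disjunctions -/
def sw : Sym → Sym
  | .and => .or
  | .or => .and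
  | s => s

theorem bin_sw (i : ℕ) : (bin i).map sw = bin i := by
  unfold bin
  rw [List.map_map]
  apply List.map_congr_left
  intro d _
  simp only [Function.comp_apply]
  split_ifs <;> rfl

theorem code_dual (e : Expr) : (dual e).code = e.code.map sw := by
  induction e with
  | var i => simp [dual, Expr.code, bin_sw, sw]
  | neg e ih => simp [dual, Expr.code, ih, sw]
  | and e f ih1 ih2 => simp [dual, Expr.code, ih1, ih2, sw]
  | or e f ih1 ih2 => simp [dual, Expr.code, ih1, ih2, sw]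

theorem length_dual {n : ℕ} (e : Expr) (h : e.code.length = n) : (dual e).code.length = n := by
  rw [code_dual, List.length_map, h]

theorem word_dual {n : ℕ} (e : Expr) (h : e.code.length = n) :
    Pool.Agent.W952.Sat.word (dual e) (length_dual e h)
      = fun i => sw (Pool.Agent.W952.Sat.word e h i) := by
  funext i
  unfold Pool.Agent.W952.Sat.word
  rw [List.get_eq_getElem, List.get_eq_getElem]
  simp only [code_dual, List.getElem_map, Fin.val_cast]

/-- **Nondeterministic programs with slow heads for the valid expressions.** -/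
theorem taut_nondet {n k : ℕ} (P : HeadProg Sym n k) (T S : ℕ) (hk : 1 ≤ k)
    (hS : Fintype.card P.Q * n ^ k ≤ 2 ^ S)
    (hsound : ∀ (e : Expr) (he : e.code.length = n),
      P.Accepts (Pool.Agent.W952.Sat.word e he) → Valid e)
    (hacc : ∀ (e : Expr) (he : e.code.length = n), Valid e →
      P.AcceptsIn T (Pool.Agent.W952.Sat.word e he)) :
    n ^ 3 ≤ 9000000 * (k * (S + 1) * (Nat.log 2 n + 1) ^ 2 * (k * T + n) ^ 2) := by
  rcases Nat.eq_zero_or_pos n with h0 | hn
  · subst h0; simp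
  have hbl : 0 < bl (Nat.log 2 n) := by unfold bl; omega
  have hWd : ∀ m, ∀ hm : (m + 1) * (2 * bl (Nat.log 2 n)) ≤ n,
      ∀ v : Fin m → Fin (2 ^ (2 * Nat.log 2 n + 3)),
      (fun i => sw (SW n (Nat.log 2 n) m v i)) =
        Pool.Agent.W952.Sat.word (dual (SE n (Nat.log 2 n) m v))
          (length_dual _ (SE_length n _ m rfl hn hm v)) := by
    intro m hm v
    rw [word_dual, SW_word n _ m rfl hn hm v]
  have h := blocksN2 P (bl (Nat.log 2 n)) (2 ^ (2 * Nat.log 2 n + 3)) T S hn hbl hk (two_sq_le n)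
    (fun m v i => sw (SW n (Nat.log 2 n) m v i))
    (fun m v v' q hq => congrArg sw (flatWord_local n _ _ _ m _ v v' q hq))
    (by
      intro m hm v hv
      have h1 : Valid (dual (SE n (Nat.log 2 n) m v)) := by
        rw [valid_dual, SE_sat n _ m rfl hn hm v]; exact fun h => h hv
      have h2 := hacc _ (length_dual _ (SE_length n _ m rfl hn hm v)) h1
      rw [← hWd m hm v] at h2
      exact h2)
    (by
      intro m hm v hv
      rw [hWd m hm v] at hv
      have h1 := hsound _ _ hv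
      rw [valid_dual, SE_sat n _ m rfl hn hm v, not_not] at h1
      exact h1)
    hS
  refine h.trans ?_
  calc 66312 * (k * (S + 1) * bl (Nat.log 2 n) * (k * T + n) ^ 2)
      ≤ 66312 * (k * (S + 1) * (134 * (Nat.log 2 n + 1) ^ 2) * (k * T + n) ^ 2) := by
        gcongr; exact bl_le _
    _ = 8885808 * (k * (S + 1) * (Nat.log 2 n + 1) ^ 2 * (k * T + n) ^ 2) := by ring
    _ ≤ 9000000 * (k * (S + 1) * (Nat.log 2 n + 1) ^ 2 * (k * T + n) ^ 2) := by
        gcongr; norm_num

end Pool.Agent.TH457.HT
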