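import Pool.Agent.TH457.HT.Flat
import Pool.Agent.W952.Sat.Defs

/-!
# Distinct blocks as expressions
-/

set_option autoImplicit false

open Finset

namespace Pool.Agent.TH457.HT

open Pool.Agent.W952.Sat

/-- the variable with the tag `g < 4` and the number `i < 2 ^ r` -/
def V (r g i : ℕ) : Expr := Expr.var (2 ^ (r + 2) + g * 2 ^ r + i - 1)

theorem bin_length (i : ℕ) (w : ℕ) (h1 : 2 ^ w ≤ i) (h2 : i < 2 ^ (w + 1)) :
    (bin i).length = w + 1 := by
  unfold bin
  rw [List.length_map, List.length_reverse]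
  have h0 : i ≠ 0 := by
    have : 0 < 2 ^ w := by positivity
    omega
  rw [Nat.digits_len 2 i (by norm_num) h0, Nat.log_eq_of_pow_le_of_lt_pow h1 h2]

theorem V_index (r g i : ℕ) (hg : g < 4) (hi : i < 2 ^ r) :
    2 ^ (r + 2) ≤ 2 ^ (r + 2) + g * 2 ^ r + i ∧
      2 ^ (r + 2) + g * 2 ^ r + i < 2 ^ (r + 2 + 1) := by
  have h1 : g * 2 ^ r + i < 4 * 2 ^ r := by
    calc g * 2 ^ r + i < g * 2 ^ r + 2 ^ r := by omega
      _ = (g + 1) * 2 ^ r := by ring
      _ ≤ 4 * 2 ^ r := Nat.mul_le_mul_right _ hg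
  have h2 : 2 ^ (r + 2) = 4 * 2 ^ r := by rw [pow_add]; ring
  have h3 : 2 ^ (r + 2 + 1) = 8 * 2 ^ r := by rw [pow_add, pow_add]; ring
  omega

theorem V_code (r g i : ℕ) (hg : g < 4) (hi : i < 2 ^ r) : (V r g i).code.length = r + 4 := by
  obtain ⟨h1, h2⟩ := V_index r g i hg hi
  have h3 : 1 ≤ 2 ^ (r + 2) := Nat.one_le_two_pow
  have h4 : 2 ^ (r + 2) + g * 2 ^ r + i - 1 + 1 = 2 ^ (r + 2) + g * 2 ^ r + i := by omega
  unfold V
  rw [Expr.code, h4, List.length_cons, bin_length _ (r + 2) h1 h2]

/-- the conjunction of `f 0, …, f N` -/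
def bigAnd (f : ℕ → Expr) : ℕ → Expr
  | 0 => f 0
  | N + 1 => .and (f (N + 1)) (bigAnd f N)

theorem eval_bigAnd (ρ : ℕ → Bool) (f : ℕ → Expr) (N : ℕ) :
    (bigAnd f N).eval ρ = true ↔ ∀ i ≤ N, (f i).eval ρ = true := by
  induction N with
  | zero =>
    rw [bigAnd]
    exact ⟨fun h i hi => by rw [Nat.le_zero.mp hi]; exact h, fun h => h 0 le_rfl⟩
  | succ N ih =>
    rw [bigAnd, Expr.eval, Bool.and_eq_true, ih]
    constructor
    · rintro ⟨h1, h2⟩ i hi
      rcases Nat.lt_or_ge i (N + 1) with h | h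
      · exact h2 i (by omega)
      · rw [show i = N + 1 by omega]; exact h1
    · intro h
      exact ⟨h (N + 1) le_rfl, fun i hi => h i (by omega)⟩

theorem code_bigAnd (f : ℕ → Expr) (c : ℕ) (N : ℕ) (h : ∀ i ≤ N, (f i).code.length = c) :
    (bigAnd f N).code.length = (N + 1) * c + 3 * N := by
  induction N with
  | zero => rw [bigAnd, h 0 le_rfl]; ring
  | succ N ih =>
    rw [bigAnd, Expr.code]
    simp only [List.length_cons, List.length_append, List.length_nil]
    rw [ih (fun i hi => h i (by omega)), h (N + 1) le_rfl]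
    ring

/-- the bits of the value -/
def bt (u i : ℕ) : ℕ := if Nat.testBit u i then 1 else 0

/-- The expression of block `j` with the value `u`, for values with `N + 1` bits. The variables are
`V r 0 j` (block `j` is selected), `V r 1 j` (some block before `j` is selected), `V r 2 j` (two
blocks before `j` are selected) and `V r 3 (2 i + b)` (the `i`-th bit of the value of the selected
blocks is `b`). -/
def EB (r N j u : ℕ) : Expr :=
  .and (.or (.neg (V r 0 j)) (bigAnd (fun i => V r 3 (2 * i + bt u i)) N))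
    (.and (.or (.neg (V r 1 (j + 1))) (.or (V r 1 j) (V r 0 j)))
      (.or (.neg (V r 2 (j + 1))) (.or (V r 2 j) (.and (V r 1 j) (V r 0 j)))))

theorem EB_code (r N j u : ℕ) (hj : j + 1 < 2 ^ r) (hN : 2 * N + 2 ≤ 2 ^ r) :
    (EB r N j u).code.length = (N + 9) * (r + 4) + 3 * N + 27 := by
  have hb : ∀ i, bt u i ≤ 1 := by intro i; unfold bt; split_ifs <;> omega
  have h3 := code_bigAnd (fun i => V r 3 (2 * i + bt u i)) (r + 4) N
    (fun i hi => V_code r 3 _ (by norm_num) (by have := hb i; omega))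
  unfold EB
  simp only [Expr.code, List.length_cons, List.length_append, List.length_nil]
  rw [h3, V_code r 0 j (by norm_num) (by omega), V_code r 1 j (by norm_num) (by omega),
    V_code r 2 j (by norm_num) (by omega), V_code r 1 (j + 1) (by norm_num) hj,
    V_code r 2 (j + 1) (by norm_num) hj]
  ring

/-- `pad` negations -/
def negs (e : Expr) : ℕ → Expr
  | 0 => e
  | N + 1 => .neg (negs e N)

theorem negs_code (e : Expr) (N : ℕ) : (negs e N).code.length = N + e.code.length := by
  induction N with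
  | zero => rw [negs]; ring
  | succ N ih => rw [negs, Expr.code, List.length_cons, ih]; ring

theorem negs_eval (ρ : ℕ → Bool) (e : Expr) (N : ℕ) :
    (negs e N).eval ρ = xor (e.eval ρ) (decide (N % 2 = 1)) := by
  induction N with
  | zero => rw [negs]; simp
  | succ N ih =>
    rw [negs, Expr.eval, ih]
    rcases Nat.mod_two_eq_zero_or_one N with h | h
    · have h1 : (N + 1) % 2 = 1 := by omega
      simp [h, h1]
    · have h1 : (N + 1) % 2 = 0 := by omega
      simp [h, h1]

/-- The rest: no block is selected before block `0`, two blocks are selected before block `m`, the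
bits are unique; `pad` negations of a new variable. -/
def ER (r N m pad : ℕ) : Expr :=
  .and (negs (.var 0) pad) (.and (.neg (V r 1 0)) (.and (.neg (V r 2 0)) (.and (V r 2 m)
    (bigAnd (fun i => .or (.neg (V r 3 (2 * i))) (.neg (V r 3 (2 * i + 1)))) N))))

theorem ER_code (r N m pad : ℕ) (hm : m < 2 ^ r) (hN : 2 * N + 2 ≤ 2 ^ r) :
    (ER r N m pad).code.length = pad + (2 * N + 5) * (r + 4) + 8 * N + 21 := by
  have h3 := code_bigAnd (fun i => .or (.neg (V r 3 (2 * i))) (.neg (V r 3 (2 * i + 1))))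
    (2 * (r + 4) + 5) N
    (fun i hi => by
      simp only [Expr.code, List.length_cons, List.length_append, List.length_nil]
      rw [V_code r 3 (2 * i) (by norm_num) (by omega),
        V_code r 3 (2 * i + 1) (by norm_num) (by omega)]
      ring)
  have h4 : (Expr.var 0).code.length = 2 := by
    rw [Expr.code, List.length_cons, bin_length 1 0 (by norm_num) (by norm_num)]
  have h5 : 1 ≤ 2 ^ r := Nat.one_le_two_pow
  unfold ER
  simp only [Expr.code, List.length_cons, List.length_append, List.length_nil]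
  rw [h3, negs_code, h4, V_code r 1 0 (by norm_num) (by omega),
    V_code r 2 0 (by norm_num) (by omega), V_code r 2 m (by norm_num) hm]
  ring

/-- the whole expression: the blocks `j, …, j + t - 1` and the rest -/
def EW (r N : ℕ) (u : ℕ → ℕ) (R : Expr) : ℕ → ℕ → Expr
  | _, 0 => R
  | j, t + 1 => .and (EB r N j (u j)) (EW r N u R (j + 1) t)

theorem eval_EW (ρ : ℕ → Bool) (r N : ℕ) (u : ℕ → ℕ) (R : Expr) : ∀ t j,
    (EW r N u R j t).eval ρ = true ↔
      (∀ i, j ≤ i → i < j + t → (EB r N i (u i)).eval ρ = true) ∧ R.eval ρ = true := by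
  intro t
  induction t with
  | zero =>
    intro j
    rw [EW]
    exact ⟨fun h => ⟨fun i h1 h2 => absurd h2 (by omega), h⟩, fun h => h.2⟩
  | succ t ih =>
    intro j
    rw [EW, Expr.eval, Bool.and_eq_true, ih]
    constructor
    · rintro ⟨h1, h2, h3⟩
      refine ⟨fun i h4 h5 => ?_, h3⟩
      rcases Nat.lt_or_ge j i with h | h
      · exact h2 i h (by omega)
      · rw [show i = j by omega]; exact h1
    · rintro ⟨h1, h2⟩
      exact ⟨h1 j le_rfl (by omega), fun i h3 h4 => h1 i (by omega) (by omega), h2⟩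

theorem code_EW (r N : ℕ) (u : ℕ → ℕ) (R : Expr) : ∀ t j,
    (EW r N u R j t).code = ((List.range' j t).map
      (fun i => Sym.lpar :: ((EB r N i (u i)).code ++ [Sym.and]))).flatten
      ++ (R.code ++ List.replicate t Sym.rpar) := by
  intro t
  induction t with
  | zero => intro j; simp [EW]
  | succ t ih =>
    intro j
    rw [EW, Expr.code, ih, List.range'_succ, List.map_cons, List.flatten_cons,
      List.replicate_succ']
    simp only [List.cons_append, List.append_assoc, List.nil_append]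

/-! ### semantics -/

/-- the assignment with the values `F g i` of the variables `V r g i` and the value `z` of the
first variable -/
def asg (r : ℕ) (F : ℕ → ℕ → Bool) (z : Bool) (x : ℕ) : Bool :=
  if x = 0 then z else F ((x + 1) / 2 ^ r % 4) ((x + 1) % 2 ^ r)

theorem asg_V (r : ℕ) (F : ℕ → ℕ → Bool) (z : Bool) (g i : ℕ) (hg : g < 4) (hi : i < 2 ^ r) :
    (V r g i).eval (asg r F z) = F g i := by
  obtain ⟨h1, h2⟩ := V_index r g i hg hi
  have h3 : 2 ^ (r + 2) = 4 * 2 ^ r := by rw [pow_add]; ring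
  have h5 : 1 ≤ 2 ^ r := Nat.one_le_two_pow
  have h4 : 2 ^ (r + 2) + g * 2 ^ r + i - 1 + 1 = (4 + g) * 2 ^ r + i := by
    rw [h3]
    have : (4 + g) * 2 ^ r = 4 * 2 ^ r + g * 2 ^ r := by ring
    omega
  unfold V
  rw [Expr.eval]
  unfold asg
  rw [if_neg (by omega), h4]
  have h6 : ((4 + g) * 2 ^ r + i) / 2 ^ r = 4 + g := by
    rw [mul_comm, Nat.mul_add_div (by omega), Nat.div_eq_of_lt hi, add_zero]
  have h7 : ((4 + g) * 2 ^ r + i) % 2 ^ r = i := by
    rw [mul_comm, Nat.mul_add_mod, Nat.mod_eq_of_lt hi]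
  rw [h6, h7]
  congr 1
  omega

theorem EB_eval (r N j u : ℕ) (ρ : ℕ → Bool) : (EB r N j u).eval ρ = true ↔
    (((V r 0 j).eval ρ = true → ∀ i ≤ N, (V r 3 (2 * i + bt u i)).eval ρ = true) ∧
    ((V r 1 (j + 1)).eval ρ = true → (V r 1 j).eval ρ = true ∨ (V r 0 j).eval ρ = true) ∧
    ((V r 2 (j + 1)).eval ρ = true → (V r 2 j).eval ρ = true ∨
      ((V r 1 j).eval ρ = true ∧ (V r 0 j).eval ρ = true))) := by
  unfold EB
  simp only [Expr.eval, Bool.and_eq_true, Bool.or_eq_true, Bool.not_eq_true', eval_bigAnd]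
  constructor
  · rintro ⟨h1, h2, h3⟩
    refine ⟨fun h i hi => ?_, fun h => ?_, fun h => ?_⟩
    · rcases h1 with h1 | h1
      · rw [h] at h1; cases h1
      · exact h1 i hi
    · rcases h2 with h2 | h2
      · rw [h] at h2; cases h2
      · exact h2
    · rcases h3 with h3 | h3
      · rw [h] at h3; cases h3
      · exact h3
  · rintro ⟨h1, h2, h3⟩
    refine ⟨?_, ?_, ?_⟩
    · cases h : (V r 0 j).eval ρ with
      | false => exact Or.inl rfl
      | true => exact Or.inr (h1 h)
    · cases h : (V r 1 (j + 1)).eval ρ with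
      | false => exact Or.inl rfl
      | true => exact Or.inr (h2 h)
    · cases h : (V r 2 (j + 1)).eval ρ with
      | false => exact Or.inl rfl
      | true => exact Or.inr (h3 h)

theorem ER_eval (r N m pad : ℕ) (ρ : ℕ → Bool) : (ER r N m pad).eval ρ = true ↔
    (xor (ρ 0) (decide (pad % 2 = 1)) = true ∧ (V r 1 0).eval ρ = false ∧
      (V r 2 0).eval ρ = false ∧ (V r 2 m).eval ρ = true ∧
      ∀ i ≤ N, (V r 3 (2 * i)).eval ρ = false ∨ (V r 3 (2 * i + 1)).eval ρ = false) := by
  unfold ER
  simp only [Expr.eval, Bool.and_eq_true, Bool.or_eq_true, Bool.not_eq_true', eval_bigAnd,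
    negs_eval]

/-- **The expression is satisfiable iff two values are equal.** -/
theorem sat_iff (r N m pad : ℕ) (u : ℕ → ℕ) (hu : ∀ j < m, u j < 2 ^ (N + 1))
    (hm : m < 2 ^ r) (hN : 2 * N + 2 ≤ 2 ^ r) :
    (EW r N u (ER r N m pad) 0 m).Satisfiable ↔ ∃ a b, a < b ∧ b < m ∧ u a = u b := by
  constructor
  · rintro ⟨ρ, h⟩
    rw [eval_EW, ER_eval] at h
    obtain ⟨h1, -, h2, h3, h4, h5⟩ := h
    have h6 : ∀ j ≤ m, ((V r 1 j).eval ρ = true → ∃ a < j, (V r 0 a).eval ρ = true) ∧
        ((V r 2 j).eval ρ = true → ∃ a b, a < b ∧ b < j ∧ (V r 0 a).eval ρ = true ∧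
          (V r 0 b).eval ρ = true) := by
      intro j
      induction j with
      | zero =>
        intro _
        refine ⟨fun h => ?_, fun h => ?_⟩
        · rw [h2] at h; cases h
        · rw [h3] at h; cases h
      | succ j ih =>
        intro hj
        obtain ⟨h7, h8⟩ := ih (by omega)
        obtain ⟨-, h9, h10⟩ := (EB_eval r N j (u j) ρ).mp (h1 j (Nat.zero_le _) (by omega))
        refine ⟨fun h => ?_, fun h => ?_⟩
        · rcases h9 h with h | h
          · obtain ⟨a, ha, hs⟩ := h7 h
            exact ⟨a, by omega, hs⟩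
          · exact ⟨j, by omega, h⟩
        · rcases h10 h with h | ⟨h, h'⟩
          · obtain ⟨a, b, hab, hb, hs⟩ := h8 h
            exact ⟨a, b, hab, by omega, hs⟩
          · obtain ⟨a, ha, hs⟩ := h7 h
            exact ⟨a, j, ha, by omega, hs, h'⟩
    obtain ⟨a, b, hab, hb, hsa, hsb⟩ := (h6 m le_rfl).2 h4
    refine ⟨a, b, hab, hb, ?_⟩
    have ha7 := ((EB_eval r N a (u a) ρ).mp (h1 a (Nat.zero_le _) (by omega))).1 hsa
    have hb7 := ((EB_eval r N b (u b) ρ).mp (h1 b (Nat.zero_le _) (by omega))).1 hsb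
    apply Nat.eq_of_testBit_eq
    intro i
    rcases Nat.lt_or_ge N i with hi | hi
    · rw [Nat.testBit_lt_two_pow ((hu a (by omega)).trans_le
        (Nat.pow_le_pow_right (by norm_num) hi)),
        Nat.testBit_lt_two_pow ((hu b hb).trans_le (Nat.pow_le_pow_right (by norm_num) hi))]
    · have h8 := ha7 i hi
      have h9 := hb7 i hi
      have h10 := h5 i hi
      unfold bt at h8 h9
      cases hta : Nat.testBit (u a) i <;> cases htb : Nat.testBit (u b) i
      · rfl
      · rw [hta] at h8; rw [htb] at h9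
        simp only [if_true, Bool.false_eq_true, if_false, add_zero] at h8 h9
        rw [h8, h9] at h10; simp at h10
      · rw [hta] at h8; rw [htb] at h9
        simp only [if_true, Bool.false_eq_true, if_false, add_zero] at h8 h9
        rw [h8, h9] at h10; simp at h10
      · rfl
  · rintro ⟨a, b, hab, hb, huab⟩
    obtain ⟨F, hF⟩ : ∃ F : ℕ → ℕ → Bool, F = fun g i =>
      if g = 0 then decide (i = a ∨ i = b) else if g = 1 then decide (a < i)
      else if g = 2 then decide (b < i) else decide (i % 2 = bt (u a) (i / 2)) := ⟨_, rfl⟩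
    have hF0 : ∀ i, F 0 i = decide (i = a ∨ i = b) := by intro i; rw [hF]; simp
    have hF1 : ∀ i, F 1 i = decide (a < i) := by intro i; rw [hF]; simp
    have hF2 : ∀ i, F 2 i = decide (b < i) := by intro i; rw [hF]; simp
    have hF3 : ∀ i, F 3 i = decide (i % 2 = bt (u a) (i / 2)) := by intro i; rw [hF]; simp
    have hbt : ∀ w i, bt w i ≤ 1 := by intro w i; unfold bt; split_ifs <;> omega
    refine ⟨asg r F (!decide (pad % 2 = 1)), ?_⟩
    rw [eval_EW, ER_eval]
    have h5 : 1 ≤ 2 ^ r := Nat.one_le_two_pow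
    refine ⟨fun j _ hj => ?_, ?_, ?_, ?_, ?_, ?_⟩
    · rw [EB_eval]
      rw [asg_V r F _ 0 j (by norm_num) (by omega), asg_V r F _ 1 j (by norm_num) (by omega),
        asg_V r F _ 2 j (by norm_num) (by omega), asg_V r F _ 1 (j + 1) (by norm_num) (by omega),
        asg_V r F _ 2 (j + 1) (by norm_num) (by omega), hF0, hF1, hF1, hF2, hF2]
      simp only [decide_eq_true_eq]
      refine ⟨fun h i hi => ?_, fun h => by omega, fun h => by omega⟩
      rw [asg_V r F _ 3 _ (by norm_num) (by have := hbt (u j) i; omega), hF3]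
      have h7 : u j = u a := by rcases h with rfl | rfl; rfl; exact huab.symm
      have h8 := hbt (u j) i
      have h9 : (2 * i + bt (u j) i) / 2 = i := by omega
      have h10 : (2 * i + bt (u j) i) % 2 = bt (u j) i := by omega
      rw [h9, h10, h7]
      simp
    · unfold asg
      cases h : decide (pad % 2 = 1) <;> simp
    · rw [asg_V r F _ 1 0 (by norm_num) (by omega), hF1]; simp
    · rw [asg_V r F _ 2 0 (by norm_num) (by omega), hF2]; simp
    · rw [asg_V r F _ 2 m (by norm_num) hm, hF2]; simpa using hb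
    · intro i hi
      rw [asg_V r F _ 3 (2 * i) (by norm_num) (by omega),
        asg_V r F _ 3 (2 * i + 1) (by norm_num) (by omega), hF3, hF3]
      have h9 : 2 * i / 2 = i := by omega
      have h10 : 2 * i % 2 = 0 := by omega
      have h11 : (2 * i + 1) / 2 = i := by omega
      have h12 : (2 * i + 1) % 2 = 1 := by omega
      rw [h9, h10, h11, h12]
      simp only [decide_eq_false_iff_not]
      have := hbt (u a) i
      omega

end Pool.Agent.TH457.HT
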