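import Pool.Agent.TH457.HT.Engine

/-!
# Selection of a pair of zones
-/

set_option autoImplicit false

open Finset

namespace Pool.Agent.TH457.HT

/-- for some pair of zones half of the inputs have short transcripts -/
theorem select {Λ : Type} {n k : ℕ} (P : HeadProg Λ n k) (lam D T K : ℕ) (hlam : 0 < lam)
    {V : Type} (wd : V → (Fin n → Λ)) (G : Finset V) (hacc : ∀ v ∈ G, P.AcceptsIn T (wd v))
    (hD : 2 ≤ D) (hK1 : 12 * k * (T / lam + 1) < (K + 1) * D) (hK2 : 12 * k * K + 1 ≤ D) :
    ∃ a b : Fin D, a ≠ b ∧ ∃ G2 ⊆ G, G.card ≤ 2 * G2.card ∧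
      ∀ x ∈ G2, ∃ (c₀ : P.Cfg) (τ : List P.Cfg), P.init c₀.1 c₀.2 ∧
        Tr P lam a b (wd x) false c₀ τ ∧ τ.length ≤ 2 * K + 1 := by
  classical
  obtain ⟨N, hN⟩ : ∃ N, N = T / lam + 1 := ⟨_, rfl⟩
  have h0 := fun v hv => exists_touch P lam D T hlam (wd v) (hacc v hv)
  rw [← hN] at hK1
  simp only [← hN] at h0
  choose! Tch hT1 hT2 using h0
  obtain ⟨Kb, hKb⟩ : ∃ Kb : V → Fin D → ℕ,
      Kb = fun x b => ((range N).filter (fun i => b ∈ Tch x i)).card := ⟨_, rfl⟩
  have hsumK : ∀ x ∈ G, ∑ b : Fin D, Kb x b ≤ N * (3 * k) := by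
    intro x hx
    have h1 : ∑ i ∈ range N, ((univ : Finset (Fin D)).filter (fun b => b ∈ Tch x i)).card
        = ∑ b : Fin D, ((range N).filter (fun i => b ∈ Tch x i)).card :=
      Finset.sum_card_bipartiteAbove_eq_sum_card_bipartiteBelow (r := fun i b => b ∈ Tch x i)
    rw [hKb]
    simp only
    rw [← h1]
    refine (Finset.sum_le_sum (g := fun _ => 3 * k) ?_).trans (by simp)
    intro i _
    have e : (univ : Finset (Fin D)).filter (fun b => b ∈ Tch x i) = Tch x i := by
      ext z; simp
    rw [e]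
    exact hT1 x hx i
  obtain ⟨b, -, hb⟩ := avg4 G (univ : Finset (Fin D)) (fun x b => K < Kb x b)
    ⟨⟨0, by omega⟩, mem_univ _⟩ (by
      intro x hx
      have h1 : (K + 1) * ((univ : Finset (Fin D)).filter (fun b => K < Kb x b)).card
          ≤ ∑ b : Fin D, Kb x b := by
        calc (K + 1) * ((univ : Finset (Fin D)).filter (fun b => K < Kb x b)).card
            = ∑ b ∈ (univ : Finset (Fin D)).filter (fun b => K < Kb x b), (K + 1) := by
              rw [sum_const, smul_eq_mul, mul_comm]
          _ ≤ ∑ b ∈ (univ : Finset (Fin D)).filter (fun b => K < Kb x b), Kb x b :=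
              Finset.sum_le_sum (fun b hb => (mem_filter.mp hb).2)
          _ ≤ ∑ b : Fin D, Kb x b :=
              Finset.sum_le_sum_of_subset (filter_subset _ _)
      have h2 := h1.trans (hsumK x hx)
      rw [card_univ, Fintype.card_fin]
      have h3 : (K + 1) * (4 * ((univ : Finset (Fin D)).filter (fun b => K < Kb x b)).card)
          < (K + 1) * D := by
        calc (K + 1) * (4 * ((univ : Finset (Fin D)).filter (fun b => K < Kb x b)).card)
            = 4 * ((K + 1) * ((univ : Finset (Fin D)).filter (fun b => K < Kb x b)).card) := by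
              ring
          _ ≤ 4 * (N * (3 * k)) := Nat.mul_le_mul_left _ h2
          _ = 12 * k * N := by ring
          _ < (K + 1) * D := hK1
      exact (Nat.lt_of_mul_lt_mul_left h3).le)
  set G1 := G.filter (fun x => ¬ K < Kb x b) with hG1
  have hc1 : (G.filter (fun x => K < Kb x b)).card + G1.card = G.card :=
    Finset.card_filter_add_card_filter_not (s := G) (fun x => K < Kb x b)
  obtain ⟨a, ha, ha2⟩ := avg4 G1 ((univ : Finset (Fin D)).erase b)
    (fun x a => ∃ i < N, a ∈ Tch x i ∧ b ∈ Tch x i)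
    (by
      rw [← card_pos, card_erase_of_mem (mem_univ _), card_univ, Fintype.card_fin]; omega)
    (by
      intro x hx
      have hxG : x ∈ G := (mem_filter.mp hx).1
      have hxK : Kb x b ≤ K := by
        have := (mem_filter.mp hx).2; omega
      rw [card_erase_of_mem (mem_univ _), card_univ, Fintype.card_fin]
      have hsub : ((univ : Finset (Fin D)).erase b).filter
          (fun a => ∃ i < N, a ∈ Tch x i ∧ b ∈ Tch x i) ⊆
          ((range N).filter (fun i => b ∈ Tch x i)).biUnion (Tch x) := by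
        intro a ha
        obtain ⟨-, i, hi, h1, h2⟩ := mem_filter.mp ha
        exact mem_biUnion.mpr ⟨i, mem_filter.mpr ⟨mem_range.mpr hi, h2⟩, h1⟩
      have h1 : (((univ : Finset (Fin D)).erase b).filter
          (fun a => ∃ i < N, a ∈ Tch x i ∧ b ∈ Tch x i)).card ≤ Kb x b * (3 * k) := by
        refine (card_le_card hsub).trans (card_biUnion_le.trans ?_)
        refine (Finset.sum_le_sum (g := fun _ => 3 * k)
          (fun i _ => hT1 x hxG i)).trans ?_
        rw [sum_const, smul_eq_mul, hKb]
      have h2 : Kb x b * (3 * k) ≤ K * (3 * k) := Nat.mul_le_mul_right _ hxK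
      have h3 : 4 * (K * (3 * k)) = 12 * k * K := by ring
      omega)
  have hab : a ≠ b := (mem_erase.mp ha).1
  set G2 := G1.filter (fun x => ¬ ∃ i < N, a ∈ Tch x i ∧ b ∈ Tch x i) with hG2
  have hc2 : (G1.filter (fun x => ∃ i < N, a ∈ Tch x i ∧ b ∈ Tch x i)).card + G2.card = G1.card :=
    Finset.card_filter_add_card_filter_not (s := G1) _
  refine ⟨a, b, hab, G2, (filter_subset _ _).trans (filter_subset _ _), by omega, ?_⟩
  intro x hx
  have hxG : x ∈ G := (mem_filter.mp (mem_filter.mp hx).1).1
  have hx2 := (mem_filter.mp hx).2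
  have hx1 := (mem_filter.mp (mem_filter.mp hx).1).2
  obtain ⟨c₀, τ, h1, h2, h3⟩ := hT2 x hxG a b (fun i hi h1 h2 => hx2 ⟨i, hi, h1, h2⟩)
  refine ⟨c₀, τ, h1, h2, h3.trans ?_⟩
  have : Kb x b ≤ K := by omega
  rw [hKb] at this
  simp only at this
  omega

/-- **The engine for sums.**  Zones with values in a finite group `A`; the program accepts exactly
the families with sum zero. -/
theorem engineSum {Λ : Type} {n k : ℕ} (P : HeadProg Λ n k) (lam D T S K : ℕ) (hlam : 0 < lam)
    {A : Type} [AddCommGroup A] [Fintype A] (wd : (Fin D → A) → (Fin n → Λ))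
    (hloc : ∀ v v' (p : Fin n), (∀ h : (p : ℕ) / lam < D,
      v ⟨(p : ℕ) / lam, h⟩ = v' ⟨(p : ℕ) / lam, h⟩) → wd v p = wd v' p)
    (hacc : ∀ v, ∑ z, v z = 0 → P.AcceptsIn T (wd v))
    (hsound : ∀ v, P.Accepts (wd v) → ∑ z, v z = 0) (hD : 2 ≤ D)
    (hK1 : 12 * k * (T / lam + 1) < (K + 1) * D) (hK2 : 12 * k * K + 1 ≤ D)
    (hS : Fintype.card P.Cfg + 1 ≤ 2 ^ S) : Fintype.card A ≤ 2 ^ (1 + S * (2 * K + 2)) := by
  classical
  set G : Finset (Fin D → A) := univ.filter (fun v => ∑ z, v z = 0) with hG
  have hGmem : ∀ x ∈ G, ∑ z, x z = 0 := fun x hx => (mem_filter.mp hx).2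
  obtain ⟨a, b, hab, G2, hG2, hcard, htr⟩ := select P lam D T K hlam wd G
    (fun v hv => hacc v (hGmem v hv)) hD hK1 hK2
  have hApos : 0 < Fintype.card A := Fintype.card_pos
  -- the number of the families with sum zero
  have hGcard : Fintype.card A ^ D ≤ G.card * Fintype.card A := by
    have h1 : (univ : Finset (Fin D → A)).card = Fintype.card A ^ D := by
      rw [card_univ, Fintype.card_fun, Fintype.card_fin]
    have h2 : (G ×ˢ (univ : Finset A)).card = G.card * Fintype.card A := by
      rw [card_product, card_univ]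
    rw [← h1, ← h2]
    apply card_le_card_of_injOn
      (fun v => (Function.update v b (v b - ∑ z, v z), v b))
    · intro v _
      simp only [coe_product, Set.mem_prod, mem_coe, mem_univ, and_true]
      rw [hG, mem_filter]
      refine ⟨mem_univ _, ?_⟩
      rw [Finset.sum_update_of_mem (mem_univ b)]
      have e3 : univ \ {b} = (univ : Finset (Fin D)).erase b := by
        ext z; simp
      rw [e3, ← Finset.add_sum_erase univ v (mem_univ b)]
      abel
    · intro v _ v' _ h
      simp only [Prod.mk.injEq] at h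
      funext z
      by_cases hz : z = b
      · rw [hz]; exact h.2
      · have := congrFun h.1 z
        rwa [Function.update_of_ne hz, Function.update_of_ne hz] at this
  rcases Finset.eq_empty_or_nonempty G2 with hemp | ⟨x₀, hx₀⟩
  · exfalso
    have hz : G2.card = 0 := by rw [hemp]; rfl
    have hz0 : G.card = 0 := by omega
    rw [hz0, zero_mul] at hGcard
    have : 0 < Fintype.card A ^ D := by positivity
    omega
  have : Nonempty P.Cfg := ⟨(htr x₀ hx₀).choose⟩
  choose! c₀ τ hi htau hlen using htr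
  have hinj : Set.InjOn (fun x : Fin D → A =>
      ((fun i : Fin (2 * K + 2) => (c₀ x :: τ x)[(i : ℕ)]?),
        (fun z : {z : Fin D // z ≠ a ∧ z ≠ b} => x z))) G2 := by
    intro x hx y hy hxy
    simp only [Prod.mk.injEq] at hxy
    obtain ⟨hkey, hrest⟩ := hxy
    have hrest' : ∀ z, z ≠ a → z ≠ b → x z = y z := fun z h1 h2 => congrFun hrest ⟨z, h1, h2⟩
    have e := getElem?_ext (R := 2 * K + 2)
      (by rw [List.length_cons]; have := hlen x hx; omega)
      (by rw [List.length_cons]; have := hlen y hy; omega) hkey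
    rw [List.cons.injEq] at e
    have hz : P.Accepts (wd (Function.update x b (y b))) := by
      refine Tr_accepts P lam a b _ (τ x) false (c₀ x) (hi x hx) ?_
      refine Tr_mix P lam a b (wd x) (wd y) _ ?_ ?_ (τ x) false (c₀ x) (htau x hx) ?_
      · intro p hp
        apply hloc
        intro h
        apply Function.update_of_ne
        intro hh
        exact hp (congrArg Fin.val hh)
      · intro p hp
        apply hloc
        intro h
        by_cases hpb : (⟨(p : ℕ) / lam, h⟩ : Fin D) = b
        · rw [hpb, Function.update_self]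
        · rw [Function.update_of_ne hpb]
          apply hrest' _ _ hpb
          intro hh
          exact hp (congrArg Fin.val hh)
      · rw [e.1, e.2]
        exact htau y hy
    have h1 := hsound _ hz
    have h2 := hGmem x (hG2 hx)
    have h3 := hGmem y (hG2 hy)
    have hb : x b = y b := by
      rw [Finset.sum_update_of_mem (mem_univ b)] at h1
      rw [← Finset.add_sum_erase univ x (mem_univ b)] at h2
      have e3 : univ \ {b} = (univ : Finset (Fin D)).erase b := by
        ext z; simp
      rw [e3] at h1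
      exact (add_right_cancel (h2.trans h1.symm))
    funext z
    by_cases hza : z = a
    · subst hza
      rw [← Finset.add_sum_erase univ x (mem_univ z)] at h2
      rw [← Finset.add_sum_erase univ y (mem_univ z)] at h3
      have h4 : ∑ w ∈ (univ : Finset (Fin D)).erase z, x w
          = ∑ w ∈ (univ : Finset (Fin D)).erase z, y w := by
        apply Finset.sum_congr rfl
        intro w hw
        by_cases hwb : w = b
        · rw [hwb]; exact hb
        · exact hrest' w (mem_erase.mp hw).1 hwb
      rw [h4] at h2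
      exact add_right_cancel (h2.trans h3.symm)
    · by_cases hzb : z = b
      · rw [hzb]; exact hb
      · exact hrest' z hza hzb
  have hcard2 := card_le_card_of_injOn (t := (univ : Finset ((Fin (2 * K + 2) → Option P.Cfg) ×
    ({z : Fin D // z ≠ a ∧ z ≠ b} → A)))) _ (fun x _ => mem_coe.mpr (mem_univ _)) hinj
  have hsub : Fintype.card {z : Fin D // z ≠ a ∧ z ≠ b} = D - 2 := by
    rw [Fintype.card_subtype]
    have e : (univ : Finset (Fin D)).filter (fun z => z ≠ a ∧ z ≠ b) = (univ.erase a).erase b := by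
      ext z; simp [mem_erase, and_comm]
    rw [e, card_erase_of_mem (mem_erase.mpr ⟨hab.symm, mem_univ _⟩),
      card_erase_of_mem (mem_univ _), card_univ, Fintype.card_fin]
    omega
  rw [card_univ, Fintype.card_prod, Fintype.card_fun, Fintype.card_fun, hsub, Fintype.card_fin,
    Fintype.card_option] at hcard2
  obtain ⟨q, hq⟩ : ∃ q, q = Fintype.card A := ⟨_, rfl⟩
  rw [← hq] at hcard2 hGcard hApos ⊢
  have hD2 : q ^ D = q ^ (D - 2) * q * q := by
    rw [← pow_succ, ← pow_succ]; congr 1; omega
  rw [hD2] at hGcard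
  have h5 : q ^ (D - 2) * q ≤ G.card := Nat.le_of_mul_le_mul_right hGcard hApos
  have h6 : (Fintype.card P.Cfg + 1) ^ (2 * K + 2) ≤ 2 ^ (S * (2 * K + 2)) := by
    rw [pow_mul]; exact Nat.pow_le_pow_left hS _
  have h7 : q ^ (D - 2) * q ≤ q ^ (D - 2) * 2 ^ (1 + S * (2 * K + 2)) := by
    calc q ^ (D - 2) * q ≤ G.card := h5
      _ ≤ 2 * G2.card := hcard
      _ ≤ 2 * ((Fintype.card P.Cfg + 1) ^ (2 * K + 2) * q ^ (D - 2)) :=
          Nat.mul_le_mul_left _ hcard2
      _ ≤ 2 * (2 ^ (S * (2 * K + 2)) * q ^ (D - 2)) :=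
          Nat.mul_le_mul_left _ (Nat.mul_le_mul_right _ h6)
      _ = q ^ (D - 2) * 2 ^ (1 + S * (2 * K + 2)) := by rw [pow_add]; ring
  exact Nat.le_of_mul_le_mul_left h7 (by positivity)

end Pool.Agent.TH457.HT
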