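import Mathlib

/-!
# Lists of integers as words
-/

set_option autoImplicit false

namespace Pool.Agent.TH457.HT

/-- the letters of the code of an integer: the sign, then the binary digits of the absolute value,
the last digit first -/
def zlet (x : ℤ) (o : ℕ) : Bool := if o = 0 then decide (x < 0) else Nat.testBit x.natAbs (o - 1)

/-- the word of a list of `N` integers, `w + 1` letters (the sign and `w` binary digits) for each
of them -/
def zword (N w : ℕ) (x : Fin N → ℤ) (p : Fin (N * (w + 1))) : Bool :=
  zlet (x ⟨(p : ℕ) / (w + 1), Nat.div_lt_of_lt_mul (lt_of_lt_of_eq p.2 (mul_comm _ _))⟩)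
    ((p : ℕ) % (w + 1))

/-- three distinct indices with sum zero -/
def Has3 {N : ℕ} (x : Fin N → ℤ) : Prop :=
  ∃ i j k : Fin N, i ≠ j ∧ i ≠ k ∧ j ≠ k ∧ x i + x j + x k = 0

end Pool.Agent.TH457.HT
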