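import Pool.Agent.TH457.HT.Gen3
import Pool.Agent.TH457.HT.ZDefs

/-!
# Nondeterministic slow heads and sets without solution of 3SUM
-/

set_option autoImplicit false

open Finset

namespace Pool.Agent.TH457.HT

/-- three distinct indices with `x i + x j = x k` -/
def HasSum {N : ℕ} (x : Fin N → ℤ) : Prop :=
  ∃ i j k : Fin N, i ≠ j ∧ i ≠ k ∧ j ≠ k ∧ x i + x j = x k

/-- the number `y` of block `j` -/
def yN (h : ℕ) (u : ℕ → ℕ) (j : ℕ) : ℕ := (3 * h + 3) * u j + j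

/-- the extra differences -/
def tN (h a : ℕ) : ℕ := a / (h + 1) * (3 * h + 3) + (h + 1) + a % (h + 1)

/-- the numbers of the instance -/
def instN (h m : ℕ) (u : ℕ → ℕ) (a : ℕ) : ℤ :=
  if a < 3 * m then
    if a % 3 = 0 then 8 * ((yN h u (a / 3) : ℤ) - ((3 * h + 3) * h ^ 2 : ℕ)) + 1
    else if a % 3 = 1 then 8 * (((3 * h + 3) * h ^ 2 : ℕ) - (yN h u (a / 3) : ℤ)) + 3
    else 8 * ((a / 3 + 1 : ℕ) : ℤ) + 4
  else 8 * (tN h a : ℤ) + 4

theorem instN_cases (h m : ℕ) (u : ℕ → ℕ) (a : ℕ) :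
    (∃ j : ℕ, j < m ∧ a = 3 * j ∧
      instN h m u a = 8 * ((yN h u j : ℤ) - ((3 * h + 3) * h ^ 2 : ℕ)) + 1) ∨
    (∃ j : ℕ, j < m ∧ a = 3 * j + 1 ∧
      instN h m u a = 8 * (((3 * h + 3) * h ^ 2 : ℕ) - (yN h u j : ℤ)) + 3) ∨
    (∃ t : ℕ, instN h m u a = 8 * (t : ℤ) + 4 ∧
      ((1 ≤ t ∧ t ≤ m ∧ a = 3 * (t - 1) + 2) ∨ (3 * m ≤ a ∧ t = tN h a))) := by
  unfold instN
  by_cases h' : a < 3 * m
  · rw [if_pos h']
    by_cases h0 : a % 3 = 0
    · rw [if_pos h0]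
      left
      exact ⟨a / 3, by omega, by omega, rfl⟩
    · rw [if_neg h0]
      by_cases h1 : a % 3 = 1
      · rw [if_pos h1]
        right; left
        exact ⟨a / 3, by omega, by omega, rfl⟩
      · rw [if_neg h1]
        right; right
        exact ⟨a / 3 + 1, rfl, Or.inl ⟨by omega, by omega, by omega⟩⟩
  · rw [if_neg h']
    right; right
    exact ⟨tN h a, rfl, Or.inr ⟨by omega, rfl⟩⟩

theorem mul_small (R d s : ℤ) (h : d * R = s) (h1 : -R < s) (h2 : s < R) : d = 0 := by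
  rcases lt_trichotomy d 0 with hlt | heq | hgt
  · exfalso
    have h3 : d ≤ -1 := by omega
    have h4 : d * R ≤ -1 * R := mul_le_mul_of_nonneg_right h3 (by linarith)
    linarith
  · exact heq
  · exfalso
    have h3 : 1 ≤ d := by omega
    have h4 : 1 * R ≤ d * R := mul_le_mul_of_nonneg_right h3 (by linarith)
    linarith

theorem diffN (h : ℕ) (u : ℕ → ℕ) (i j t : ℕ) (hi : i ≤ h) (hj : j ≤ h)
    (he : (yN h u i : ℤ) - (yN h u j : ℤ) = t) :
    (1 ≤ t → t ≤ h → i ≠ j ∧ u i = u j) ∧ ∀ a, t ≠ tN h a := by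
  unfold yN at he
  push_cast at he
  have hi' : (i : ℤ) ≤ h := by exact_mod_cast hi
  have hj' : (j : ℤ) ≤ h := by exact_mod_cast hj
  have hi0 : (0 : ℤ) ≤ i := by positivity
  have hj0 : (0 : ℤ) ≤ j := by positivity
  refine ⟨fun ht1 ht2 => ?_, fun a ha => ?_⟩
  · have ht1' : (1 : ℤ) ≤ t := by exact_mod_cast ht1
    have ht2' : (t : ℤ) ≤ h := by exact_mod_cast ht2
    have h1 := mul_small (3 * (h : ℤ) + 3) ((u i : ℤ) - u j) (t - (i - j)) (by linarith)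
      (by linarith) (by linarith)
    have h2 : ((u i : ℤ) - u j) * (3 * (h : ℤ) + 3) = t - (i - j) := by linarith
    rw [h1, zero_mul] at h2
    refine ⟨?_, ?_⟩
    · rintro rfl; linarith
    · have : (u i : ℤ) = u j := by linarith
      exact_mod_cast this
  · unfold tN at ha
    obtain ⟨e1, he1⟩ : ∃ e1, e1 = a / (h + 1) := ⟨_, rfl⟩
    obtain ⟨e2, he2⟩ : ∃ e2, e2 = a % (h + 1) := ⟨_, rfl⟩
    have he3 : e2 < h + 1 := by rw [he2]; exact Nat.mod_lt _ (by omega)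
    rw [← he1, ← he2] at ha
    rw [ha] at he
    push_cast at he
    have he4 : (e2 : ℤ) ≤ h := by exact_mod_cast Nat.lt_succ_iff.mp he3
    have he5 : (0 : ℤ) ≤ e2 := by positivity
    have h1 := mul_small (3 * (h : ℤ) + 3) ((u i : ℤ) - u j - e1) (h + 1 + e2 - (i - j))
      (by linarith) (by linarith) (by linarith)
    have h2 : ((u i : ℤ) - u j - e1) * (3 * (h : ℤ) + 3) = h + 1 + e2 - (i - j) := by linarith
    rw [h1, zero_mul] at h2
    linarith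

theorem eq_of_sum (h m : ℕ) (u : ℕ → ℕ) (hm : m ≤ h) (a b c : ℕ)
    (he : instN h m u a + instN h m u b = instN h m u c) :
    ∃ i j, i < m ∧ j < m ∧ i ≠ j ∧ u i = u j := by
  obtain ⟨Y, hY⟩ : ∃ Y : ℤ, Y = (((3 * h + 3) * h ^ 2 : ℕ) : ℤ) := ⟨_, rfl⟩
  rcases instN_cases h m u a with ⟨j1, hj1, -, e1⟩ | ⟨j1, hj1, -, e1⟩ | ⟨t1, e1, ht1⟩ <;>
  rcases instN_cases h m u b with ⟨j2, hj2, -, e2⟩ | ⟨j2, hj2, -, e2⟩ | ⟨t2, e2, ht2⟩ <;>
  rcases instN_cases h m u c with ⟨j3, hj3, -, e3⟩ | ⟨j3, hj3, -, e3⟩ | ⟨t3, e3, ht3⟩ <;>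
  rw [e1, e2, e3] at he <;>
  (try rw [← hY] at he) <;>
  first
  | (exfalso; omega)
  | (have hd := diffN h u j1 j2 t3 (by omega) (by omega) (by omega)
     rcases ht3 with ⟨h1, h2, -⟩ | ⟨-, h2⟩
     · exact ⟨j1, j2, hj1, hj2, hd.1 h1 (by omega)⟩
     · exact absurd h2 (hd.2 c))
  | (have hd := diffN h u j2 j1 t3 (by omega) (by omega) (by omega)
     rcases ht3 with ⟨h1, h2, -⟩ | ⟨-, h2⟩
     · exact ⟨j2, j1, hj2, hj1, hd.1 h1 (by omega)⟩
     · exact absurd h2 (hd.2 c))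

theorem sum_of_eq (h m : ℕ) (u : ℕ → ℕ) (i j : ℕ) (hij : i < j) (hj : j < m)
    (he : u i = u j) :
    instN h m u (3 * j) + instN h m u (3 * i + 1) = instN h m u (3 * (j - i - 1) + 2) := by
  unfold instN
  rw [if_pos (by omega), if_pos (by omega), if_pos (by omega), if_neg (by omega),
    if_pos (by omega), if_pos (by omega), if_neg (by omega), if_neg (by omega)]
  have e1 : 3 * j / 3 = j := by omega
  have e2 : (3 * i + 1) / 3 = i := by omega
  have e3 : (3 * (j - i - 1) + 2) / 3 = j - i - 1 := by omega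
  rw [e1, e2, e3]
  unfold yN
  rw [he]
  have e4 : ((j - i - 1 + 1 : ℕ) : ℤ) = (j : ℤ) - i := by
    rw [show j - i - 1 + 1 = j - i by omega]; omega
  rw [e4]
  push_cast
  ring

theorem yN_inj (h : ℕ) (u : ℕ → ℕ) (i j : ℕ) (hi : i ≤ h) (hj : j ≤ h)
    (he : yN h u i = yN h u j) : i = j := by
  unfold yN at he
  have h1 : ((3 * h + 3) * u i + i) % (3 * h + 3) = i := by
    rw [Nat.mul_add_mod, Nat.mod_eq_of_lt (by omega)]
  have h2 : ((3 * h + 3) * u j + j) % (3 * h + 3) = j := by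
    rw [Nat.mul_add_mod, Nat.mod_eq_of_lt (by omega)]
  rw [he, h2] at h1
  exact h1.symm

theorem tN_inj (h a b : ℕ) (he : tN h a = tN h b) : a = b := by
  unfold tN at he
  obtain ⟨a1, ha1⟩ : ∃ e, e = a / (h + 1) := ⟨_, rfl⟩
  obtain ⟨a2, ha2⟩ : ∃ e, e = a % (h + 1) := ⟨_, rfl⟩
  obtain ⟨b1, hb1⟩ : ∃ e, e = b / (h + 1) := ⟨_, rfl⟩
  obtain ⟨b2, hb2⟩ : ∃ e, e = b % (h + 1) := ⟨_, rfl⟩
  have ha3 : a2 < h + 1 := by rw [ha2]; exact Nat.mod_lt _ (by omega)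
  have hb3 : b2 < h + 1 := by rw [hb2]; exact Nat.mod_lt _ (by omega)
  have ha := Nat.div_add_mod a (h + 1)
  have hb := Nat.div_add_mod b (h + 1)
  rw [← ha1, ← ha2] at he ha
  rw [← hb1, ← hb2] at he hb
  have he' : (a1 * (3 * h + 3) + (h + 1) + a2 : ℤ) = b1 * (3 * h + 3) + (h + 1) + b2 := by
    exact_mod_cast he
  have h1 := mul_small (3 * (h : ℤ) + 3) ((a1 : ℤ) - b1) (b2 - a2) (by linarith) (by omega)
    (by omega)
  have h2 : a1 = b1 := by omega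
  subst h2
  have h3 : a2 = b2 := by omega
  rw [← ha, ← hb, h3]

theorem tN_ge (h a : ℕ) : h + 1 ≤ tN h a := by
  unfold tN
  have : 0 ≤ a / (h + 1) * (3 * h + 3) := Nat.zero_le _
  omega

theorem instN_inj (h m : ℕ) (u : ℕ → ℕ) (hm : m ≤ h) (a b : ℕ)
    (he : instN h m u a = instN h m u b) : a = b := by
  obtain ⟨Y, hY⟩ : ∃ Y : ℤ, Y = (((3 * h + 3) * h ^ 2 : ℕ) : ℤ) := ⟨_, rfl⟩
  rcases instN_cases h m u a with ⟨j1, hj1, ha1, e1⟩ | ⟨j1, hj1, ha1, e1⟩ | ⟨t1, e1, ht1⟩ <;>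
  rcases instN_cases h m u b with ⟨j2, hj2, ha2, e2⟩ | ⟨j2, hj2, ha2, e2⟩ | ⟨t2, e2, ht2⟩ <;>
  rw [e1, e2] at he <;>
  (try rw [← hY] at he) <;>
  first
  | (exfalso; omega)
  | (have h3 : yN h u j1 = yN h u j2 := by omega
     have h4 := yN_inj h u j1 j2 (by omega) (by omega) h3
     omega)
  | (rcases ht1 with ⟨h1, h2, h3⟩ | ⟨h1, h2⟩ <;> rcases ht2 with ⟨h4, h5, h6⟩ | ⟨h4, h5⟩
     · omega
     · have := tN_ge h b; omega
     · have := tN_ge h a; omega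
     · exact tN_inj h a b (by omega))

theorem instN_abs (N m : ℕ) (u : ℕ → ℕ) (hN : 27 ≤ N) (hm : m ≤ N / 3)
    (hu : ∀ j < m, u j < 2 * (N / 3) ^ 2) (a : ℕ) (ha : a < N) :
    |instN (N / 3) m u a| ≤ (N : ℤ) ^ 3 := by
  obtain ⟨h, hh⟩ : ∃ h, h = N / 3 := ⟨_, rfl⟩
  rw [← hh] at hm hu ⊢
  have h9 : 9 ≤ h := by omega
  have h3N : 3 * h ≤ N := by omega
  obtain ⟨Y, hY⟩ : ∃ Y : ℕ, Y = (3 * h + 3) * h ^ 2 := ⟨_, rfl⟩
  have hcube : (3 * h) ^ 3 ≤ N ^ 3 := Nat.pow_le_pow_left h3N 3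
  have hY8 : 8 * Y + 3 ≤ N ^ 3 := by
    refine le_trans ?_ hcube
    rw [hY]
    have h1 : 9 * h ^ 2 ≤ h * h ^ 2 := Nat.mul_le_mul_right _ h9
    have h2 : 1 ≤ h ^ 2 := Nat.one_le_pow _ _ (by omega)
    have e1 : (3 * h) ^ 3 = 27 * (h * h ^ 2) := by ring
    have e2 : 8 * ((3 * h + 3) * h ^ 2) + 3 = 24 * (h * h ^ 2) + 24 * h ^ 2 + 3 := by ring
    omega
  have hy : ∀ j < m, yN h u j < 2 * Y := by
    intro j hj
    have h1 : u j + 1 ≤ 2 * h ^ 2 := hu j hj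
    unfold yN
    calc (3 * h + 3) * u j + j < (3 * h + 3) * u j + (3 * h + 3) := by omega
      _ = (3 * h + 3) * (u j + 1) := by ring
      _ ≤ (3 * h + 3) * (2 * h ^ 2) := Nat.mul_le_mul_left _ h1
      _ = 2 * Y := by rw [hY]; ring
  have hN3 : ((8 * Y + 3 : ℕ) : ℤ) ≤ (N : ℤ) ^ 3 := by exact_mod_cast hY8
  push_cast at hN3
  rcases instN_cases h m u a with ⟨j1, hj1, -, e1⟩ | ⟨j1, hj1, -, e1⟩ | ⟨t1, e1, ht1⟩
  · have := hy j1 hj1
    rw [e1, ← hY, abs_le]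
    constructor <;> omega
  · have := hy j1 hj1
    rw [e1, ← hY, abs_le]
    constructor <;> omega
  · have ht : t1 ≤ 8 * h + 7 := by
      rcases ht1 with ⟨h1, h2, -⟩ | ⟨-, h2⟩
      · omega
      · rw [h2]
        unfold tN
        have h4 : a / (h + 1) ≤ 2 := by
          rw [← Nat.lt_succ_iff, Nat.div_lt_iff_lt_mul (by omega)]
          omega
        have h5 := Nat.mod_lt a (show 0 < h + 1 by omega)
        have h6 : a / (h + 1) * (3 * h + 3) ≤ 2 * (3 * h + 3) := Nat.mul_le_mul_right _ h4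
        omega
    have hYh : 30 * (8 * h) ≤ 8 * Y := by
      rw [hY]
      have h7 : 9 * h ≤ h ^ 2 := by rw [sq]; exact Nat.mul_le_mul_right _ h9
      have h8 : 30 * h ^ 2 ≤ (3 * h + 3) * h ^ 2 := Nat.mul_le_mul_right _ (by omega)
      omega
    rw [e1, abs_le]
    constructor <;> omega

/-- the word -/
def ZN (N w m : ℕ) (v : Fin m → Fin (2 * (N / 3) ^ 2)) : Fin (N * (w + 1)) → Bool :=
  zword N w (fun a => instN (N / 3) m (fun j => if h : j < m then (v ⟨j, h⟩ : ℕ) else 0) a)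

theorem ZN_local (N w m : ℕ) (v v' : Fin m → Fin (2 * (N / 3) ^ 2)) (p : Fin (N * (w + 1)))
    (h : ∀ h : (p : ℕ) / (3 * (w + 1)) < m,
      v ⟨(p : ℕ) / (3 * (w + 1)), h⟩ = v' ⟨(p : ℕ) / (3 * (w + 1)), h⟩) :
    ZN N w m v p = ZN N w m v' p := by
  unfold ZN zword
  congr 1
  dsimp only
  obtain ⟨a, ha⟩ : ∃ a, a = (p : ℕ) / (w + 1) := ⟨_, rfl⟩
  have e : (p : ℕ) / (3 * (w + 1)) = a / 3 := by
    rw [ha, Nat.div_div_eq_div_mul]
    exact congrArg (fun z => (p : ℕ) / z) (mul_comm _ _)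
  rw [← ha]
  unfold instN
  by_cases h1 : a < 3 * m
  · have h2 : a / 3 < m := by omega
    have h3 : v ⟨a / 3, h2⟩ = v' ⟨a / 3, h2⟩ := by
      have h4 := h (by rw [e]; exact h2)
      have h5 : (⟨(p : ℕ) / (3 * (w + 1)), by rw [e]; exact h2⟩ : Fin m) = ⟨a / 3, h2⟩ :=
        Fin.ext e
      rw [h5] at h4
      exact h4
    simp only [yN, h2, dite_true, h3]
  · rw [if_neg h1, if_neg h1]

/-- **Nondeterministic slow heads and sets without solution of 3SUM.** -/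
theorem threeSum_nondet (N w : ℕ) {k : ℕ} (P : HeadProg Bool (N * (w + 1)) k) (T S : ℕ)
    (hk : 1 ≤ k) (hS : Fintype.card P.Q * (N * (w + 1)) ^ k ≤ 2 ^ S)
    (hsound : ∀ x : Fin N → ℤ, Function.Injective x → (∀ i, |x i| ≤ (N : ℤ) ^ 3) →
      P.Accepts (zword N w x) → ¬ HasSum x)
    (hacc : ∀ x : Fin N → ℤ, Function.Injective x → (∀ i, |x i| ≤ (N : ℤ) ^ 3) →
      ¬ HasSum x → P.AcceptsIn T (zword N w x)) :
    (N * (w + 1)) ^ 3 ≤ 26000 * (k * (S + 1) * (w + 1) * (k * T + N * (w + 1)) ^ 2) := by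
  rcases Nat.lt_or_ge N 27 with hN | hN
  · have h1 : N * (w + 1) ≤ 26000 * (k * (S + 1) * (w + 1)) := by
      have h2 : 1 ≤ k * (S + 1) := Nat.one_le_iff_ne_zero.mpr (by positivity)
      calc N * (w + 1) ≤ 26000 * (w + 1) := Nat.mul_le_mul_right _ (by omega)
        _ = 26000 * (1 * (w + 1)) := by ring
        _ ≤ 26000 * (k * (S + 1) * (w + 1)) :=
            Nat.mul_le_mul_left _ (Nat.mul_le_mul_right _ h2)
    calc (N * (w + 1)) ^ 3 = N * (w + 1) * (N * (w + 1)) ^ 2 := by ring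
      _ ≤ 26000 * (k * (S + 1) * (w + 1)) * (k * T + N * (w + 1)) ^ 2 := by gcongr; omega
      _ = _ := by ring
  have hn : 0 < N * (w + 1) := by positivity
  have hdiv : N * (w + 1) / (3 * (w + 1)) = N / 3 := Nat.mul_div_mul_right N 3 (by omega)
  have hm3 : ∀ m, (m + 1) * (3 * (w + 1)) ≤ N * (w + 1) → m ≤ N / 3 ∧ 3 * m + 3 ≤ N := by
    intro m hm
    have h1 : (3 * (m + 1)) * (w + 1) ≤ N * (w + 1) := by
      calc (3 * (m + 1)) * (w + 1) = (m + 1) * (3 * (w + 1)) := by ring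
        _ ≤ _ := hm
    have h2 := Nat.le_of_mul_le_mul_right h1 (by omega)
    omega
  have hex : ∀ m (v : Fin m → Fin (2 * (N / 3) ^ 2)) (j : ℕ), j < m →
      (fun j => if h : j < m then (v ⟨j, h⟩ : ℕ) else 0) j < 2 * (N / 3) ^ 2 := by
    intro m v j hj
    simp only [hj, dite_true]
    exact (v ⟨j, hj⟩).2
  have hinj : ∀ m, m ≤ N / 3 → ∀ v : Fin m → Fin (2 * (N / 3) ^ 2), Function.Injective
      (fun a : Fin N => instN (N / 3) m
        (fun j => if h : j < m then (v ⟨j, h⟩ : ℕ) else 0) a) := by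
    intro m hm v a b hab
    exact Fin.ext (instN_inj (N / 3) m _ hm a b hab)
  have hN3 : 1 ≤ N / 3 := by omega
  have h := blocksN3 P (3 * (w + 1)) (2 * (N / 3) ^ 2) T S hn (by omega) hk
    (by positivity) (by rw [hdiv])
    (fun m v => ZN N w m v)
    (fun m v v' q hq => ZN_local N w m v v' q hq)
    (by
      intro m hm v hv
      obtain ⟨hm1, hm2⟩ := hm3 m hm
      apply hacc _ (hinj m hm1 v) (fun a => instN_abs N m _ hN hm1 (hex m v) a a.2)
      rintro ⟨a, b, c, -, -, -, habc⟩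
      obtain ⟨i, j, hi, hj, hij, he⟩ := eq_of_sum (N / 3) m _ hm1 a b c habc
      simp only [hi, hj, dite_true] at he
      exact hij (congrArg Fin.val (hv (Fin.ext he))))
    (by
      intro m hm v hv
      obtain ⟨hm1, hm2⟩ := hm3 m hm
      have h1 := hsound _ (hinj m hm1 v) (fun a => instN_abs N m _ hN hm1 (hex m v) a a.2) hv
      by_contra hcon
      apply h1
      have h3 : ∃ i j : Fin m, i < j ∧ v i = v j := by
        unfold Function.Injective at hcon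
        push Not at hcon
        obtain ⟨a, b, hvab, hab⟩ := hcon
        rcases lt_or_gt_of_ne hab with h | h
        · exact ⟨a, b, h, hvab⟩
        · exact ⟨b, a, h, hvab.symm⟩
      obtain ⟨i, j, hij, hvij⟩ := h3
      have hij' : (i : ℕ) < j := hij
      have hj := j.2
      refine ⟨⟨3 * j, by omega⟩, ⟨3 * i + 1, by omega⟩, ⟨3 * (j - i - 1) + 2, by omega⟩,
        ?_, ?_, ?_, ?_⟩
      · intro h; have := congrArg Fin.val h; simp only at this; omega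
      · intro h; have := congrArg Fin.val h; simp only at this; omega
      · intro h; have := congrArg Fin.val h; simp only at this; omega
      · apply sum_of_eq (N / 3) m _ i j hij' hj
        simp only [i.2, j.2, dite_true]
        rw [hvij])
    hS
  refine h.trans ?_
  calc 8456 * (k * (S + 1) * (3 * (w + 1)) * (k * T + N * (w + 1)) ^ 2)
      = 25368 * (k * (S + 1) * (w + 1) * (k * T + N * (w + 1)) ^ 2) := by ring
    _ ≤ 26000 * (k * (S + 1) * (w + 1) * (k * T + N * (w + 1)) ^ 2) := by gcongr; norm_num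

end Pool.Agent.TH457.HT
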