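import Pool.Agent.TH457.HT.Gen3
import Pool.Agent.TH457.HT.ZDefs

/-!
# Slow heads and 3SUM
-/

set_option autoImplicit false

open Finset

namespace Pool.Agent.TH457.HT

/-- the numbers of the instance, from the values `u j` of the blocks -/
def inst (N m : ℕ) (u : ℕ → ℕ) (a : ℕ) : ℤ :=
  if a < 3 * m then
    if a % 3 = 0 then 3 * (N : ℤ) ^ 3 + (u (a / 3) * (2 * N) + a / 3 : ℕ)
    else if a % 3 = 1 then 9 * (N : ℤ) ^ 3 - (u (a / 3) * (2 * N) + a / 3 : ℕ)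
    else -(12 * (N : ℤ) ^ 3 + (a / 3 + 1 : ℕ))
  else -(12 * (N : ℤ) ^ 3 + (a + 1 : ℕ))

/-- the three kinds of numbers -/
theorem inst_cases (N m : ℕ) (u : ℕ → ℕ) (hN : 0 < N) (hm : 3 * m ≤ N)
    (hu : ∀ j < m, u j < N ^ 2) (a : ℕ) (ha : a < N) :
    (∃ j y : ℕ, j < m ∧ a = 3 * j ∧ y = u j * (2 * N) + j ∧ (y : ℤ) < 2 * (N : ℤ) ^ 3 ∧
      inst N m u a = 3 * (N : ℤ) ^ 3 + y) ∨
    (∃ j y : ℕ, j < m ∧ a = 3 * j + 1 ∧ y = u j * (2 * N) + j ∧ (y : ℤ) < 2 * (N : ℤ) ^ 3 ∧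
      inst N m u a = 9 * (N : ℤ) ^ 3 - y) ∨
    (∃ t : ℕ, 1 ≤ t ∧ t ≤ N ∧ inst N m u a = -(12 * (N : ℤ) ^ 3 + t) ∧
      ((t ≤ m ∧ a = 3 * (t - 1) + 2) ∨ (3 * m < t ∧ a = t - 1))) := by
  have hy : ∀ j < m, ((u j * (2 * N) + j : ℕ) : ℤ) < 2 * (N : ℤ) ^ 3 := by
    intro j hj
    have h1 : u j + 1 ≤ N ^ 2 := hu j hj
    have h2 : u j * (2 * N) + j < 2 * N ^ 3 := by
      calc u j * (2 * N) + j < u j * (2 * N) + 2 * N := by omega
        _ = (u j + 1) * (2 * N) := by ring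
        _ ≤ N ^ 2 * (2 * N) := Nat.mul_le_mul_right _ h1
        _ = 2 * N ^ 3 := by ring
    exact_mod_cast h2
  unfold inst
  by_cases h : a < 3 * m
  · rw [if_pos h]
    by_cases h0 : a % 3 = 0
    · rw [if_pos h0]
      left
      exact ⟨a / 3, _, by omega, by omega, rfl, hy _ (by omega), rfl⟩
    · rw [if_neg h0]
      by_cases h1 : a % 3 = 1
      · rw [if_pos h1]
        right; left
        exact ⟨a / 3, _, by omega, by omega, rfl, hy _ (by omega), rfl⟩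
      · rw [if_neg h1]
        right; right
        exact ⟨a / 3 + 1, by omega, by omega, rfl, Or.inl ⟨by omega, by omega⟩⟩
  · rw [if_neg h]
    right; right
    exact ⟨a + 1, by omega, by omega, rfl, Or.inr ⟨by omega, by omega⟩⟩

/-- two values are equal if the difference of the numbers is small -/
theorem diff_small (N m : ℕ) (u : ℕ → ℕ) (hm : 3 * m ≤ N) (i j t : ℕ) (hi : i < m)
    (hj : j < m) (ht1 : 1 ≤ t) (ht : t ≤ N)
    (h : ((u i * (2 * N) + i : ℕ) : ℤ) - ((u j * (2 * N) + j : ℕ) : ℤ) = t) :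
    i ≠ j ∧ u i = u j := by
  push_cast at h
  have hij1 : (i : ℤ) < m := by exact_mod_cast hi
  have hij2 : (j : ℤ) < m := by exact_mod_cast hj
  have hmN : 3 * (m : ℤ) ≤ N := by exact_mod_cast hm
  have ht' : (t : ℤ) ≤ N := by exact_mod_cast ht
  have ht1' : (1 : ℤ) ≤ t := by exact_mod_cast ht1
  have h0 : (0 : ℤ) ≤ i := by positivity
  have h0' : (0 : ℤ) ≤ j := by positivity
  have hN : (0 : ℤ) < N := by linarith
  have e : ((u i : ℤ) - u j) * (2 * N) = t - (i - j) := by linarith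
  have hu : (u i : ℤ) - u j = 0 := by
    rcases lt_trichotomy ((u i : ℤ) - u j) 0 with hlt | heq | hgt
    · exfalso
      have h1 : (u i : ℤ) - u j ≤ -1 := by linarith
      have h2 : ((u i : ℤ) - u j) * (2 * N) ≤ -1 * (2 * N) :=
        mul_le_mul_of_nonneg_right h1 (by linarith)
      linarith
    · exact heq
    · exfalso
      have h1 : 1 ≤ (u i : ℤ) - u j := by linarith
      have h2 : 1 * (2 * (N : ℤ)) ≤ ((u i : ℤ) - u j) * (2 * N) :=
        mul_le_mul_of_nonneg_right h1 (by linarith)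
      linarith
  rw [hu, zero_mul] at e
  refine ⟨?_, ?_⟩
  · rintro rfl; linarith
  · have : (u i : ℤ) = u j := by linarith
    exact_mod_cast this

theorem lt_cube (N : ℕ) (hN : 2 ≤ N) : (N : ℤ) < (N : ℤ) ^ 3 := by
  have hN' : (2 : ℤ) ≤ N := by exact_mod_cast hN
  have h1 : 4 ≤ (N : ℤ) ^ 2 := by nlinarith
  have h2 : 4 * (N : ℤ) ≤ (N : ℤ) ^ 2 * N := mul_le_mul_of_nonneg_right h1 (by linarith)
  have h3 : (N : ℤ) ^ 3 = (N : ℤ) ^ 2 * N := by ring
  linarith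

/-- a solution gives two equal values -/
theorem eq_of_three (N m : ℕ) (u : ℕ → ℕ) (hN : 2 ≤ N) (hm : 3 * m ≤ N)
    (hu : ∀ j < m, u j < N ^ 2) (a b c : ℕ) (ha : a < N) (hb : b < N) (hc : c < N)
    (h : inst N m u a + inst N m u b + inst N m u c = 0) :
    ∃ i j, i < m ∧ j < m ∧ i ≠ j ∧ u i = u j := by
  obtain ⟨M, hM⟩ : ∃ M : ℤ, M = (N : ℤ) ^ 3 := ⟨_, rfl⟩
  have hN' : (2 : ℤ) ≤ N := by exact_mod_cast hN
  have hNM : (N : ℤ) < M := by rw [hM]; exact lt_cube N (by omega)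
  have key := diff_small N m u hm
  have hNN : 0 < N := by omega
  rcases inst_cases N m u hNN hm hu a ha with ⟨j1, y1, hj1, -, hy1, hb1, e1⟩ |
    ⟨j1, y1, hj1, -, hy1, hb1, e1⟩ | ⟨t1, ht1, hb1, e1, -⟩ <;>
  rcases inst_cases N m u hNN hm hu b hb with ⟨j2, y2, hj2, -, hy2, hb2, e2⟩ |
    ⟨j2, y2, hj2, -, hy2, hb2, e2⟩ | ⟨t2, ht2, hb2, e2, -⟩ <;>
  rcases inst_cases N m u hNN hm hu c hc with ⟨j3, y3, hj3, -, hy3, hb3, e3⟩ |
    ⟨j3, y3, hj3, -, hy3, hb3, e3⟩ | ⟨t3, ht3, hb3, e3, -⟩ <;>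
  rw [e1, e2, e3] at h <;>
  rw [← hM] at h <;>
  (try rw [← hM] at hb1) <;>
  (try rw [← hM] at hb2) <;>
  (try rw [← hM] at hb3) <;>
  first
  | (exfalso; omega)
  | exact ⟨j1, j2, hj1, hj2, key j1 j2 t3 hj1 hj2 ht3 hb3 (by rw [← hy1, ← hy2]; linarith)⟩
  | exact ⟨j1, j3, hj1, hj3, key j1 j3 t2 hj1 hj3 ht2 hb2 (by rw [← hy1, ← hy3]; linarith)⟩
  | exact ⟨j2, j1, hj2, hj1, key j2 j1 t3 hj2 hj1 ht3 hb3 (by rw [← hy2, ← hy1]; linarith)⟩
  | exact ⟨j2, j3, hj2, hj3, key j2 j3 t1 hj2 hj3 ht1 hb1 (by rw [← hy2, ← hy3]; linarith)⟩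
  | exact ⟨j3, j1, hj3, hj1, key j3 j1 t2 hj3 hj1 ht2 hb2 (by rw [← hy3, ← hy1]; linarith)⟩
  | exact ⟨j3, j2, hj3, hj2, key j3 j2 t1 hj3 hj2 ht1 hb1 (by rw [← hy3, ← hy2]; linarith)⟩

/-- two equal values give a solution -/
theorem three_of_eq (N m : ℕ) (u : ℕ → ℕ) (i j : ℕ) (hij : i < j) (hj : j < m)
    (h : u i = u j) :
    inst N m u (3 * j) + inst N m u (3 * i + 1) + inst N m u (3 * (j - i - 1) + 2) = 0 := by
  unfold inst
  rw [if_pos (by omega), if_pos (by omega), if_pos (by omega), if_neg (by omega),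
    if_pos (by omega), if_pos (by omega), if_neg (by omega), if_neg (by omega)]
  have e1 : 3 * j / 3 = j := by omega
  have e2 : (3 * i + 1) / 3 = i := by omega
  have e3 : (3 * (j - i - 1) + 2) / 3 = j - i - 1 := by omega
  rw [e1, e2, e3, h]
  have e4 : ((j - i - 1 + 1 : ℕ) : ℤ) = (j : ℤ) - i := by
    rw [show j - i - 1 + 1 = j - i by omega]; omega
  rw [e4]
  push_cast
  ring

/-- the numbers are distinct -/
theorem inst_inj (N m : ℕ) (u : ℕ → ℕ) (hN : 2 ≤ N) (hm : 3 * m ≤ N)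
    (hu : ∀ j < m, u j < N ^ 2) (a b : ℕ) (ha : a < N) (hb : b < N)
    (h : inst N m u a = inst N m u b) : a = b := by
  obtain ⟨M, hM⟩ : ∃ M : ℤ, M = (N : ℤ) ^ 3 := ⟨_, rfl⟩
  have hN' : (2 : ℤ) ≤ N := by exact_mod_cast hN
  have hNM : (N : ℤ) < M := by rw [hM]; exact lt_cube N (by omega)
  have hNN : 0 < N := by omega
  have hinj : ∀ i j, i < m → j < m → u i * (2 * N) + i = u j * (2 * N) + j → i = j := by
    intro i j hi hj hij
    have h1 : (u i * (2 * N) + i) % (2 * N) = i := by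
      rw [mul_comm, Nat.mul_add_mod, Nat.mod_eq_of_lt (by omega)]
    have h2 : (u j * (2 * N) + j) % (2 * N) = j := by
      rw [mul_comm, Nat.mul_add_mod, Nat.mod_eq_of_lt (by omega)]
    rw [hij, h2] at h1
    exact h1.symm
  rcases inst_cases N m u hNN hm hu a ha with ⟨j1, y1, hj1, ha1, hy1, hb1, e1⟩ |
    ⟨j1, y1, hj1, ha1, hy1, hb1, e1⟩ | ⟨t1, ht1, hb1, e1, ha1⟩ <;>
  rcases inst_cases N m u hNN hm hu b hb with ⟨j2, y2, hj2, ha2, hy2, hb2, e2⟩ |
    ⟨j2, y2, hj2, ha2, hy2, hb2, e2⟩ | ⟨t2, ht2, hb2, e2, ha2⟩ <;>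
  rw [e1, e2] at h <;>
  rw [← hM] at h <;>
  (try rw [← hM] at hb1) <;>
  (try rw [← hM] at hb2) <;>
  first
  | (exfalso; omega)
  | omega
  | (have h3 : y1 = y2 := by omega
     have h4 := hinj j1 j2 hj1 hj2 (by rw [← hy1, ← hy2]; exact h3)
     omega)

theorem inst_abs (N m : ℕ) (u : ℕ → ℕ) (hN : 15 ≤ N) (hm : 3 * m ≤ N)
    (hu : ∀ j < m, u j < N ^ 2) (a : ℕ) (ha : a < N) : |inst N m u a| ≤ (N : ℤ) ^ 4 := by
  obtain ⟨M, hM⟩ : ∃ M : ℤ, M = (N : ℤ) ^ 3 := ⟨_, rfl⟩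
  have hN' : (15 : ℤ) ≤ N := by exact_mod_cast hN
  have hM0 : 0 < M := by rw [hM]; positivity
  have hNM : (N : ℤ) < M := by rw [hM]; exact lt_cube N (by omega)
  have h4 : 15 * M ≤ (N : ℤ) ^ 4 := by rw [hM]; nlinarith [mul_le_mul_of_nonneg_right hN' hM0.le]
  have hNN : 0 < N := by omega
  rcases inst_cases N m u hNN hm hu a ha with ⟨j1, y1, hj1, -, hy1, hb1, e1⟩ |
    ⟨j1, y1, hj1, -, hy1, hb1, e1⟩ | ⟨t1, ht1, hb1, e1, -⟩ <;>
  rw [e1] <;>
  rw [← hM] <;>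
  (try rw [← hM] at hb1) <;>
  rw [abs_le] <;>
  constructor <;> omega

/-- the word -/
def ZW (N w m : ℕ) (v : Fin m → Fin (N ^ 2)) : Fin (N * (w + 1)) → Bool :=
  zword N w (fun a => inst N m (fun j => if h : j < m then (v ⟨j, h⟩ : ℕ) else 0) a)

theorem ZW_local (N w m : ℕ) (v v' : Fin m → Fin (N ^ 2)) (p : Fin (N * (w + 1)))
    (h : ∀ h : (p : ℕ) / (3 * (w + 1)) < m,
      v ⟨(p : ℕ) / (3 * (w + 1)), h⟩ = v' ⟨(p : ℕ) / (3 * (w + 1)), h⟩) :
    ZW N w m v p = ZW N w m v' p := by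
  unfold ZW zword
  congr 1
  dsimp only
  obtain ⟨a, ha⟩ : ∃ a, a = (p : ℕ) / (w + 1) := ⟨_, rfl⟩
  have e : (p : ℕ) / (3 * (w + 1)) = a / 3 := by
    rw [ha, Nat.div_div_eq_div_mul]
    exact congrArg (fun z => (p : ℕ) / z) (mul_comm _ _)
  rw [← ha]
  unfold inst
  by_cases h1 : a < 3 * m
  · have h2 : a / 3 < m := by omega
    have h3 : v ⟨a / 3, h2⟩ = v' ⟨a / 3, h2⟩ := by
      have h4 := h (by rw [e]; exact h2)
      have h5 : (⟨(p : ℕ) / (3 * (w + 1)), by rw [e]; exact h2⟩ : Fin m) = ⟨a / 3, h2⟩ :=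
        Fin.ext e
      rw [h5] at h4
      exact h4
    simp only [h2, dite_true, h3]
  · rw [if_neg h1, if_neg h1]

open Classical in
/-- **Randomized slow heads and 3SUM.** -/
theorem threeSum_rand (N w : ℕ) {k : ℕ} {Ω : Type} [Fintype Ω] (p : Ω → ℝ) (hp : ∀ ω, 0 ≤ p ω)
    (hp1 : ∑ ω, p ω = 1) (P : Ω → DetProg Bool (N * (w + 1)) k) (T S : ℕ) (hk : 1 ≤ k)
    (hS : ∀ ω, Fintype.card (P ω).Q * (N * (w + 1)) ^ k ≤ 2 ^ S)
    (h : ∀ x : Fin N → ℤ, Function.Injective x → (∀ i, |x i| ≤ (N : ℤ) ^ 4) →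
      1 - 1 / 20000 ≤ prob p P T (zword N w x) (decide (Has3 x))) :
    (N * (w + 1)) ^ 3 ≤ 1100000 * (k * (S + 1) * (w + 1) * (k * T + N * (w + 1)) ^ 2) := by
  rcases Nat.lt_or_ge N 15 with hN | hN
  · have h1 : N * (w + 1) ≤ 1100000 * (k * (S + 1) * (w + 1)) := by
      have h2 : 1 ≤ k * (S + 1) := Nat.one_le_iff_ne_zero.mpr (by positivity)
      calc N * (w + 1) ≤ 1100000 * (w + 1) := Nat.mul_le_mul_right _ (by omega)
        _ = 1100000 * (1 * (w + 1)) := by ring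
        _ ≤ 1100000 * (k * (S + 1) * (w + 1)) :=
            Nat.mul_le_mul_left _ (Nat.mul_le_mul_right _ h2)
    calc (N * (w + 1)) ^ 3 = N * (w + 1) * (N * (w + 1)) ^ 2 := by ring
      _ ≤ 1100000 * (k * (S + 1) * (w + 1)) * (k * T + N * (w + 1)) ^ 2 := by gcongr; omega
      _ = _ := by ring
  have hn : 0 < N * (w + 1) := by positivity
  have hdiv : N * (w + 1) / (3 * (w + 1)) = N / 3 := Nat.mul_div_mul_right N 3 (by omega)
  have hm3 : ∀ m, (m + 1) * (3 * (w + 1)) ≤ N * (w + 1) → 3 * (m + 1) ≤ N := by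
    intro m hm
    have : (3 * (m + 1)) * (w + 1) ≤ N * (w + 1) := by
      calc (3 * (m + 1)) * (w + 1) = (m + 1) * (3 * (w + 1)) := by ring
        _ ≤ _ := hm
    exact Nat.le_of_mul_le_mul_right this (by omega)
  have hex : ∀ m (v : Fin m → Fin (N ^ 2)) (j : ℕ), j < m →
      (fun j => if h : j < m then (v ⟨j, h⟩ : ℕ) else 0) j < N ^ 2 := by
    intro m v j hj
    simp only [hj, dite_true]
    exact (v ⟨j, hj⟩).2
  have hinj : ∀ m, 3 * (m + 1) ≤ N → ∀ v : Fin m → Fin (N ^ 2), Function.Injective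
      (fun a : Fin N => inst N m (fun j => if h : j < m then (v ⟨j, h⟩ : ℕ) else 0) a) := by
    intro m hm v a b hab
    exact Fin.ext (inst_inj N m _ (by omega) (by omega) (hex m v) a b a.2 b.2 hab)
  have h := blocksR3 p hp hp1 (fun ω => (P ω).flip) (3 * (w + 1)) (N ^ 2) T S hn (by omega) hk
    (by positivity) (by
      rw [hdiv]
      have h1 : 3 * (N / 3) ≤ N := Nat.mul_div_le N 3
      calc 2 * (N / 3) ^ 2 ≤ (3 * (N / 3)) ^ 2 := by
            rw [mul_pow]; exact Nat.mul_le_mul_right _ (by norm_num)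
        _ ≤ N ^ 2 := Nat.pow_le_pow_left h1 2)
    (fun m v => ZW N w m v)
    (fun m v v' q hq => ZW_local N w m v v' q hq)
    (by
      intro m hm v hv
      rw [prob_flip]
      have hm' := hm3 m hm
      have h1 := h _ (hinj m hm' v) (fun a => inst_abs N m _ hN (by omega) (hex m v) a a.2)
      have h2 : ¬ Has3 (fun a : Fin N => inst N m
          (fun j => if h : j < m then (v ⟨j, h⟩ : ℕ) else 0) a) := by
        rintro ⟨a, b, c, -, -, -, habc⟩
        obtain ⟨i, j, hi, hj, hij, he⟩ := eq_of_three N m _ (by omega) (by omega) (hex m v) a b c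
          a.2 b.2 c.2 habc
        simp only [hi, hj, dite_true] at he
        exact hij (congrArg Fin.val (hv (Fin.ext he)))
      rw [decide_eq_false h2] at h1
      exact h1)
    (by
      intro m hm v hv
      rw [prob_flip]
      have hm' := hm3 m hm
      have h1 := h _ (hinj m hm' v) (fun a => inst_abs N m _ hN (by omega) (hex m v) a a.2)
      have h2 : Has3 (fun a : Fin N => inst N m
          (fun j => if h : j < m then (v ⟨j, h⟩ : ℕ) else 0) a) := by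
        have h3 : ∃ i j : Fin m, i < j ∧ v i = v j := by
          unfold Function.Injective at hv
          push Not at hv
          obtain ⟨a, b, hvab, hab⟩ := hv
          rcases lt_or_gt_of_ne hab with h | h
          · exact ⟨a, b, h, hvab⟩
          · exact ⟨b, a, h, hvab.symm⟩
        obtain ⟨i, j, hij, hvij⟩ := h3
        have hij' : (i : ℕ) < j := hij
        have hj := j.2
        refine ⟨⟨3 * j, by omega⟩, ⟨3 * i + 1, by omega⟩, ⟨3 * (j - i - 1) + 2, by omega⟩,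
          ?_, ?_, ?_, ?_⟩
        · intro h; have := congrArg Fin.val h; simp only at this; omega
        · intro h; have := congrArg Fin.val h; simp only at this; omega
        · intro h; have := congrArg Fin.val h; simp only at this; omega
        · apply three_of_eq N m _ i j hij' hj
          simp only [i.2, j.2, dite_true]
          rw [hvij]
      rw [decide_eq_true h2] at h1
      exact h1)
    (fun ω => hS ω)
  refine h.trans ?_
  calc 342468 * (k * (S + 1) * (3 * (w + 1)) * (k * T + N * (w + 1)) ^ 2)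
      = 1027404 * (k * (S + 1) * (w + 1) * (k * T + N * (w + 1)) ^ 2) := by ring
    _ ≤ 1100000 * (k * (S + 1) * (w + 1) * (k * T + N * (w + 1)) ^ 2) := by gcongr; norm_num

end Pool.Agent.TH457.HT
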