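import Pool.Agent.TH457.HT.Engine

/-!
# Words made of blocks and the choice of the parameters
-/

set_option autoImplicit false

open Finset

namespace Pool.Agent.TH457.HT

/-- The word of length `n` which consists of `m` blocks of length `L`, the `j`-th block being the
code of `v j`, and of padding letters. -/
def word {Λ : Type} {U : ℕ} (n L : ℕ) (enc : Fin U → ℕ → Λ) (pad : Λ) (m : ℕ) (v : Fin m → Fin U)
    (p : Fin n) : Λ :=
  if h : (p : ℕ) / L < m then enc (v ⟨(p : ℕ) / L, h⟩) ((p : ℕ) % L) else pad

/-- **Slow heads and distinct blocks**, with all parameters. -/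
theorem blocks {Λ : Type} {n k : ℕ} (P : HeadProg Λ n k) (L U T S : ℕ) (hn : 0 < n) (hL : 0 < L)
    (hk : 1 ≤ k) (enc : Fin U → ℕ → Λ) (pad : Λ) (hU : 2 * n ^ 2 ≤ U)
    (hacc : ∀ m, m * L ≤ n → ∀ v : Fin m → Fin U, Function.Injective v →
      P.AcceptsIn T (word n L enc pad m v))
    (hsound : ∀ m, m * L ≤ n → ∀ v : Fin m → Fin U, P.Accepts (word n L enc pad m v) →
      Function.Injective v)
    (hS : Fintype.card P.Q * n ^ k ≤ 2 ^ S) :
    n ^ 3 ≤ 8428 * (k * (S + 1) * L * (k * T + n) ^ 2) := by
  classical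
  obtain ⟨q, hq⟩ : ∃ q, q = k * T / n + 1 := ⟨_, rfl⟩
  have hq1 : 1 ≤ q := by rw [hq]; exact Nat.le_add_left 1 _
  have hkT : k * T < n * q := by
    rw [hq]
    have h1 := Nat.div_add_mod (k * T) n
    have h2 := Nat.mod_lt (k * T) hn
    calc k * T = n * (k * T / n) + k * T % n := h1.symm
      _ < n * (k * T / n) + n := by omega
      _ = n * (k * T / n + 1) := by ring
  have hnq : n * q ≤ k * T + n := by
    rw [hq, mul_add, mul_one]
    have := Nat.mul_div_le (k * T) n
    omega
  suffices hmain : n < 8428 * (k * (S + 1) * q ^ 2 * L) by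
    calc n ^ 3 = n * n ^ 2 := by ring
      _ ≤ 8428 * (k * (S + 1) * q ^ 2 * L) * n ^ 2 := Nat.mul_le_mul_right _ hmain.le
      _ = 8428 * (k * (S + 1) * L * (n * q) ^ 2) := by ring
      _ ≤ 8428 * (k * (S + 1) * L * (k * T + n) ^ 2) := by gcongr
  by_contra hcon
  push Not at hcon
  obtain ⟨d, hd⟩ : ∃ d, d = 28 * (S + 1) * q := ⟨_, rfl⟩
  have hd0 : 0 < d := by rw [hd]; positivity
  obtain ⟨D, hD⟩ : ∃ D, D = n / L / d := ⟨_, rfl⟩
  have hlam : 0 < L * d := by positivity
  have hDD : 301 * k * q ≤ D := by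
    rw [hD, Nat.le_div_iff_mul_le hd0, Nat.le_div_iff_mul_le hL]
    calc 301 * k * q * d * L = 8428 * (k * (S + 1) * q ^ 2 * L) := by rw [hd]; ring
      _ ≤ n := hcon
  have hkq : 1 ≤ k * q := Nat.one_le_iff_ne_zero.mpr (by positivity)
  have hkq' : 301 * k * q = 301 * (k * q) := by ring
  rw [hkq'] at hDD
  have hDdL : D * d * L ≤ n := by
    rw [hD]
    calc n / L / d * d * L ≤ n / L * L := Nat.mul_le_mul_right _ (Nat.div_mul_le_self _ _)
      _ ≤ n := Nat.div_mul_le_self _ _
  have hDd : D * d ≤ n := (Nat.le_mul_of_pos_right _ hL).trans hDdL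
  have hn2 : n < L * d * (D + 1) := by
    rw [hD, Nat.div_div_eq_div_mul]
    have h1 := Nat.div_add_mod n (L * d)
    have h2 := Nat.mod_lt n hlam
    calc n = L * d * (n / (L * d)) + n % (L * d) := h1.symm
      _ < L * d * (n / (L * d)) + L * d := by omega
      _ = L * d * (n / (L * d) + 1) := by ring
  have hU0 : 0 < U := by
    have : 0 < n ^ 2 := by positivity
    omega
  have hfin := engine P (L * d) D d U T (S + 1) (25 * q) hlam
    (fun v => word n L enc pad (D * d)
      (fun j => v (finProdFinEquiv.symm j).1 (finProdFinEquiv.symm j).2))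
    (by
      intro v v' p hv
      unfold word
      by_cases hp : (p : ℕ) / L < D * d
      · rw [dif_pos hp, dif_pos hp]
        have hz : (p : ℕ) / (L * d) < D := by
          rw [← Nat.div_div_eq_div_mul]
          exact Nat.div_lt_of_lt_mul (by rw [mul_comm]; exact hp)
        have e : (finProdFinEquiv.symm (⟨(p : ℕ) / L, hp⟩ : Fin (D * d))).1
            = ⟨(p : ℕ) / (L * d), hz⟩ := by
          apply Fin.ext
          simp only [finProdFinEquiv_symm_apply, Fin.divNat, Nat.div_div_eq_div_mul]
        dsimp only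
        rw [e, hv hz]
      · rw [dif_neg hp, dif_neg hp])
    (by
      intro v hv
      apply hacc (D * d) hDdL
      intro i j hij
      have := hv (a₁ := finProdFinEquiv.symm i) (a₂ := finProdFinEquiv.symm j) hij
      exact finProdFinEquiv.symm.injective this)
    (by
      intro v hv i j hij
      have h1 := hsound (D * d) hDdL _ hv
      have h2 := h1 (a₁ := finProdFinEquiv i) (a₂ := finProdFinEquiv j) (by
        simpa using hij)
      exact finProdFinEquiv.injective h2)
    hU0
    (by
      refine le_trans ?_ hU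
      gcongr)
    (by omega)
    (by
      -- windows
      apply Nat.lt_of_mul_lt_mul_left (a := L * d)
      have h1 : L * d * (T / (L * d)) ≤ T := Nat.mul_div_le T (L * d)
      have hD1 : 1 ≤ D := by omega
      have h3 : n < L * d * (2 * D) := lt_of_lt_of_le hn2 (Nat.mul_le_mul_left _ (by omega))
      have h4 : 12 * (k * T) < 12 * (L * d * (2 * D) * q) := by
        have : n * q ≤ L * d * (2 * D) * q := Nat.mul_le_mul_right _ h3.le
        omega
      have h5 : 12 * k ≤ q * D := by
        have h51 : k ≤ k * q := Nat.le_mul_of_pos_right _ hq1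
        have h52 : D ≤ q * D := Nat.le_mul_of_pos_left _ hq1
        omega
      calc L * d * (12 * k * (T / (L * d) + 1))
          = 12 * k * (L * d * (T / (L * d))) + 12 * k * (L * d) := by ring
        _ ≤ 12 * k * T + 12 * k * (L * d) := by gcongr
        _ = 12 * (k * T) + 12 * k * (L * d) := by ring
        _ < 12 * (L * d * (2 * D) * q) + q * D * (L * d) :=
            Nat.add_lt_add_of_lt_of_le h4 (Nat.mul_le_mul_right _ h5)
        _ = L * d * (25 * q * D) := by ring
        _ ≤ L * d * ((25 * q + 1) * D) := by gcongr; omega)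
    (by
      have : 12 * k * (25 * q) = 300 * (k * q) := by ring
      omega)
    (by
      rw [Fintype.card_prod, Fintype.card_fun, Fintype.card_fin, Fintype.card_fin, pow_succ]
      have : 1 ≤ 2 ^ S := Nat.one_le_two_pow
      omega)
  have h9 : (S + 1) * (25 * q + 1) ≤ 26 * ((S + 1) * q) := by
    calc (S + 1) * (25 * q + 1) ≤ (S + 1) * (26 * q) := Nat.mul_le_mul_left _ (by omega)
      _ = 26 * ((S + 1) * q) := by ring
  have h10 : d = 28 * ((S + 1) * q) := by rw [hd]; ring
  have h11 : 1 ≤ (S + 1) * q := Nat.one_le_iff_ne_zero.mpr (by positivity)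
  omega

end Pool.Agent.TH457.HT
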