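import Pool.Agent.TH457.HT.EngineF

/-!
# Words made of blocks, general form, and the choice of the parameters
-/

set_option autoImplicit false

open Finset

namespace Pool.Agent.TH457.HT

/-- the choice of the parameters -/
theorem params (n k T L S cc : ℕ) (hn : 0 < n) (hL : 0 < L) (hk : 1 ≤ k) (hcc : 1 ≤ cc) :
    n ^ 3 ≤ 302 * cc * (k * (S + 1) * L * (k * T + n) ^ 2) ∨
    ∃ q d D, 1 ≤ q ∧ d = cc * ((S + 1) * q) ∧ 0 < d ∧ 2 ≤ D ∧ (D * d + 1) * L ≤ n ∧
      12 * k * (T / (L * d) + 1) < (25 * q + 1) * D ∧ 12 * k * (25 * q) + 1 ≤ D := by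
  obtain ⟨q, hq⟩ : ∃ q, q = k * T / n + 1 := ⟨_, rfl⟩
  have hq1 : 1 ≤ q := by rw [hq]; exact Nat.le_add_left 1 _
  have hkT : k * T < n * q := by
    rw [hq]
    have h1 := Nat.div_add_mod (k * T) n
    have h2 := Nat.mod_lt (k * T) hn
    calc k * T = n * (k * T / n) + k * T % n := h1.symm
      _ < n * (k * T / n) + n := by omega
      _ = n * (k * T / n + 1) := by ring
  have hnq : n * q ≤ k * T + n := by
    rw [hq, mul_add, mul_one]
    have := Nat.mul_div_le (k * T) n
    omega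
  rcases Nat.lt_or_ge n (302 * cc * (k * (S + 1) * q ^ 2 * L)) with hmain | hcon
  · left
    calc n ^ 3 = n * n ^ 2 := by ring
      _ ≤ 302 * cc * (k * (S + 1) * q ^ 2 * L) * n ^ 2 := Nat.mul_le_mul_right _ hmain.le
      _ = 302 * cc * (k * (S + 1) * L * (n * q) ^ 2) := by ring
      _ ≤ 302 * cc * (k * (S + 1) * L * (k * T + n) ^ 2) := by gcongr
  right
  obtain ⟨d, hd⟩ : ∃ d, d = cc * ((S + 1) * q) := ⟨_, rfl⟩
  have hd0 : 0 < d := by rw [hd]; positivity
  obtain ⟨D, hD⟩ : ∃ D, D = (n / L - 1) / d := ⟨_, rfl⟩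
  have hkq : 1 ≤ k * q := Nat.one_le_iff_ne_zero.mpr (by positivity)
  have hnL : 301 * (k * q) * d + 1 ≤ n / L := by
    rw [Nat.le_div_iff_mul_le hL]
    have h1 : 1 ≤ k * q * d := Nat.one_le_iff_ne_zero.mpr (by positivity)
    calc (301 * (k * q) * d + 1) * L ≤ (301 * (k * q * d) + k * q * d) * L :=
          Nat.mul_le_mul_right _ (by nlinarith)
      _ = 302 * cc * (k * (S + 1) * q ^ 2 * L) := by rw [hd]; ring
      _ ≤ n := hcon
  have hDD : 301 * (k * q) ≤ D := by
    rw [hD, Nat.le_div_iff_mul_le hd0]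
    omega
  have hDd : D * d ≤ n / L - 1 := by rw [hD]; exact Nat.div_mul_le_self _ _
  have hDdL : (D * d + 1) * L ≤ n := by
    calc (D * d + 1) * L ≤ n / L * L := Nat.mul_le_mul_right _ (by omega)
      _ ≤ n := Nat.div_mul_le_self _ _
  have hn2 : n < L * d * (2 * D) := by
    have h1 := Nat.div_add_mod n L
    have h2 := Nat.mod_lt n hL
    have h3 : n / L - 1 < d * (D + 1) := by
      rw [hD]
      have h4 := Nat.div_add_mod (n / L - 1) d
      have h5 := Nat.mod_lt (n / L - 1) hd0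
      calc n / L - 1 = d * ((n / L - 1) / d) + (n / L - 1) % d := h4.symm
        _ < d * ((n / L - 1) / d) + d := by omega
        _ = d * ((n / L - 1) / d + 1) := by ring
    have h6 : n / L + 1 ≤ d * (2 * D) := by
      have h7 : d * (D + 1) = d * D + d := by ring
      have h8 : d * 3 ≤ d * D := Nat.mul_le_mul_left _ (by omega)
      have h9 : d * (2 * D) = d * D + d * D := by ring
      omega
    calc n = L * (n / L) + n % L := h1.symm
      _ < L * (n / L) + L := by omega
      _ = L * (n / L + 1) := by ring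
      _ ≤ L * (d * (2 * D)) := Nat.mul_le_mul_left _ h6
      _ = L * d * (2 * D) := by ring
  have hlam : 0 < L * d := by positivity
  refine ⟨q, d, D, hq1, hd, hd0, by omega, hDdL, ?_, ?_⟩
  · apply Nat.lt_of_mul_lt_mul_left (a := L * d)
    have h1 : L * d * (T / (L * d)) ≤ T := Nat.mul_div_le T (L * d)
    have hD1 : 1 ≤ D := by omega
    have h4 : 12 * (k * T) < 12 * (L * d * (2 * D) * q) := by
      have : n * q ≤ L * d * (2 * D) * q := Nat.mul_le_mul_right _ hn2.le
      omega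
    have h5 : 12 * k ≤ q * D := by
      have h51 : k ≤ k * q := Nat.le_mul_of_pos_right _ hq1
      have h52 : D ≤ q * D := Nat.le_mul_of_pos_left _ hq1
      omega
    calc L * d * (12 * k * (T / (L * d) + 1))
        = 12 * k * (L * d * (T / (L * d))) + 12 * k * (L * d) := by ring
      _ ≤ 12 * k * T + 12 * k * (L * d) := by gcongr
      _ = 12 * (k * T) + 12 * k * (L * d) := by ring
      _ < 12 * (L * d * (2 * D) * q) + q * D * (L * d) :=
          Nat.add_lt_add_of_lt_of_le h4 (Nat.mul_le_mul_right _ h5)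
      _ = L * d * (25 * q * D) := by ring
      _ ≤ L * d * ((25 * q + 1) * D) := by gcongr; omega
  · have : 12 * k * (25 * q) = 300 * (k * q) := by ring
    omega

/-- locality of the words of families of zones -/
theorem loc_zones {Λ : Type} {U n L D d : ℕ} (W : (Fin (D * d) → Fin U) → Fin n → Λ)
    (hW : ∀ v v' (p : Fin n), (∀ h : (p : ℕ) / L < D * d,
      v ⟨(p : ℕ) / L, h⟩ = v' ⟨(p : ℕ) / L, h⟩) → W v p = W v' p)
    (v v' : Fin D → Fin d → Fin U) (p : Fin n)
    (h : ∀ h : (p : ℕ) / (L * d) < D, v ⟨(p : ℕ) / (L * d), h⟩ = v' ⟨(p : ℕ) / (L * d), h⟩) :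
    W (fun j => v (finProdFinEquiv.symm j).1 (finProdFinEquiv.symm j).2) p
      = W (fun j => v' (finProdFinEquiv.symm j).1 (finProdFinEquiv.symm j).2) p := by
  apply hW
  intro hp
  have hz : (p : ℕ) / (L * d) < D := by
    rw [← Nat.div_div_eq_div_mul]
    exact Nat.div_lt_of_lt_mul (by rw [mul_comm]; exact hp)
  have e : (finProdFinEquiv.symm (⟨(p : ℕ) / L, hp⟩ : Fin (D * d))).1
      = ⟨(p : ℕ) / (L * d), hz⟩ := by
    apply Fin.ext
    simp only [finProdFinEquiv_symm_apply, Fin.divNat, Nat.div_div_eq_div_mul]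
  rw [e, h hz]

theorem inj_zones {U D d : ℕ} (v : Fin D → Fin d → Fin U) :
    Function.Injective (fun j : Fin (D * d) =>
      v (finProdFinEquiv.symm j).1 (finProdFinEquiv.symm j).2) ↔
    Function.Injective (fun p : Fin D × Fin d => v p.1 p.2) := by
  constructor
  · intro h i j hij
    have h2 := h (a₁ := finProdFinEquiv i) (a₂ := finProdFinEquiv j) (by simpa using hij)
    exact finProdFinEquiv.injective h2
  · intro h i j hij
    have h2 := h (a₁ := finProdFinEquiv.symm i) (a₂ := finProdFinEquiv.symm j) hij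
    exact finProdFinEquiv.symm.injective h2

/-- **Nondeterministic programs with slow heads and distinct blocks**, general form. -/
theorem blocksN {Λ : Type} {n k : ℕ} (P : HeadProg Λ n k) (L U T S : ℕ) (hn : 0 < n) (hL : 0 < L)
    (hk : 1 ≤ k) (hU : 2 * n ^ 2 ≤ U) (W : ∀ m : ℕ, (Fin m → Fin U) → Fin n → Λ)
    (hW : ∀ m, ∀ v v' (p : Fin n), (∀ h : (p : ℕ) / L < m,
      v ⟨(p : ℕ) / L, h⟩ = v' ⟨(p : ℕ) / L, h⟩) → W m v p = W m v' p)
    (hacc : ∀ m, (m + 1) * L ≤ n → ∀ v : Fin m → Fin U, Function.Injective v →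
      P.AcceptsIn T (W m v))
    (hsound : ∀ m, (m + 1) * L ≤ n → ∀ v : Fin m → Fin U, P.Accepts (W m v) →
      Function.Injective v)
    (hS : Fintype.card P.Q * n ^ k ≤ 2 ^ S) :
    n ^ 3 ≤ 8456 * (k * (S + 1) * L * (k * T + n) ^ 2) := by
  rcases params n k T L S 28 hn hL hk (by norm_num) with h | ⟨q, d, D, hq, hd, hd0, hD, hDdL, h1, h2⟩
  · exact h
  exfalso
  have hU0 : 0 < U := by
    have : 0 < n ^ 2 := by positivity
    omega
  have hDd : D * d ≤ n := by nlinarith
  have hfin := engine P (L * d) D d U T (S + 1) (25 * q) (by positivity)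
    (fun v => W (D * d) (fun j => v (finProdFinEquiv.symm j).1 (finProdFinEquiv.symm j).2))
    (fun v v' p h => loc_zones (W (D * d)) (hW (D * d)) v v' p h)
    (fun v hv => hacc (D * d) hDdL _ ((inj_zones v).mpr hv))
    (fun v hv => (inj_zones v).mp (hsound (D * d) hDdL _ hv))
    hU0 (le_trans (by gcongr) hU) hD h1 h2
    (by
      rw [Fintype.card_prod, Fintype.card_fun, Fintype.card_fin, Fintype.card_fin, pow_succ]
      have : 1 ≤ 2 ^ S := Nat.one_le_two_pow
      omega)
  have h9 : (S + 1) * (25 * q + 1) ≤ 26 * ((S + 1) * q) := by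
    calc (S + 1) * (25 * q + 1) ≤ (S + 1) * (26 * q) := Nat.mul_le_mul_left _ (by omega)
      _ = 26 * ((S + 1) * q) := by ring
  have h11 : 1 ≤ (S + 1) * q := Nat.one_le_iff_ne_zero.mpr (by positivity)
  omega

/-- **Randomized programs with slow heads and distinct blocks**, general form. -/
theorem blocksR {Λ : Type} {n k : ℕ} {Ω : Type} [Fintype Ω] (p : Ω → ℝ) (hp : ∀ ω, 0 ≤ p ω)
    (hp1 : ∑ ω, p ω = 1) (P : Ω → DetProg Λ n k) (L U T S : ℕ) (hn : 0 < n) (hL : 0 < L)
    (hk : 1 ≤ k) (hU : 2 * n ^ 2 ≤ U) (W : ∀ m : ℕ, (Fin m → Fin U) → Fin n → Λ)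
    (hW : ∀ m, ∀ v v' (p : Fin n), (∀ h : (p : ℕ) / L < m,
      v ⟨(p : ℕ) / L, h⟩ = v' ⟨(p : ℕ) / L, h⟩) → W m v p = W m v' p)
    (hyes : ∀ m, (m + 1) * L ≤ n → ∀ v : Fin m → Fin U, Function.Injective v →
      1 - 1 / 20000 ≤ prob p P T (W m v) true)
    (hno : ∀ m, (m + 1) * L ≤ n → ∀ v : Fin m → Fin U, ¬ Function.Injective v →
      1 - 1 / 20000 ≤ prob p P T (W m v) false)
    (hS : ∀ ω, Fintype.card (P ω).Q * n ^ k ≤ 2 ^ S) :
    n ^ 3 ≤ 342468 * (k * (S + 1) * L * (k * T + n) ^ 2) := by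
  rcases params n k T L S 1134 hn hL hk (by norm_num) with
    h | ⟨q, d, D, hq, hd, hd0, hD, hDdL, h1, h2⟩
  · exact h
  exfalso
  have hU0 : 0 < U := by
    have : 0 < n ^ 2 := by positivity
    omega
  have hDd : D * d ≤ n := by nlinarith
  have hfin := engineR p hp hp1 P (L * d) D d U T (25 * q) (S + 1) (by positivity) hd0 hU0
    (fun v => W (D * d) (fun j => v (finProdFinEquiv.symm j).1 (finProdFinEquiv.symm j).2))
    (fun v v' p h => loc_zones (W (D * d)) (hW (D * d)) v v' p h)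
    (fun v hv => hyes (D * d) hDdL _ ((inj_zones v).mpr hv))
    (fun v hv => hno (D * d) hDdL _ (fun h => hv ((inj_zones v).mp h)))
    (le_trans (by gcongr) hU) hD h1 h2
    (by
      intro ω
      rw [Fintype.card_prod, Fintype.card_fun, Fintype.card_fin, Fintype.card_fin, pow_succ]
      have := hS ω
      have : 1 ≤ 2 ^ S := Nat.one_le_two_pow
      omega)
  have h9 : 42 * (25 * q * (S + 1)) = 1050 * ((S + 1) * q) := by ring
  have h11 : 1 ≤ (S + 1) * q := Nat.one_le_iff_ne_zero.mpr (by positivity)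
  omega

end Pool.Agent.TH457.HT
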